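import Pool.Agent.Lib.FCC.Base

/-!
# Module FCC.Perm: permutations of the superbase

A permutation of `v₁, v₂, v₃, v₄ = -v₁-v₂-v₃` changes `formOf l` into an integrally equivalent form
`formOf l'`, `l'` a rearrangement of `l`. Index of pairs: `0 = 12, 1 = 34, 2 = 13, 3 = 24, 4 = 14,
5 = 23`.
Transpositions (all are involutions on the six parameters):
* `(12)`: `l' = (l0, l1, l5, l4, l3, l2)`, matrix `U = !![0,1,0; 1,0,0; 0,0,1]`;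
* `(34)`: `l' = (l0, l1, l4, l5, l2, l3)`, `U` with columns `e1, e2, -(e1+e2+e3)`:
  `!![1,0,-1; 0,1,-1; 0,0,-1]`;
* `(23)`: `l' = (l2, l3, l0, l1, l4, l5)`, `U = !![1,0,0; 0,0,1; 0,1,0]`;
* `(24)`: `l' = (l4, l5, l2, l3, l0, l1)`, `U` with columns `e1, -(e1+e2+e3), e3`;
* `(14)`: `l' = (l3, l2, l1, l0, l4, l5)`, `U` with columns `-(e1+e2+e3), e2, e3`;
* `(13)`: `l' = (l5, l4, l2, l3, l1, l0)`, `U = !![0,0,1; 0,1,0; 1,0,0]`.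
Please verify each by `act U (formOf l) = formOf l'` (`ext i j; fin_cases i <;> fin_cases j <;>
simp [act, formOf, Matrix.mul_apply, Fin.sum_univ_three] <;> ring`) and correct the list if a
rearrangement is misprinted; `IsUnit U.det` by `simp [Matrix.det_fin_three]` or `decide`.
(1) Let `k` be an index with `l k` minimal. Apply: `k=0` nothing; `k=1` `(13)` then `(24)` (or any
permutation exchanging 12 and 34); `k=2` `(23)`; `k=3` `(14)`; `k=4` `(24)`; `k=5` `(13)`. After this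
`l' 0` is minimal.
(2) The transpositions `(12)`, `(34)` and their product fix `l 0, l 1` and move each of the indices
`3, 4, 5` to `2`: `(34)` for `4`, `(12)` for `5`, both for `3`. So `l' 2 ≥ l' 3, l' 4, l' 5` can be
reached.
(3) `Good l'` (hypothesis `H`): if `GoodAt 4 l'` done; if `GoodAt 5 l'` apply `(23)` (it exchanges the
norms `nm 4` and `nm 5`: `nm l'' 4 = nm l' 5` and permutes the others, so `GoodAt 4 l''`); if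
`GoodAt 6 l'` apply `(24)` (exchanges `nm 4` and `nm 6`).
`dt` is invariant (`simp [dt]; ring`), nonnegativity is invariant, `Eqv.trans`.
-/

open Matrix
open scoped Matrix.Norms.Elementwise

namespace Pool.Agent.Lib.FCC

open Pool.Agent.Lib.EpZ

namespace PermAux

/-- the admissible changes of the parameters -/
def Rel (l l' : Fin 6 → ℝ) : Prop :=
  Eqv (formOf l) (formOf l') ∧ dt l' = dt l ∧ ((∀ i, 0 ≤ l i) → ∀ i, 0 ≤ l' i)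

theorem Rel.refl (l : Fin 6 → ℝ) : Rel l l := ⟨Eqv.refl _, rfl, fun h => h⟩

theorem Rel.trans {l l' l'' : Fin 6 → ℝ} (h : Rel l l') (h' : Rel l' l'') : Rel l l'' :=
  ⟨h.1.trans h'.1, h'.2.1.trans h.2.1, fun h0 => h'.2.2 (h.2.2 h0)⟩

def s12 (l : Fin 6 → ℝ) : Fin 6 → ℝ := ![l 0, l 1, l 5, l 4, l 3, l 2]
def s34 (l : Fin 6 → ℝ) : Fin 6 → ℝ := ![l 0, l 1, l 4, l 5, l 2, l 3]
def s23 (l : Fin 6 → ℝ) : Fin 6 → ℝ := ![l 2, l 3, l 0, l 1, l 4, l 5]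
def s24 (l : Fin 6 → ℝ) : Fin 6 → ℝ := ![l 4, l 5, l 2, l 3, l 0, l 1]
def s14 (l : Fin 6 → ℝ) : Fin 6 → ℝ := ![l 3, l 2, l 1, l 0, l 4, l 5]
def s13 (l : Fin 6 → ℝ) : Fin 6 → ℝ := ![l 5, l 4, l 2, l 3, l 1, l 0]

theorem rel_of (l l' : Fin 6 → ℝ) (U : Matrix (Fin 3) (Fin 3) ℤ) (hU : U.det = 1 ∨ U.det = -1)
    (h : formOf l' = act U (formOf l)) (hd : dt l' = dt l) (hn : ∀ i, ∃ j, l' i = l j) :
    Rel l l' := by
  refine ⟨⟨U, ?_, h⟩, hd, ?_⟩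
  · rcases hU with h1 | h1
    · rw [h1]; exact isUnit_one
    · rw [h1]; exact isUnit_one.neg
  · intro h0 i
    obtain ⟨j, hj⟩ := hn i
    rw [hj]
    exact h0 j

theorem rel12 (l : Fin 6 → ℝ) : Rel l (s12 l) := by
  refine rel_of l _ !![0,1,0; 1,0,0; 0,0,1] ?_ ?_ ?_ ?_
  · right; simp [Matrix.det_fin_three]
  · ext i j
    fin_cases i <;> fin_cases j <;>
      simp [act, formOf, s12, Matrix.mul_apply, Fin.sum_univ_three] <;> ring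
  · simp [dt, s12]; ring
  · intro i
    fin_cases i
    exacts [⟨0, rfl⟩, ⟨1, rfl⟩, ⟨5, rfl⟩, ⟨4, rfl⟩, ⟨3, rfl⟩, ⟨2, rfl⟩]

theorem rel34 (l : Fin 6 → ℝ) : Rel l (s34 l) := by
  refine rel_of l _ !![1,0,-1; 0,1,-1; 0,0,-1] ?_ ?_ ?_ ?_
  · right; simp [Matrix.det_fin_three]
  · ext i j
    fin_cases i <;> fin_cases j <;>
      simp [act, formOf, s34, Matrix.mul_apply, Fin.sum_univ_three] <;> ring
  · simp [dt, s34]; ring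
  · intro i
    fin_cases i
    exacts [⟨0, rfl⟩, ⟨1, rfl⟩, ⟨4, rfl⟩, ⟨5, rfl⟩, ⟨2, rfl⟩, ⟨3, rfl⟩]

theorem rel23 (l : Fin 6 → ℝ) : Rel l (s23 l) := by
  refine rel_of l _ !![1,0,0; 0,0,1; 0,1,0] ?_ ?_ ?_ ?_
  · right; simp [Matrix.det_fin_three]
  · ext i j
    fin_cases i <;> fin_cases j <;>
      simp [act, formOf, s23, Matrix.mul_apply, Fin.sum_univ_three] <;> ring
  · simp [dt, s23]; ring
  · intro i
    fin_cases i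
    exacts [⟨2, rfl⟩, ⟨3, rfl⟩, ⟨0, rfl⟩, ⟨1, rfl⟩, ⟨4, rfl⟩, ⟨5, rfl⟩]

theorem rel24 (l : Fin 6 → ℝ) : Rel l (s24 l) := by
  refine rel_of l _ !![1,-1,0; 0,-1,0; 0,-1,1] ?_ ?_ ?_ ?_
  · right; simp [Matrix.det_fin_three]
  · ext i j
    fin_cases i <;> fin_cases j <;>
      simp [act, formOf, s24, Matrix.mul_apply, Fin.sum_univ_three] <;> ring
  · simp [dt, s24]; ring
  · intro i
    fin_cases i
    exacts [⟨4, rfl⟩, ⟨5, rfl⟩, ⟨2, rfl⟩, ⟨3, rfl⟩, ⟨0, rfl⟩, ⟨1, rfl⟩]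

theorem rel14 (l : Fin 6 → ℝ) : Rel l (s14 l) := by
  refine rel_of l _ !![-1,0,0; -1,1,0; -1,0,1] ?_ ?_ ?_ ?_
  · right; simp [Matrix.det_fin_three]
  · ext i j
    fin_cases i <;> fin_cases j <;>
      simp [act, formOf, s14, Matrix.mul_apply, Fin.sum_univ_three] <;> ring
  · simp [dt, s14]; ring
  · intro i
    fin_cases i
    exacts [⟨3, rfl⟩, ⟨2, rfl⟩, ⟨1, rfl⟩, ⟨0, rfl⟩, ⟨4, rfl⟩, ⟨5, rfl⟩]

theorem rel13 (l : Fin 6 → ℝ) : Rel l (s13 l) := by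
  refine rel_of l _ !![0,0,1; 0,1,0; 1,0,0] ?_ ?_ ?_ ?_
  · right; simp [Matrix.det_fin_three]
  · ext i j
    fin_cases i <;> fin_cases j <;>
      simp [act, formOf, s13, Matrix.mul_apply, Fin.sum_univ_three] <;> ring
  · simp [dt, s13]; ring
  · intro i
    fin_cases i
    exacts [⟨5, rfl⟩, ⟨4, rfl⟩, ⟨2, rfl⟩, ⟨3, rfl⟩, ⟨1, rfl⟩, ⟨0, rfl⟩]

theorem good5 (l : Fin 6 → ℝ) (h : GoodAt 5 l) : GoodAt 4 (s23 l) := by
  have h0 : nm (s23 l) 0 = nm l 0 := by simp [nm, s23]; ring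
  have h1 : nm (s23 l) 1 = nm l 2 := by simp [nm, s23]
  have h2 : nm (s23 l) 2 = nm l 1 := by simp [nm, s23]
  have h3 : nm (s23 l) 3 = nm l 3 := by simp [nm, s23]; ring
  have h5 : nm (s23 l) 5 = nm l 4 := by simp [nm, s23]
  have h6 : nm (s23 l) 6 = nm l 6 := by simp [nm, s23]; ring
  have e1 : S1 4 (s23 l) = S1 5 l := by
    unfold S1
    rw [Fin.sum_univ_seven, Fin.sum_univ_seven]
    simp only [h0, h1, h2, h3, h5, h6]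
    simp
    ring
  have e2 : S6 4 (s23 l) = S6 5 l := by
    unfold S6
    rw [Fin.sum_univ_seven, Fin.sum_univ_seven]
    simp only [h0, h1, h2, h3, h5, h6]
    simp
    ring
  unfold GoodAt at h ⊢
  rw [e1, e2]
  exact h

theorem good6 (l : Fin 6 → ℝ) (h : GoodAt 6 l) : GoodAt 4 (s24 l) := by
  have h0 : nm (s24 l) 0 = nm l 0 := by simp [nm, s24]; ring
  have h1 : nm (s24 l) 1 = nm l 3 := by simp [nm, s24]; ring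
  have h2 : nm (s24 l) 2 = nm l 2 := by simp [nm, s24]; ring
  have h3 : nm (s24 l) 3 = nm l 1 := by simp [nm, s24]; ring
  have h5 : nm (s24 l) 5 = nm l 5 := by simp [nm, s24]; ring
  have h6 : nm (s24 l) 6 = nm l 4 := by simp [nm, s24]; ring
  have e1 : S1 4 (s24 l) = S1 6 l := by
    unfold S1
    rw [Fin.sum_univ_seven, Fin.sum_univ_seven]
    simp only [h0, h1, h2, h3, h5, h6]
    simp
    ring
  have e2 : S6 4 (s24 l) = S6 6 l := by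
    unfold S6
    rw [Fin.sum_univ_seven, Fin.sum_univ_seven]
    simp only [h0, h1, h2, h3, h5, h6]
    simp
    ring
  unfold GoodAt at h ⊢
  rw [e1, e2]
  exact h

theorem move0 (l : Fin 6 → ℝ) : ∃ l', Rel l l' ∧ ∀ i, l' 0 ≤ l' i := by
  obtain ⟨k, -, hk⟩ := Finset.exists_min_image Finset.univ l ⟨0, Finset.mem_univ _⟩
  have hk' : ∀ i, l k ≤ l i := fun i => hk i (Finset.mem_univ _)
  have key : ∀ l' : Fin 6 → ℝ, l' 0 = l k → (∀ i, ∃ j, l' i = l j) → ∀ i, l' 0 ≤ l' i := by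
    intro l' h1 h2 i
    obtain ⟨j, hj⟩ := h2 i
    rw [h1, hj]
    exact hk' j
  fin_cases k
  · exact ⟨l, Rel.refl l, hk'⟩
  · refine ⟨s24 (s13 l), (rel13 l).trans (rel24 _), key _ rfl ?_⟩
    intro i
    fin_cases i
    exacts [⟨1, rfl⟩, ⟨0, rfl⟩, ⟨2, rfl⟩, ⟨3, rfl⟩, ⟨5, rfl⟩, ⟨4, rfl⟩]
  · refine ⟨s23 l, rel23 l, key _ rfl ?_⟩
    intro i
    fin_cases i
    exacts [⟨2, rfl⟩, ⟨3, rfl⟩, ⟨0, rfl⟩, ⟨1, rfl⟩, ⟨4, rfl⟩, ⟨5, rfl⟩]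
  · refine ⟨s14 l, rel14 l, key _ rfl ?_⟩
    intro i
    fin_cases i
    exacts [⟨3, rfl⟩, ⟨2, rfl⟩, ⟨1, rfl⟩, ⟨0, rfl⟩, ⟨4, rfl⟩, ⟨5, rfl⟩]
  · refine ⟨s24 l, rel24 l, key _ rfl ?_⟩
    intro i
    fin_cases i
    exacts [⟨4, rfl⟩, ⟨5, rfl⟩, ⟨2, rfl⟩, ⟨3, rfl⟩, ⟨0, rfl⟩, ⟨1, rfl⟩]
  · refine ⟨s13 l, rel13 l, key _ rfl ?_⟩
    intro i
    fin_cases i
    exacts [⟨5, rfl⟩, ⟨4, rfl⟩, ⟨2, rfl⟩, ⟨3, rfl⟩, ⟨1, rfl⟩, ⟨0, rfl⟩]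

theorem move2 (l : Fin 6 → ℝ) (h : ∀ i, l 0 ≤ l i) :
    ∃ l', Rel l l' ∧ (∀ i, l' 0 ≤ l' i) ∧ l' 3 ≤ l' 2 ∧ l' 4 ≤ l' 2 ∧ l' 5 ≤ l' 2 := by
  have key : ∀ l' : Fin 6 → ℝ, l' 0 = l 0 → (∀ i, ∃ j, l' i = l j) → ∀ i, l' 0 ≤ l' i := by
    intro l' h1 h2 i
    obtain ⟨j, hj⟩ := h2 i
    rw [h1, hj]
    exact h j
  by_cases a : l 3 ≤ l 2 ∧ l 4 ≤ l 2 ∧ l 5 ≤ l 2
  · exact ⟨l, Rel.refl l, h, a.1, a.2.1, a.2.2⟩
  by_cases b : l 2 ≤ l 3 ∧ l 4 ≤ l 3 ∧ l 5 ≤ l 3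
  · refine ⟨s12 (s34 l), (rel34 l).trans (rel12 _), key _ rfl ?_, b.1, b.2.2, b.2.1⟩
    intro i
    fin_cases i
    exacts [⟨0, rfl⟩, ⟨1, rfl⟩, ⟨3, rfl⟩, ⟨2, rfl⟩, ⟨5, rfl⟩, ⟨4, rfl⟩]
  by_cases c : l 2 ≤ l 4 ∧ l 3 ≤ l 4 ∧ l 5 ≤ l 4
  · refine ⟨s34 l, rel34 l, key _ rfl ?_, c.2.2, c.1, c.2.1⟩
    intro i
    fin_cases i
    exacts [⟨0, rfl⟩, ⟨1, rfl⟩, ⟨4, rfl⟩, ⟨5, rfl⟩, ⟨2, rfl⟩, ⟨3, rfl⟩]
  by_cases d : l 2 ≤ l 5 ∧ l 3 ≤ l 5 ∧ l 4 ≤ l 5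
  · refine ⟨s12 l, rel12 l, key _ rfl ?_, d.2.2, d.2.1, d.1⟩
    intro i
    fin_cases i
    exacts [⟨0, rfl⟩, ⟨1, rfl⟩, ⟨5, rfl⟩, ⟨4, rfl⟩, ⟨3, rfl⟩, ⟨2, rfl⟩]
  exfalso
  rcases le_total (l 2) (l 3) with h23 | h23 <;> rcases le_total (l 4) (l 5) with h45 | h45
  · rcases le_total (l 3) (l 5) with h35 | h35
    · exact d ⟨h23.trans h35, h35, h45⟩
    · exact b ⟨h23, h45.trans h35, h35⟩
  · rcases le_total (l 3) (l 4) with h34 | h34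
    · exact c ⟨h23.trans h34, h34, h45⟩
    · exact b ⟨h23, h34, h45.trans h34⟩
  · rcases le_total (l 2) (l 5) with h25 | h25
    · exact d ⟨h25, h23.trans h25, h45⟩
    · exact a ⟨h23, h45.trans h25, h25⟩
  · rcases le_total (l 2) (l 4) with h24 | h24
    · exact c ⟨h24, h23.trans h24, h45⟩
    · exact a ⟨h23, h24, h45.trans h24⟩

end PermAux

theorem exists_goodAt (H : ∀ l : Fin 6 → ℝ, 0 ≤ l 0 → (∀ i, l 0 ≤ l i) → l 3 ≤ l 2 → l 4 ≤ l 2 →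
      l 5 ≤ l 2 → dt l = 4 → Good l)
    (l : Fin 6 → ℝ) (hl : ∀ i, 0 ≤ l i) (hd : dt l = 4) :
    ∃ l' : Fin 6 → ℝ, (∀ i, 0 ≤ l' i) ∧ dt l' = 4 ∧ GoodAt 4 l' ∧
      Eqv (formOf l) (formOf l') := by
  obtain ⟨l₁, r₁, h₁⟩ := PermAux.move0 l
  obtain ⟨l₂, r₂, h₂, h3, h4, h5⟩ := PermAux.move2 l₁ h₁
  have r := r₁.trans r₂
  have hn : ∀ i, 0 ≤ l₂ i := r.2.2 hl
  have hdt : dt l₂ = 4 := r.2.1.trans hd
  rcases H l₂ (hn 0) h₂ h3 h4 h5 hdt with g | g | g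
  · exact ⟨l₂, hn, hdt, g, r.1⟩
  · have r' := r.trans (PermAux.rel23 l₂)
    exact ⟨PermAux.s23 l₂, r'.2.2 hl, r'.2.1.trans hd, PermAux.good5 l₂ g, r'.1⟩
  · have r' := r.trans (PermAux.rel24 l₂)
    exact ⟨PermAux.s24 l₂, r'.2.2 hl, r'.2.1.trans hd, PermAux.good6 l₂ g, r'.1⟩

end Pool.Agent.Lib.FCC
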