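import Pool.Agent.Lib.FCC.Defs
import Pool.Agent.Lib.EpZ.LatF

/-!
# Ternary forms in terms of their Selling parameters
-/

open Matrix
open scoped Matrix.Norms.Elementwise

namespace Pool.Agent.Lib.FCC

open Pool.Agent.Lib.EpZ

/-- the form with Selling parameters `l`, in the basis `v₁, v₂, v₃` -/
def formOf (l : Fin 6 → ℝ) : Mx 3 :=
  !![l 0 + l 2 + l 4, -l 0, -l 2; -l 0, l 0 + l 5 + l 3, -l 5; -l 2, -l 5, l 2 + l 5 + l 1]

/-- the cube root of the determinant -/
noncomputable def gg (l : Fin 6 → ℝ) : ℝ := dt l ^ ((1 : ℝ) / 3)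

/-- the form of the face-centred cubic lattice, with minimum `2` and determinant `4` -/
def G0 : Mx 3 := !![2, 0, -1; 0, 2, -1; -1, -1, 2]

/-- the part of `2 ^ s ζ(Q, s)` outside the minimal vectors of `G0` -/
noncomputable def Rst (s : ℝ) (Q : Mx 3) : ℝ :=
  ∑' x : NZ 3, if 4 ≤ qf G0 x.1 then (qf Q x.1 / 2) ^ (-s) else 0

/-- the half of the part of `2 ^ s ζ(Q, s)` belonging to the minimal vectors of `G0` -/
noncomputable def Eh (s : ℝ) (l : Fin 6 → ℝ) : ℝ :=
  ∑ x : Fin 7, if x = 4 then 0 else (nm l x / 2) ^ (-s)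

end Pool.Agent.Lib.FCC
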