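import Pool.Agent.Lib.FCC.Base

/-!
# Module FCC.DetC: superadditivity of the cube root of the determinant

`formOf l` (FCC.Base) is the Gram matrix of `v₁, v₂, v₃`; its determinant is the polynomial `dt l`
(FCC.Defs), all coefficients of `dt` are `≥ 0`. `gg l = dt l ^ (1/3)`.

Proofs.
* `formOf_det`: `Matrix.det_fin_three` and `ring`.
* `dt_nonneg`, `dt_mono`: `dt` has nonnegative coefficients (positivity / monotonicity; for
  `dt_mono` write `dt (l + m) - dt l` as a polynomial with nonnegative coefficients, `positivity`,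
  or use `gcongr` after unfolding).
* `formOf_pd`: with real `x = (x₀,x₁,x₂)`, `x₃ = 0`:
  `qr (formOf l) x = l0 (x0-x1)² + l1 x2² + l2 (x0-x2)² + l3 x1² + l4 x0² + l5 (x1-x2)²`
  (`qr_eq`, `Fin.sum_univ_three`, `ring`), so it is `≥ 0`. If it is `0` at some `x ≠ 0` then all six
  products vanish; then `formOf l *ᵥ x = 0` (the three rows are
  `l0 (x0-x1) + l2 (x0-x2) + l4 x0`, `-l0 (x0-x1) + l5 (x1-x2) + l3 x1`,
  `-l2 (x0-x2) - l5 (x1-x2) + l1 x2`, and `l (y)² = 0` gives `l y = 0`), so the determinant is `0`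
  (`Matrix.exists_mulVec_eq_zero_iff`), contradiction.
* `gg_add`: if `dt l = 0` then `gg l = 0` and `dt m ≤ dt (l + m)`. Same if `dt m = 0`. Otherwise
  `A = formOf l`, `B = formOf m` and `M = A + B = formOf (l + m)` are `PD`, and `EpZ.amgm` (file
  EpZ/Sim.lean) gives `(det A / det M)^(1/3) ≤ tr(M⁻¹ A) / 3`, the same for `B`; the sum of the right
  hand sides is `tr(M⁻¹ M)/3 = 1`. Multiply by `(det M)^(1/3)`.
* `gg_smul`: `dt (c • l) = c ^ 3 * dt l`, `Real.mul_rpow`, `(c^3)^(1/3) = c`.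
-/

open Matrix
open scoped Matrix.Norms.Elementwise

namespace Pool.Agent.Lib.FCC

open Pool.Agent.Lib.EpZ

theorem formOf_det (l : Fin 6 → ℝ) : (formOf l).det = dt l := by
  unfold formOf dt
  rw [Matrix.det_fin_three]
  simp
  ring

theorem dt_nonneg {l : Fin 6 → ℝ} (h : ∀ i, 0 ≤ l i) : 0 ≤ dt l := by
  have h0 := h 0
  have h1 := h 1
  have h2 := h 2
  have h3 := h 3
  have h4 := h 4
  have h5 := h 5
  unfold dt
  positivity

theorem dt_mono {l m : Fin 6 → ℝ} (hl : ∀ i, 0 ≤ l i) (hm : ∀ i, 0 ≤ m i) :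
    dt l ≤ dt (l + m) := by
  have h0 := hl 0
  have h1 := hl 1
  have h2 := hl 2
  have h3 := hl 3
  have h4 := hl 4
  have h5 := hl 5
  have k : ∀ i, l i ≤ (l + m) i := fun i => by
    rw [Pi.add_apply]
    linarith [hm i]
  have k0 := k 0
  have k1 := k 1
  have k2 := k 2
  have k3 := k 3
  have k4 := k 4
  have k5 := k 5
  generalize l + m = n at k0 k1 k2 k3 k4 k5 ⊢
  have j0 := h0.trans k0
  have j1 := h1.trans k1
  have j2 := h2.trans k2
  have j3 := h3.trans k3
  have j4 := h4.trans k4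
  have j5 := h5.trans k5
  unfold dt
  gcongr

namespace DetCAux

theorem qr_form (l : Fin 6 → ℝ) (x : Fin 3 → ℝ) : qr (formOf l) x =
    l 0 * (x 0 - x 1) ^ 2 + l 1 * x 2 ^ 2 + l 2 * (x 0 - x 2) ^ 2 + l 3 * x 1 ^ 2 +
      l 4 * x 0 ^ 2 + l 5 * (x 1 - x 2) ^ 2 := by
  unfold qr formOf
  simp [Matrix.mulVec, dotProduct, Fin.sum_univ_three]
  ring

theorem sq_zero {a y : ℝ} (h : a * y ^ 2 = 0) : a * y = 0 := by
  rcases mul_eq_zero.1 h with h | h
  · rw [h, zero_mul]
  · rw [pow_eq_zero_iff (two_ne_zero)] at h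
    rw [h, mul_zero]

end DetCAux

open DetCAux

theorem formOf_pd {l : Fin 6 → ℝ} (h : ∀ i, 0 ≤ l i) (hd : 0 < dt l) : PD (formOf l) := by
  constructor
  · unfold Matrix.IsSymm formOf
    ext i j
    fin_cases i <;> fin_cases j <;> simp
  · intro x hx
    have h0 := h 0
    have h1 := h 1
    have h2 := h 2
    have h3 := h 3
    have h4 := h 4
    have h5 := h 5
    rw [qr_form]
    have a0 : 0 ≤ l 0 * (x 0 - x 1) ^ 2 := by positivity
    have a1 : 0 ≤ l 1 * x 2 ^ 2 := by positivity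
    have a2 : 0 ≤ l 2 * (x 0 - x 2) ^ 2 := by positivity
    have a3 : 0 ≤ l 3 * x 1 ^ 2 := by positivity
    have a4 : 0 ≤ l 4 * x 0 ^ 2 := by positivity
    have a5 : 0 ≤ l 5 * (x 1 - x 2) ^ 2 := by positivity
    by_contra hc
    have b0 : l 0 * (x 0 - x 1) = 0 := sq_zero (by linarith)
    have b1 : l 1 * x 2 = 0 := sq_zero (by linarith)
    have b2 : l 2 * (x 0 - x 2) = 0 := sq_zero (by linarith)
    have b3 : l 3 * x 1 = 0 := sq_zero (by linarith)
    have b4 : l 4 * x 0 = 0 := sq_zero (by linarith)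
    have b5 : l 5 * (x 1 - x 2) = 0 := sq_zero (by linarith)
    have hz : formOf l *ᵥ x = 0 := by
      ext i
      fin_cases i
      · simp [formOf, Matrix.mulVec, dotProduct, Fin.sum_univ_three]
        linear_combination b0 + b2 + b4
      · simp [formOf, Matrix.mulVec, dotProduct, Fin.sum_univ_three]
        linear_combination -b0 + b5 + b3
      · simp [formOf, Matrix.mulVec, dotProduct, Fin.sum_univ_three]
        linear_combination -b2 - b5 + b1
    have hdet := Matrix.exists_mulVec_eq_zero_iff.1 ⟨x, hx, hz⟩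
    rw [formOf_det] at hdet
    exact hd.ne' hdet

theorem gg_nonneg {l : Fin 6 → ℝ} (h : ∀ i, 0 ≤ l i) : 0 ≤ gg l := by
  unfold gg
  exact Real.rpow_nonneg (dt_nonneg h) _

theorem gg_cube {l : Fin 6 → ℝ} (h : ∀ i, 0 ≤ l i) : gg l ^ 3 = dt l := by
  unfold gg
  rw [← Real.rpow_natCast, ← Real.rpow_mul (dt_nonneg h)]
  norm_num

theorem gg_smul {l : Fin 6 → ℝ} (h : ∀ i, 0 ≤ l i) {c : ℝ} (hc : 0 ≤ c) :
    gg (c • l) = c * gg l := by
  have h1 : dt (c • l) = c ^ 3 * dt l := by
    unfold dt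
    simp only [Pi.smul_apply, smul_eq_mul]
    ring
  unfold gg
  rw [h1, Real.mul_rpow (by positivity) (dt_nonneg h), ← Real.rpow_natCast, ← Real.rpow_mul hc]
  norm_num

theorem gg_add {l m : Fin 6 → ℝ} (hl : ∀ i, 0 ≤ l i) (hm : ∀ i, 0 ≤ m i) :
    gg l + gg m ≤ gg (l + m) := by
  have hlm : ∀ i, 0 ≤ (l + m) i := fun i => by
    rw [Pi.add_apply]
    exact add_nonneg (hl i) (hm i)
  have hmono1 : dt l ≤ dt (l + m) := dt_mono hl hm
  have hmono2 : dt m ≤ dt (l + m) := by
    rw [add_comm]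
    exact dt_mono hm hl
  rcases (dt_nonneg hl).eq_or_lt with h1 | h1
  · have : gg l = 0 := by
      unfold gg
      rw [← h1, Real.zero_rpow (by norm_num)]
    rw [this, zero_add]
    unfold gg
    exact Real.rpow_le_rpow (dt_nonneg hm) hmono2 (by norm_num)
  rcases (dt_nonneg hm).eq_or_lt with h2 | h2
  · have : gg m = 0 := by
      unfold gg
      rw [← h2, Real.zero_rpow (by norm_num)]
    rw [this, add_zero]
    unfold gg
    exact Real.rpow_le_rpow (dt_nonneg hl) hmono1 (by norm_num)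
  have h3 : 0 < dt (l + m) := lt_of_lt_of_le h1 hmono1
  have hA := formOf_pd hl h1
  have hB := formOf_pd hm h2
  have hM := formOf_pd hlm h3
  have hsum : formOf l + formOf m = formOf (l + m) := by
    unfold formOf
    ext i j
    fin_cases i <;> fin_cases j <;> simp <;> ring
  have k1 := amgm (d := 3) (by norm_num) hM hA
  have k2 := amgm (d := 3) (by norm_num) hM hB
  rw [formOf_det, formOf_det] at k1 k2
  have hunit : IsUnit (formOf (l + m)).det := by
    rw [formOf_det]
    exact (ne_of_gt h3).isUnit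
  have h4 : ((formOf (l + m))⁻¹ * formOf l).trace + ((formOf (l + m))⁻¹ * formOf m).trace = 3 := by
    rw [← Matrix.trace_add, ← Matrix.mul_add, hsum, Matrix.nonsing_inv_mul _ hunit,
      Matrix.trace_one]
    simp
  rw [Real.div_rpow (dt_nonneg hl) h3.le] at k1
  rw [Real.div_rpow (dt_nonneg hm) h3.le] at k2
  have e3 : ((3 : ℕ) : ℝ) = 3 := by norm_num
  rw [e3] at k1 k2
  have h5 : 0 < gg (l + m) := by
    unfold gg
    exact Real.rpow_pos_of_pos h3 _
  have k3 : gg l / gg (l + m) ≤ ((formOf (l + m))⁻¹ * formOf l).trace / 3 := k1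
  have k4 : gg m / gg (l + m) ≤ ((formOf (l + m))⁻¹ * formOf m).trace / 3 := k2
  have k5 : (gg l + gg m) / gg (l + m) ≤ 1 := by
    rw [add_div]
    linarith
  rwa [div_le_one h5] at k5

end Pool.Agent.Lib.FCC
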