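import Pool.Agent.Lib.FCC.Top
import Pool.Agent.Lib.EpZ.IsoInv
import Pool.Agent.Lib.EpZ.Fin

/-!
# Module FCC.Main: from forms to lattices

`fcc` is `lat B₀` with `B₀ = 2^(-1/3) • !![1,1,-1; 1,-1,0; 0,0,1]` (the vectors
`(x0+x1-x2, x0-x1, x2)`, `x` integral, are exactly the integral vectors with even coordinate sum:
given `X` with even sum put `x2 = X2`, `x0 = (X0+X1+X2)/2`, `x1 = x0 - X1`). `det B₀ = 2^(-1) * (-2) = -1`.
`gram B₀ = 2^(-2/3) • G0`.

Let `B` be a matrix with `|det B| = 1`, `Q = 4^(1/3) • gram B`: PD, `det Q = 4` (`gram_det_of_abs` in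
EpZ/Fin or `det_gram_one` in EpZ/LatB; `Matrix.det_smul`, `(4^(1/3))^3 = 4`), and
`gram B₀ = 4^(-1/3) • G0`. `zeta (lat B) s = F s (gram B)` (`zeta_lat`), `F_smul`. So
`zeta (lat B) s = 4^(s/3) F s Q`, `zeta fcc s = 4^(s/3) F s G0`, and `main_form` gives
`zeta fcc s ≤ zeta (lat B) s`, with equality only if `Eqv Q G0`, i.e. `Eqv (gram B) (gram B₀)`
(`Eqv.smul` in EpZ/Fin), i.e. `Isometric (lat B) fcc` (`isometric_iff`).
(⇐) if `Λ` is isometric to `fcc` then `Λ` is a unit lattice (`Λ = lat B` with `B = O * B₀`, e.g. by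
`exists_orth` in EpZ/IsoInv; or: `Λ = φ.symm '' fcc`, and the matrix of `φ.symm` times `B₀`) and has
the same zeta (`Isometric.zeta_eq`), so it is a global minimum.
(⇒) a global minimum `Λ = lat B` has `zeta Λ s ≤ zeta fcc s`, so equality holds above.
-/

open Matrix
open scoped Matrix.Norms.Elementwise

namespace Pool.Agent.Lib.FCC

open Pool.Agent.Lib.EpZ

/-- The face-centred cubic lattice of determinant one: the vectors `2^(-1/3) x`, `x` an integral
vector with even coordinate sum. -/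
def fcc : Set (EuclideanSpace ℝ (Fin 3)) :=
  {v | ∃ x : Fin 3 → ℤ, Even (x 0 + x 1 + x 2) ∧ ∀ i, v i = (2 : ℝ) ^ (-(1 : ℝ) / 3) * (x i : ℝ)}

namespace MainAux

/-- the scaling factor -/
noncomputable def c : ℝ := (2 : ℝ) ^ (-(1 : ℝ) / 3)

/-- a basis of the face-centred cubic lattice -/
def M0 : Mx 3 := !![1, 1, -1; 1, -1, 0; 0, 0, 1]

/-- a basis of the face-centred cubic lattice of determinant one -/
noncomputable def B0 : Mx 3 := c • M0

lemma c_pos : 0 < c := Real.rpow_pos_of_pos (by norm_num) _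

lemma c_cube : c ^ 3 = 1 / 2 := by
  unfold c
  rw [← Real.rpow_natCast, ← Real.rpow_mul (by norm_num)]
  have : -(1 : ℝ) / 3 * ((3 : ℕ) : ℝ) = -1 := by push_cast; ring
  rw [this, Real.rpow_neg_one]
  norm_num

lemma det_M0 : M0.det = -2 := by
  unfold M0
  rw [Matrix.det_fin_three]
  simp only [Matrix.of_apply, Matrix.cons_val', Matrix.cons_val_zero, Matrix.cons_val_one, Matrix.cons_val,
    Matrix.cons_val_fin_one]
  norm_num

lemma det_B0 : |B0.det| = 1 := by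
  unfold B0
  rw [Matrix.det_smul, Fintype.card_fin, c_cube, det_M0]
  norm_num

lemma gram_M0 : EpZ.gram M0 = G0 := by
  unfold EpZ.gram M0 G0
  ext i j
  fin_cases i <;> fin_cases j <;>
    simp [Matrix.mul_apply, Fin.sum_univ_three] <;> norm_num

lemma gram_B0 : EpZ.gram B0 = (c ^ 2) • G0 := by
  unfold B0
  rw [← gram_M0]
  unfold EpZ.gram
  rw [Matrix.transpose_smul, Matrix.smul_mul, Matrix.mul_smul, smul_smul, pow_two]

lemma fcc_eq : fcc = lat B0 := by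
  ext v
  have key : ∀ (x : Fin 3 → ℤ) (i : Fin 3), ∑ j, B0 i j * (x j : ℝ) =
      c * (((![x 0 + x 1 - x 2, x 0 - x 1, x 2] : Fin 3 → ℤ) i : ℤ) : ℝ) := by
    intro x i
    unfold B0 M0
    fin_cases i
    · simp [Fin.sum_univ_three]
      ring
    · simp [Fin.sum_univ_three]
      ring
    · simp [Fin.sum_univ_three]
  constructor
  · rintro ⟨X, hX, hv⟩
    obtain ⟨k, hk⟩ := hX
    refine ⟨![k, k - X 1, X 2], fun i => ?_⟩
    rw [key, hv i]
    congr 2
    fin_cases i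
    · show X 0 = k + (k - X 1) - X 2
      omega
    · show X 1 = k - (k - X 1)
      omega
    · rfl
  · rintro ⟨x, hv⟩
    refine ⟨![x 0 + x 1 - x 2, x 0 - x 1, x 2], ⟨x 0, ?_⟩, fun i => ?_⟩
    · show x 0 + x 1 - x 2 + (x 0 - x 1) + x 2 = x 0 + x 0
      ring
    · rw [hv i, key]
      rfl

lemma compare {B : Mx 3} (hB : |B.det| = 1) {s : ℝ} (hs : 6 ≤ s) :
    zeta (lat B0) s ≤ zeta (lat B) s ∧ (zeta (lat B) s ≤ zeta (lat B0) s → Isometric (lat B) (lat B0)) := by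
  have hB' := det_ne_of_abs hB
  have hB0' := det_ne_of_abs det_B0
  have hc2 : 0 < (c ^ 2)⁻¹ := inv_pos.2 (pow_pos c_pos 2)
  have hcne : c ^ 2 ≠ 0 := (pow_pos c_pos 2).ne'
  have hPD := gram_pd hB'
  have hdet : ((c ^ 2)⁻¹ • gram B).det = 4 := by
    rw [Matrix.det_smul, Fintype.card_fin, gram_det_of_abs hB, mul_one, inv_pow, ← pow_mul,
      show 2 * 3 = 3 * 2 by norm_num, pow_mul, c_cube]
    norm_num
  obtain ⟨h1, h2⟩ := main_form (hPD.smul hc2) hdet hs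
  have hG : G0 = (c ^ 2)⁻¹ • gram B0 := by
    rw [gram_B0, smul_smul, inv_mul_cancel₀ hcne, one_smul]
  have hK : 0 < (c ^ 2)⁻¹ ^ (-s) := Real.rpow_pos_of_pos hc2 _
  have e1 : F s ((c ^ 2)⁻¹ • gram B) = (c ^ 2)⁻¹ ^ (-s) * F s (gram B) := F_smul hPD hc2 s
  have e2 : F s G0 = (c ^ 2)⁻¹ ^ (-s) * F s (gram B0) := by
    rw [hG]
    exact F_smul (gram_pd hB0') hc2 s
  rw [zeta_lat hB', zeta_lat hB0']
  have h3 : F s (gram B0) ≤ F s (gram B) := by
    rw [e1, e2] at h1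
    exact le_of_mul_le_mul_left h1 hK
  refine ⟨h3, fun h4 => ?_⟩
  have h5 : F s (gram B) = F s (gram B0) := le_antisymm h4 h3
  have h6 := h2 (by rw [e1, e2, h5])
  rw [isometric_iff hB' hB0']
  have h7 := h6.smul (c ^ 2)
  rw [smul_smul, mul_inv_cancel₀ hcne, one_smul, ← gram_B0] at h7
  exact h7

end MainAux

theorem main (s : ℝ) (hs : 6 ≤ s) (Λ : Set (EuclideanSpace ℝ (Fin 3))) :
    IsGlobalMinimum Λ s ↔ Isometric Λ fcc := by
  rw [MainAux.fcc_eq]
  constructor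
  · rintro ⟨⟨B, hB, rfl⟩, h⟩
    exact (MainAux.compare hB hs).2 (h _ ⟨MainAux.B0, MainAux.det_B0, rfl⟩)
  · intro h
    have hz := h.zeta_eq s
    obtain ⟨φ, hφ⟩ := h.symm
    obtain ⟨O, hO, -, hlat⟩ := exists_orth φ
    refine ⟨⟨O * MainAux.B0, ?_, ?_⟩, ?_⟩
    · rw [Matrix.det_mul, abs_mul, hO, MainAux.det_B0, one_mul]
    · rw [hlat, hφ]
    · rintro _ ⟨B, hB, rfl⟩
      rw [← hz]
      exact (MainAux.compare hB hs).1

end Pool.Agent.Lib.FCC
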