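import Pool.Agent.Lib.FCC.DetC

/-!
# Module FCC.AG: arithmetic-geometric mean with the case of equality

`Q = formOf l` PD with determinant `4 = det G0`. `tr(G0⁻¹ Q) = S1 4 l / 4`
(`G0⁻¹ = (1/4) !![3,1,2; 1,3,2; 2,2,4]`; check `G0⁻¹ * G0 = 1`). `simDiag_data` (EpZ/Sim) for
`Q := G0`, `H := formOf l - G0`: `μ` with `det (G0 + H) = det G0 ∏ (1 + μ_i)`,
`tr(G0⁻¹ H) = ∑ μ_i`, `1 + μ_i > 0`, and `μ ≠ 0` if `H ≠ 0`. So `∏ (1+μ_i) = 1` and
`∑ μ_i = S1 4 l/4 - 3`. As `1 + μ_i ≤ exp μ_i` with strict inequality for `μ_i ≠ 0`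
(`Real.add_one_lt_exp`): `1 = ∏ (1 + μ_i) ≤ exp (∑ μ_i)`, so `∑ μ_i ≥ 0`, and `∑ μ_i = 0` forces
`μ = 0`, so `H = 0`.
-/

open Matrix
open scoped Matrix.Norms.Elementwise

namespace Pool.Agent.Lib.FCC

open Pool.Agent.Lib.EpZ

namespace AGAux

/-- the Selling parameters of the form `G0` -/
def g : Fin 6 → ℝ
  | 0 => 0
  | 1 => 0
  | 2 => 1
  | 3 => 1
  | 4 => 1
  | 5 => 1

lemma g_nonneg (i : Fin 6) : 0 ≤ g i := by
  fin_cases i <;> simp [g]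

lemma g_dt : dt g = 4 := by
  simp only [dt, g]
  norm_num

lemma form_g : formOf g = G0 := by
  ext i j
  fin_cases i <;> fin_cases j <;> norm_num [formOf, G0, g]

lemma pd_G0 : PD G0 := by
  rw [← form_g]
  exact formOf_pd g_nonneg (by rw [g_dt]; norm_num)

lemma det_G0 : G0.det = 4 := by
  rw [← form_g, formOf_det, g_dt]

lemma inv_G0 : G0⁻¹ = !![3 / 4, 1 / 4, 1 / 2; 1 / 4, 3 / 4, 1 / 2; 1 / 2, 1 / 2, 1] := by
  apply Matrix.inv_eq_left_inv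
  rw [G0, Matrix.mul_fin_three, Matrix.one_fin_three]
  norm_num

lemma S1_eq (l : Fin 6 → ℝ) :
    S1 4 l = 4 * l 0 + 4 * l 1 + 3 * l 2 + 3 * l 3 + 3 * l 4 + 3 * l 5 := by
  unfold S1
  rw [Fin.sum_univ_seven, if_neg (by decide), if_neg (by decide), if_neg (by decide),
    if_neg (by decide), if_pos rfl, if_neg (by decide), if_neg (by decide)]
  simp only [nm]
  ring

lemma tr_eq (l : Fin 6 → ℝ) : (G0⁻¹ * (formOf l - G0)).trace = S1 4 l / 4 - 3 := by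
  rw [inv_G0, S1_eq, Matrix.trace_fin_three]
  simp only [Matrix.mul_apply, Fin.sum_univ_three, Matrix.sub_apply]
  simp [formOf, G0]
  ring

/-- the eigenvalues of the difference -/
lemma data {l : Fin 6 → ℝ} (hl : ∀ i, 0 ≤ l i) (hd : dt l = 4) :
    ∃ μ : Fin 3 → ℝ, (∀ i, 0 < 1 + μ i) ∧ ∏ i, (1 + μ i) = 1 ∧ ∑ i, μ i = S1 4 l / 4 - 3 ∧
      (formOf l - G0 ≠ 0 → μ ≠ 0) := by
  have hpd : PD (formOf l) := formOf_pd hl (by rw [hd]; norm_num)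
  have hs : (formOf l - G0).IsSymm := hpd.1.sub pd_G0.1
  obtain ⟨μ, h1, h2, _, h4, h5⟩ := simDiag_data pd_G0 hs
  have hq : G0 + (formOf l - G0) = formOf l := by abel
  refine ⟨μ, h4 (by rw [hq]; exact hpd), ?_, ?_, h5⟩
  · have h := h1 1
    rw [one_smul, hq, formOf_det, hd, det_G0] at h
    simp only [one_mul] at h
    linarith
  · rw [← h2, tr_eq]

/-- the product of the `1 + μ i` is at most the exponential of the sum, strictly for `μ ≠ 0` -/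
lemma sum_nonneg {μ : Fin 3 → ℝ} (hp : ∀ i, 0 < 1 + μ i) (h1 : ∏ i, (1 + μ i) = 1) :
    0 ≤ ∑ i, μ i := by
  have h : ∏ i, (1 + μ i) ≤ ∏ i, Real.exp (μ i) :=
    Finset.prod_le_prod (fun i _ => (hp i).le) fun i _ => by
      have := Real.add_one_le_exp (μ i)
      linarith
  rw [h1, ← Real.exp_sum] at h
  exact Real.one_le_exp_iff.1 h

lemma sum_pos {μ : Fin 3 → ℝ} (hp : ∀ i, 0 < 1 + μ i) (h1 : ∏ i, (1 + μ i) = 1) (h0 : μ ≠ 0) :
    0 < ∑ i, μ i := by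
  obtain ⟨k, hk⟩ : ∃ k, μ k ≠ 0 := by
    by_contra hc
    push Not at hc
    exact h0 (funext hc)
  have h : ∏ i, (1 + μ i) < ∏ i, Real.exp (μ i) :=
    Finset.prod_lt_prod (fun i _ => hp i) (fun i _ => by
      have := Real.add_one_le_exp (μ i)
      linarith) ⟨k, Finset.mem_univ k, by
      have := Real.add_one_lt_exp hk
      linarith⟩
  rw [h1, ← Real.exp_sum] at h
  exact Real.one_lt_exp_iff.1 h

end AGAux

open AGAux

theorem S1_ge {l : Fin 6 → ℝ} (hl : ∀ i, 0 ≤ l i) (hd : dt l = 4) : 12 ≤ S1 4 l := by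
  obtain ⟨μ, hp, h1, hs, _⟩ := data hl hd
  have := AGAux.sum_nonneg hp h1
  rw [hs] at this
  linarith

theorem eq_G0 {l : Fin 6 → ℝ} (hl : ∀ i, 0 ≤ l i) (hd : dt l = 4) (h : S1 4 l = 12) :
    formOf l = G0 := by
  obtain ⟨μ, hp, h1, hs, h0⟩ := data hl hd
  by_contra hc
  have := AGAux.sum_pos hp h1 (h0 (sub_ne_zero.2 hc))
  rw [hs, h] at this
  norm_num at this

end Pool.Agent.Lib.FCC
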