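import Pool.Agent.Lib.FCC.Base

/-!
# Module FCC.PM: from the exponent `6` to all exponents `s ≥ 6`

`GoodAt 4 l` says `6 + (7/100) min 1 (6 τ) ≤ ∑_{x≠4} (n_x/2)^(-6)` with `τ = S1 4 l / 12 - 1 ≥ 0`
(note `64 S6 4 l = ∑_{x ≠ 4} (n_x/2)^(-6)`). Power mean (`p = s/6 ≥ 1`, weights `1/6`,
`Real.rpow_arith_mean_le_arith_mean_rpow`, `((n/2)^(-6))^(s/6) = (n/2)^(-s)`):
`Eh s l / 6 ≥ ((1/6) ∑ (n_x/2)^(-6))^(s/6) ≥ (1 + (7/600) m)^(s/6) ≥ 1 + (7/600) m s/6`
(`one_add_mul_self_le_rpow_one_add`), `m = min 1 (6 τ) ≥ 0`. So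
`Eh s l ≥ 6 + (7/100) (s/6) m = 6 + (7/100) min (s/6) (s τ) ≥ 6 + (7/100) min 1 (s τ)`.
-/

namespace Pool.Agent.Lib.FCC

theorem Eh_lower {l : Fin 6 → ℝ} (hn : ∀ x, x ≠ 4 → 0 < nm l x) (hτ : 12 ≤ S1 4 l)
    (hg : GoodAt 4 l) {s : ℝ} (hs : 6 ≤ s) :
    6 + 7 / 100 * min 1 (s * (S1 4 l / 12 - 1)) ≤ Eh s l := by
  set τ : ℝ := S1 4 l / 12 - 1 with hτd
  have hτ0 : 0 ≤ τ := by rw [hτd]; linarith
  set m : ℝ := min 1 (6 * τ) with hm
  have hm0 : 0 ≤ m := le_min zero_le_one (by positivity)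
  have hp1 : 1 ≤ s / 6 := by linarith
  unfold GoodAt at hg
  rw [← hτd, ← hm] at hg
  -- the power mean inequality
  have hpm := Real.rpow_arith_mean_le_arith_mean_rpow (Finset.univ : Finset (Fin 7))
    (fun x => if x = 4 then 0 else 1 / 6)
    (fun x => if x = 4 then 0 else (nm l x / 2) ^ (-6 : ℝ))
    (by intro x _; split_ifs <;> norm_num)
    (by
      rw [Fin.sum_univ_seven]
      simp only [Fin.isValue]
      norm_num [Fin.ext_iff])
    (by
      intro x _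
      split_ifs with h
      · exact le_rfl
      · have := hn x h
        positivity) hp1
  have h1 : ∑ x : Fin 7, (if x = 4 then (0 : ℝ) else 1 / 6) *
      (if x = 4 then 0 else (nm l x / 2) ^ (-6 : ℝ)) = 64 * S6 4 l / 6 := by
    unfold S6
    rw [Finset.mul_sum, Finset.sum_div]
    refine Finset.sum_congr rfl fun x _ => ?_
    by_cases h : x = 4
    · simp [h]
    · rw [if_neg h, if_neg h, if_neg h]
      have h2 := hn x h
      have h3 : (nm l x / 2) ^ (-6 : ℝ) = 64 * ((nm l x) ^ 6)⁻¹ := by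
        rw [Real.rpow_neg (by positivity), show (6 : ℝ) = ((6 : ℕ) : ℝ) by norm_num,
          Real.rpow_natCast, div_pow]
        field_simp
        norm_num
      rw [h3]
      ring
  have h2 : ∑ x : Fin 7, (if x = 4 then (0 : ℝ) else 1 / 6) *
      (if x = 4 then 0 else (nm l x / 2) ^ (-6 : ℝ)) ^ (s / 6) = Eh s l / 6 := by
    unfold Eh
    rw [Finset.sum_div]
    refine Finset.sum_congr rfl fun x _ => ?_
    by_cases h : x = 4
    · simp [h]
    · rw [if_neg h, if_neg h, if_neg h]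
      have h3 := hn x h
      rw [← Real.rpow_mul (by positivity)]
      have h4 : (-6 : ℝ) * (s / 6) = -s := by ring
      rw [h4]
      ring
  rw [h1, h2] at hpm
  have h3 : (1 : ℝ) + 7 / 600 * m ≤ 64 * S6 4 l / 6 := by linarith
  have h4 : 1 + s / 6 * (7 / 600 * m) ≤ (1 + 7 / 600 * m) ^ (s / 6) :=
    one_add_mul_self_le_rpow_one_add (by linarith) hp1
  have h5 : (1 + 7 / 600 * m) ^ (s / 6) ≤ (64 * S6 4 l / 6) ^ (s / 6) :=
    Real.rpow_le_rpow (by positivity) h3 (by linarith)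
  have h6 : 1 + s / 6 * (7 / 600 * m) ≤ Eh s l / 6 := h4.trans (h5.trans hpm)
  have h7 : min 1 (s * τ) ≤ s / 6 * m := by
    rcases le_total 1 (6 * τ) with h | h
    · rw [hm, min_eq_left h]
      exact (min_le_left _ _).trans (by linarith)
    · rw [hm, min_eq_right h]
      exact (min_le_right _ _).trans (le_of_eq (by ring))
  linarith

end Pool.Agent.Lib.FCC
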