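import Pool.Agent.Lib.FCC.Base

/-!
# Module FCC.RestJ: the Jensen inequality for the vectors outside the minimal ones

`Q = formOf l` PD, `T = S1 4 l / 12`. Claim: `T^(-s) Rst s G0 ≤ Rst s Q` for `s > 3/2`.

Coordinates: `y ↦ X = M y`, `M` with columns `(1,1,0), (1,-1,0), (-1,0,1)`; `qf G0 y = |M y|²`. The
group of the 12 matrices `g` = (sign changes `diag(±1,±1,±1)` with product `1`) times (cyclic
permutations) acts on `X`; in the `y` coordinates it is given by twelve integral unimodular matrices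
`U_g = M⁻¹ g M` with `act U_g G0 = G0`.
It is generated by the three integral matrices (`y` coordinates)
  `A = M⁻¹ diag(1,-1,-1) M`, `B = M⁻¹ diag(-1,1,-1) M`, `C = M⁻¹ (cyclic) M`; please compute them
(`M⁻¹ = !![1/2,1/2,1/2; 1/2,-1/2,1/2; 0,0,1]`): e.g.
`A: e1 = (1,1,0) ↦ (1,-1,0) = e2, e2 ↦ e1, e3 = (-1,0,1) ↦ (-1,0,-1) = v4 = -(e1+e2+e3)`.
`B: e1 ↦ (-1,1,0) = -e2, e2 = (1,-1,0) ↦ (-1,-1,0) = -e1, e3 ↦ (1,0,-1) = -e3`.
`C (x,y,z) ↦ (z,x,y): e1 = (1,1,0) ↦ (0,1,1) = e1+e3, e2 = (1,-1,0) ↦ (0,1,-1) = -(e2+e3) ,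
e3 = (-1,0,1) ↦ (1,-1,0) = e2`.
(1) For every `y`: `∑_g qf Q (U_g y) = 12 T qf G0 y` (both sides are quadratic forms in `y`; check as
an identity of matrices `∑_g act U_g Q = 12 T • G0`, entries linear in `l`). Alternative in two steps:
first `Q' = (Q + act A Q + act B Q + act (A*B) Q)/4` (in `X`: the diagonal part), then
`(Q' + act C Q' + act (C*C) Q')/3 = T G0`.
(2) `t^(-s) ≥ a^(-s) (1 - s (t/a - 1))` for `t, a > 0`, `s ≥ 0` (`u^(-s) = exp(-s log u) ≥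
1 - s log u ≥ 1 - s (u-1)`). For positive `t_1..t_N` with mean `a`: `∑ t_i^(-s) ≥ N a^(-s)`.
(3) `NZ 3` is permuted by `U_g` (`InvAux.perm` in EpZ/Inv), `qf G0` is invariant, and
`qf (act U Q) x = qf Q (U *ᵥ x)` (`qf_act`), so
`Rst s Q = ∑' x, if 4 ≤ qf G0 x then (qf Q (U_g x)/2)^(-s) else 0` for each `g`; sum over the twelve
`g` (all series are summable: `PD.summable` with `(q/2)^(-s) = 2^s q^(-s)`), use (2) termwise
and (1): `12 Rst s Q ≥ ∑' x, 12 (T qf G0 x / 2)^(-s) [4 ≤ ..] = 12 T^(-s) Rst s G0`.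
`T > 0` as `qf Q e_i > 0`. `G0` is PD (also needed for summability).
The two-step version applies the inequality `Rst s ((Q₁+...+Q_N)/N) ≤ Rst s Q` for forms `Q_i`
equivalent to `Q` under matrices preserving `G0`.
-/

open Matrix
open scoped Matrix.Norms.Elementwise

namespace Pool.Agent.Lib.FCC

open Pool.Agent.Lib.EpZ

namespace RestJAux

theorem qr_three (Q : Mx 3) (v : Fin 3 → ℝ) : qr Q v =
    v 0 * Q 0 0 * v 0 + v 0 * Q 0 1 * v 1 + v 0 * Q 0 2 * v 2 +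
    (v 1 * Q 1 0 * v 0 + v 1 * Q 1 1 * v 1 + v 1 * Q 1 2 * v 2) +
    (v 2 * Q 2 0 * v 0 + v 2 * Q 2 1 * v 1 + v 2 * Q 2 2 * v 2) := by
  rw [qr_eq, Fin.sum_univ_three, Fin.sum_univ_three, Fin.sum_univ_three, Fin.sum_univ_three]

theorem qr_G0 (v : Fin 3 → ℝ) : qr G0 v =
    2 * v 0 ^ 2 + 2 * v 1 ^ 2 + 2 * v 2 ^ 2 - 2 * v 0 * v 2 - 2 * v 1 * v 2 := by
  rw [qr_three]
  have h00 : G0 0 0 = 2 := rfl
  have h01 : G0 0 1 = 0 := rfl
  have h02 : G0 0 2 = -1 := rfl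
  have h10 : G0 1 0 = 0 := rfl
  have h11 : G0 1 1 = 2 := rfl
  have h12 : G0 1 2 = -1 := rfl
  have h20 : G0 2 0 = -1 := rfl
  have h21 : G0 2 1 = -1 := rfl
  have h22 : G0 2 2 = 2 := rfl
  rw [h00, h01, h02, h10, h11, h12, h20, h21, h22]
  ring

theorem qr_formOf (l : Fin 6 → ℝ) (v : Fin 3 → ℝ) : qr (formOf l) v =
    (l 0 + l 2 + l 4) * v 0 ^ 2 + (l 0 + l 5 + l 3) * v 1 ^ 2 + (l 2 + l 5 + l 1) * v 2 ^ 2
      - 2 * l 0 * v 0 * v 1 - 2 * l 2 * v 0 * v 2 - 2 * l 5 * v 1 * v 2 := by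
  rw [qr_three]
  have h00 : formOf l 0 0 = l 0 + l 2 + l 4 := rfl
  have h01 : formOf l 0 1 = -l 0 := rfl
  have h02 : formOf l 0 2 = -l 2 := rfl
  have h10 : formOf l 1 0 = -l 0 := rfl
  have h11 : formOf l 1 1 = l 0 + l 5 + l 3 := rfl
  have h12 : formOf l 1 2 = -l 5 := rfl
  have h20 : formOf l 2 0 = -l 2 := rfl
  have h21 : formOf l 2 1 = -l 5 := rfl
  have h22 : formOf l 2 2 = l 2 + l 5 + l 1 := rfl
  rw [h00, h01, h02, h10, h11, h12, h20, h21, h22]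
  ring

/-- the integral matrix with the given entries -/
def im (a b c d e f g h i : ℤ) : Matrix (Fin 3) (Fin 3) ℤ := !![a, b, c; d, e, f; g, h, i]

theorem rv_im (a b c d e f g h i : ℤ) (x : Fin 3 → ℤ) (k : Fin 3) :
    rv (im a b c d e f g h i *ᵥ x) k =
      if k = 0 then a * rv x 0 + b * rv x 1 + c * rv x 2 else
      if k = 1 then d * rv x 0 + e * rv x 1 + f * rv x 2 else
      g * rv x 0 + h * rv x 1 + i * rv x 2 := by
  fin_cases k <;> simp [rv, im, Matrix.mulVec, dotProduct, Fin.sum_univ_three]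

theorem det_im (a b c d e f g h i : ℤ) : (im a b c d e f g h i).det =
    a * e * i - a * f * h - b * d * i + b * f * g + c * d * h - c * e * g := by
  unfold im
  rw [Matrix.det_fin_three]
  simp

theorem S1_four (l : Fin 6 → ℝ) :
    S1 4 l = 4 * l 0 + 4 * l 1 + 3 * l 2 + 3 * l 3 + 3 * l 4 + 3 * l 5 := by
  have h0 : (0 : Fin 7) ≠ 4 := by decide
  have h1 : (1 : Fin 7) ≠ 4 := by decide
  have h2 : (2 : Fin 7) ≠ 4 := by decide
  have h3 : (3 : Fin 7) ≠ 4 := by decide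
  have h5 : (5 : Fin 7) ≠ 4 := by decide
  have h6 : (6 : Fin 7) ≠ 4 := by decide
  unfold S1
  rw [Fin.sum_univ_seven, if_neg h0, if_neg h1, if_neg h2, if_neg h3, if_pos rfl, if_neg h5, if_neg h6]
  simp only [nm]
  ring

/-- Bernoulli -/
theorem bern {s t a : ℝ} (hs : 0 ≤ s) (ht : 0 < t) (ha : 0 < a) :
    a ^ (-s) * (1 - s * (t / a - 1)) ≤ t ^ (-s) := by
  have hta : 0 < t / a := div_pos ht ha
  have h1 : t ^ (-s) = a ^ (-s) * (t / a) ^ (-s) := by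
    rw [← Real.mul_rpow ha.le hta.le, mul_div_cancel₀ _ ha.ne']
  rw [h1]
  refine mul_le_mul_of_nonneg_left ?_ (Real.rpow_nonneg ha.le _)
  rw [Real.rpow_def_of_pos hta]
  have h2 := Real.add_one_le_exp (Real.log (t / a) * -s)
  have h3 := Real.log_le_sub_one_of_pos hta
  have h4 : s * Real.log (t / a) ≤ s * (t / a - 1) := mul_le_mul_of_nonneg_left h3 hs
  linarith

theorem jens {N : ℕ} {s a : ℝ} (hs : 0 ≤ s) (ha : 0 < a) (t : Fin N → ℝ) (ht : ∀ i, 0 < t i)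
    (hm : ∑ i, t i = N * a) : N * a ^ (-s) ≤ ∑ i, t i ^ (-s) := by
  have h1 : ∑ i, a ^ (-s) * (1 - s * (t i / a - 1)) ≤ ∑ i, t i ^ (-s) :=
    Finset.sum_le_sum fun i _ => bern hs (ht i) ha
  refine le_trans (le_of_eq ?_) h1
  rw [← Finset.mul_sum, Finset.sum_sub_distrib, ← Finset.mul_sum, Finset.sum_sub_distrib,
    ← Finset.sum_div, hm, mul_div_cancel_right₀ _ ha.ne']
  simp only [Finset.sum_const, Finset.card_univ, Fintype.card_fin, nsmul_eq_mul]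
  ring

theorem summable_rest {Q : Mx 3} (hQ : PD Q) {s : ℝ} (hs : 3 / 2 < s) {p : NZ 3 → Prop} [DecidablePred p] :
    Summable fun x : NZ 3 => if p x then (qf Q x.1 / 2) ^ (-s) else 0 := by
  have h1 := (hQ.summable (s := s) (by norm_num; exact hs)).mul_left ((2 : ℝ) ^ s)
  refine Summable.of_nonneg_of_le (fun x => ?_) (fun x => ?_) h1
  · split_ifs
    · exact Real.rpow_nonneg (by have := hQ.pos x; positivity) _
    · exact le_rfl
  · have h2 : (qf Q x.1 / 2) ^ (-s) = 2 ^ s * qf Q x.1 ^ (-s) := by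
      rw [Real.div_rpow (hQ.pos x).le (by norm_num), Real.rpow_neg (by norm_num : (0 : ℝ) ≤ 2), div_inv_eq_mul,
        mul_comm]
    rw [← h2]
    split_ifs
    · exact le_rfl
    · exact Real.rpow_nonneg (by have := hQ.pos x; positivity) _

/-- invariance of the rest -/
theorem rst_perm (Q : Mx 3) (s : ℝ) {U : Matrix (Fin 3) (Fin 3) ℤ} (hU : IsUnit U.det)
    (hG : ∀ x : Fin 3 → ℤ, qf G0 (U *ᵥ x) = qf G0 x) :
    Rst s Q = ∑' x : NZ 3, if 4 ≤ qf G0 x.1 then (qf Q (U *ᵥ x.1) / 2) ^ (-s) else 0 := by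
  unfold Rst
  rw [← (InvAux.perm hU).tsum_eq fun x : NZ 3 => if 4 ≤ qf G0 x.1 then (qf Q x.1 / 2) ^ (-s) else 0]
  refine tsum_congr fun x => ?_
  have h1 : ((InvAux.perm hU) x).1 = U *ᵥ x.1 := rfl
  rw [h1, hG]

/-- the twelve matrices -/
def U12 : Fin 12 → Matrix (Fin 3) (Fin 3) ℤ
  | 0 => im 1 0 0 0 1 0 0 0 1
  | 1 => im 0 1 (-1) 1 0 (-1) 0 0 (-1)
  | 2 => im 0 (-1) 0 (-1) 0 0 0 0 (-1)
  | 3 => im (-1) 0 1 0 (-1) 1 0 0 1
  | 4 => im 1 0 0 0 (-1) 1 1 (-1) 0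
  | 5 => im (-1) 0 1 0 1 0 (-1) 1 0
  | 6 => im 0 1 (-1) (-1) 0 0 (-1) 1 0
  | 7 => im 0 (-1) 0 1 0 (-1) 1 (-1) 0
  | 8 => im 1 0 0 1 0 (-1) 1 1 (-1)
  | 9 => im 0 (-1) 0 0 (-1) 1 (-1) (-1) 1
  | 10 => im (-1) 0 1 (-1) 0 0 (-1) (-1) 1
  | 11 => im 0 1 (-1) 0 1 0 1 1 (-1)

theorem det_U12 (i : Fin 12) : IsUnit (U12 i).det := by
  fin_cases i <;> simp only [U12, det_im] <;> norm_num

theorem inv_U12 (i : Fin 12) (x : Fin 3 → ℤ) : qf G0 (U12 i *ᵥ x) = qf G0 x := by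
  unfold qf
  rw [qr_G0, qr_G0]
  fin_cases i <;> simp only [U12, rv_im] <;> simp only [if_true, if_false, Fin.isValue, one_ne_zero,
    Fin.reduceEq, Int.cast_one, Int.cast_zero, Int.cast_neg] <;> ring

theorem sum_U12 (l : Fin 6 → ℝ) (x : Fin 3 → ℤ) :
    ∑ i, qf (formOf l) (U12 i *ᵥ x) = S1 4 l * qf G0 x := by
  unfold qf
  simp only [qr_G0, qr_formOf, S1_four]
  rw [Fin.sum_univ_castSucc, Fin.sum_univ_castSucc, Fin.sum_univ_castSucc, Fin.sum_univ_castSucc, Fin.sum_univ_eight]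
  simp only [Fin.isValue, Fin.castSucc_zero, Fin.castSucc_one, Fin.reduceCastSucc, Fin.reduceLast, U12, rv_im,
    if_true, if_false, one_ne_zero, Fin.reduceEq, Int.cast_one, Int.cast_zero, Int.cast_neg]
  ring

end RestJAux

open RestJAux

theorem G0_pd : PD G0 := by
  refine ⟨?_, fun v hv => ?_⟩
  · ext i j
    fin_cases i <;> fin_cases j <;> rfl
  · rw [qr_G0]
    by_contra hcon
    push Not at hcon
    have h1 : (v 0 - v 2) ^ 2 + (v 1 - v 2) ^ 2 + v 0 ^ 2 + v 1 ^ 2 ≤ 0 := by nlinarith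
    have h0 : v 0 = 0 := by nlinarith [sq_nonneg (v 0 - v 2), sq_nonneg (v 1 - v 2), sq_nonneg (v 0), sq_nonneg (v 1)]
    have h2 : v 1 = 0 := by nlinarith [sq_nonneg (v 0 - v 2), sq_nonneg (v 1 - v 2), sq_nonneg (v 0), sq_nonneg (v 1)]
    have h3 : v 2 = 0 := by
      rw [h0, h2] at h1
      nlinarith [sq_nonneg (v 2)]
    apply hv
    funext i
    fin_cases i
    · exact h0
    · exact h2
    · exact h3

theorem rest_jensen {l : Fin 6 → ℝ} (h : PD (formOf l)) {s : ℝ} (hs : 3 / 2 < s) :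
    0 < S1 4 l ∧ (S1 4 l / 12) ^ (-s) * Rst s G0 ≤ Rst s (formOf l) := by
  have hpos : ∀ (i : Fin 12) (x : NZ 3), 0 < qf (formOf l) (U12 i *ᵥ x.1) := fun i x =>
    h.pos (InvAux.perm (det_U12 i) x)
  have hS : 0 < S1 4 l := by
    let x : NZ 3 := ⟨Pi.single 0 1, by
      intro h0
      have := congrFun h0 0
      simp at this⟩
    have h1 : 0 < ∑ i, qf (formOf l) (U12 i *ᵥ x.1) := Finset.sum_pos (fun i _ => hpos i x) Finset.univ_nonempty
    rw [sum_U12] at h1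
    exact (pos_iff_pos_of_mul_pos h1).2 (G0_pd.pos x)
  refine ⟨hS, ?_⟩
  set T : ℝ := S1 4 l / 12 with hT
  have hT0 : 0 < T := by positivity
  have hsum : ∀ i : Fin 12, Summable fun x : NZ 3 =>
      if 4 ≤ qf G0 x.1 then (qf (formOf l) (U12 i *ᵥ x.1) / 2) ^ (-s) else 0 := by
    intro i
    have h1 := (InvAux.perm (det_U12 i)).summable_iff.2 (summable_rest h hs (p := fun x => 4 ≤ qf G0 x.1))
    refine h1.congr fun x => ?_
    have h2 : ((InvAux.perm (det_U12 i)) x).1 = U12 i *ᵥ x.1 := rfl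
    simp only [Function.comp_def]
    rw [h2, inv_U12]
  have h12 : (12 : ℝ) * Rst s (formOf l) = ∑' x : NZ 3, ∑ i : Fin 12,
      if 4 ≤ qf G0 x.1 then (qf (formOf l) (U12 i *ᵥ x.1) / 2) ^ (-s) else 0 := by
    rw [Summable.tsum_finsetSum fun i _ => hsum i]
    have h1 : ∀ i ∈ (Finset.univ : Finset (Fin 12)), ∑' x : NZ 3,
        (if 4 ≤ qf G0 x.1 then (qf (formOf l) (U12 i *ᵥ x.1) / 2) ^ (-s) else 0) = Rst s (formOf l) :=
      fun i _ => (rst_perm (formOf l) s (det_U12 i) (inv_U12 i)).symm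
    rw [Finset.sum_congr rfl h1]
    simp
  have hG : T ^ (-s) * Rst s G0 = ∑' x : NZ 3, T ^ (-s) * (if 4 ≤ qf G0 x.1 then (qf G0 x.1 / 2) ^ (-s) else 0) := by
    rw [tsum_mul_left]
    rfl
  have hle : 12 * (T ^ (-s) * Rst s G0) ≤ 12 * Rst s (formOf l) := by
    rw [h12, hG, ← tsum_mul_left]
    refine Summable.tsum_le_tsum (fun x => ?_)
      (((summable_rest G0_pd hs (p := fun x => 4 ≤ qf G0 x.1)).mul_left _).mul_left _)
      (summable_sum fun i _ => hsum i)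
    by_cases hx : 4 ≤ qf G0 x.1
    · simp only [if_pos hx]
      have hq := G0_pd.pos x
      have h1 := jens (N := 12) (s := s) (a := T * (qf G0 x.1 / 2)) (by linarith) (by positivity)
        (fun i => qf (formOf l) (U12 i *ᵥ x.1) / 2) (fun i => by have := hpos i x; positivity)
        (by
          rw [← Finset.sum_div, sum_U12, hT]
          push_cast
          ring)
      rw [Real.mul_rpow hT0.le (by positivity)] at h1
      exact_mod_cast h1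
    · simp only [if_neg hx]
      simp
  linarith

end Pool.Agent.Lib.FCC
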