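import Pool.Agent.Lib.FCC.Base

/-!
# Module FCC.Rho: numerical bound of the outer part of the fcc sum

`Rst s G0 = ∑_{X ∈ D3, |X|² ≥ 4} (|X|²/2)^(-s)`, where `qf G0 y = |M y|²`,
`M y = (y0 + y1 - y2, y0 - y1, y2)`. Claim: `0 ≤ Rst s G0 < 14/100` for real `s ≥ 6`.

Proof. As `|X|²/2 ≥ 2 ≥ 1`, the terms decrease in `s`: it is enough to treat `s = 6`, where the term is
`64 / (|X|²)^6` (`Real.rpow_neg`, `Real.rpow_natCast`). For a finite set of `y` the partial sum is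
bounded by (a) + (b):
(a) the points with `|X_i| ≤ 6` for all `i`: there the sum over all `X ∈ [-6,6]³` with even sum and
`|X|² ≥ 4` is `0.13188...`; check by kernel computation with integers: for every such `X`,
`64/n^6 ≤ (⌊64·10^12/n^6⌋ + 1)/10^12`, and the sum of the integers `⌊..⌋ + 1` is `< 0.132·10^12`
(a `Finset`/`List` sum of natural numbers, `decide +kernel`). Shells: `6/64 + 24/729 + 12/4096 +
24/15625 + 8/46656 + 48/7^6 + 6/8^6 + 36/9^6 + ...`.
(b) the points with some `|X_i| ≥ 7`: for `|X_1| ≥ 7`: `(|X|²)^6 ≥ X_1^8 (1 + X_2²)(1 + X_3²)` since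
`|X|² ≥ X_1²` and `|X|² ≥ 1 + X_2²`, `|X|² ≥ 1 + X_3²`. `∑_{|x| ≥ 7} x^(-8) ≤ 2/(7·6^7) < 1.03·10^(-6)`
(telescoping: `x^(-8) ≤ (1/7)((x-1)^(-7) - x^(-7))`), `∑_{k ∈ ℤ} 1/(1+k²) ≤ 1 + 2(1/2 + 1/5 + 1/10 +
1/4) ≤ 3.3` (for `k ≥ 4`: `1/(1+k²) ≤ 1/(k(k-1)) = 1/(k-1) - 1/k`, sum `1/3`: total `1 + 1 + 0.4 +
0.2 + 2/3 ≤ 3.27`). Three choices of the coordinate: total `≤ 3 · 64 · 1.03·10^(-6) · 10.9 ≤ 0.0022`.
Sum `≤ 0.1325 + 0.0022 < 0.14`.
Technically: `Summable.tsum_le_of_sum_le`-type lemma (bound of all finite partial sums), or compare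
with the product series (`Summable.mul_of_nonneg`, `tsum_mul_tsum...`) over `ℤ × ℤ × ℤ`; any other
rigorous way to get a bound `< 14/100` is fine.
-/

open Matrix
open scoped Matrix.Norms.Elementwise

namespace Pool.Agent.Lib.FCC

open Pool.Agent.Lib.EpZ

namespace RhoAux

open Finset

/-- the coordinates in the cubic lattice -/
def cX (x : Fin 3 → ℤ) : ℤ × ℤ × ℤ := (x 0 + x 1 - x 2, x 0 - x 1, x 2)

/-- the square of the length -/
def n2 (X : ℤ × ℤ × ℤ) : ℤ := X.1 ^ 2 + X.2.1 ^ 2 + X.2.2 ^ 2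

/-- the condition on the points of the sum -/
def cnd (X : ℤ × ℤ × ℤ) : Prop := (X.1 + X.2.1 + X.2.2) % 2 = 0 ∧ 4 ≤ n2 X

instance (X : ℤ × ℤ × ℤ) : Decidable (cnd X) := by unfold cnd; infer_instance

/-- the term of the sum -/
noncomputable def g (X : ℤ × ℤ × ℤ) : ℝ := if cnd X then 64 / ((n2 X : ℤ) : ℝ) ^ 6 else 0

/-- the decaying factor -/
noncomputable def aa (x : ℤ) : ℝ := if 7 ≤ |x| then 1 / (x : ℝ) ^ 8 else 0

/-- the second factor -/
noncomputable def bb (x : ℤ) : ℝ := 1 / (1 + (x : ℝ) ^ 2)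

/-- the bound of the outer terms -/
noncomputable def go (X : ℤ × ℤ × ℤ) : ℝ :=
  64 * (aa X.1 * (bb X.2.1 * bb X.2.2)) + 64 * (bb X.1 * (aa X.2.1 * bb X.2.2))
    + 64 * (bb X.1 * (bb X.2.1 * aa X.2.2))

/-- a box -/
noncomputable def Bx (N : ℕ) : Finset (ℤ × ℤ × ℤ) :=
  Icc (-(N : ℤ)) N ×ˢ (Icc (-(N : ℤ)) N ×ˢ Icc (-(N : ℤ)) N)

theorem mem_Bx (N : ℕ) (X : ℤ × ℤ × ℤ) : X ∈ Bx N ↔ (-(N : ℤ) ≤ X.1 ∧ X.1 ≤ N) ∧
    (-(N : ℤ) ≤ X.2.1 ∧ X.2.1 ≤ N) ∧ (-(N : ℤ) ≤ X.2.2 ∧ X.2.2 ≤ N) := by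
  unfold Bx
  rw [Finset.mem_product, Finset.mem_product, Finset.mem_Icc, Finset.mem_Icc, Finset.mem_Icc]

theorem qf_G0 (x : Fin 3 → ℤ) : qf G0 x = ((n2 (cX x) : ℤ) : ℝ) := by
  unfold qf qr rv G0 n2 cX
  simp only [Matrix.mulVec, dotProduct, Fin.sum_univ_three, Matrix.of_apply, Matrix.cons_val',
    Matrix.cons_val_zero, Matrix.cons_val_one, Matrix.cons_val]
  push_cast
  ring

theorem cX_inj : Function.Injective cX := by
  intro x y h
  unfold cX at h
  simp only [Prod.mk.injEq] at h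
  obtain ⟨h1, h2, h3⟩ := h
  funext i
  fin_cases i
  · show x 0 = y 0
    omega
  · show x 1 = y 1
    omega
  · show x 2 = y 2
    omega

theorem g_nonneg (X : ℤ × ℤ × ℤ) : 0 ≤ g X := by
  unfold g
  split_ifs with h
  · have h2 : (0 : ℝ) ≤ ((n2 X : ℤ) : ℝ) := by
      exact_mod_cast (by linarith [h.2] : (0 : ℤ) ≤ n2 X)
    positivity
  · exact le_refl 0

theorem aa_nonneg (x : ℤ) : 0 ≤ aa x := by
  unfold aa
  split_ifs
  · have : (0 : ℝ) ≤ (x : ℝ) ^ 8 := Even.pow_nonneg (by decide) _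
    positivity
  · exact le_refl 0

theorem bb_nonneg (x : ℤ) : 0 ≤ bb x := by
  unfold bb
  positivity

theorem go_nonneg (X : ℤ × ℤ × ℤ) : 0 ≤ go X := by
  have h1 := aa_nonneg X.1
  have h2 := aa_nonneg X.2.1
  have h3 := aa_nonneg X.2.2
  have h4 := bb_nonneg X.1
  have h5 := bb_nonneg X.2.1
  have h6 := bb_nonneg X.2.2
  unfold go
  positivity

/-- the term is at most the term of `g` -/
theorem term_le {s : ℝ} (hs : 6 ≤ s) (x : Fin 3 → ℤ) :
    (if 4 ≤ qf G0 x then (qf G0 x / 2) ^ (-s) else 0) ≤ g (cX x) := by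
  split_ifs with h
  · rw [qf_G0] at h ⊢
    have h4 : 4 ≤ n2 (cX x) := by exact_mod_cast h
    have hc : cnd (cX x) := by
      refine ⟨?_, h4⟩
      unfold cX
      simp only
      omega
    unfold g
    rw [if_pos hc]
    set b : ℝ := ((n2 (cX x) : ℤ) : ℝ) with hb
    have h1 : (1 : ℝ) ≤ b / 2 := by linarith
    have h2 : (b / 2) ^ (-s) ≤ (b / 2) ^ (-(6 : ℝ)) :=
      Real.rpow_le_rpow_of_exponent_le h1 (by linarith)
    have h3 : (b / 2) ^ (-(6 : ℝ)) = 64 / b ^ 6 := by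
      rw [Real.rpow_neg (by linarith)]
      have : (b / 2) ^ (6 : ℝ) = (b / 2) ^ (6 : ℕ) := by
        rw [← Real.rpow_natCast]
        norm_num
      rw [this, div_pow, inv_div]
      norm_num
    rw [h3] at h2
    exact h2
  · exact g_nonneg _

theorem term_nonneg {s : ℝ} (x : Fin 3 → ℤ) :
    0 ≤ (if 4 ≤ qf G0 x then (qf G0 x / 2) ^ (-s) else 0) := by
  split_ifs with h
  · exact Real.rpow_nonneg (by linarith) _
  · exact le_refl 0

theorem pw1 (u v w : ℤ) (h : 7 ≤ |u|) :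
    64 / (((u ^ 2 + v ^ 2 + w ^ 2 : ℤ)) : ℝ) ^ 6 ≤ 64 * (aa u * (bb v * bb w)) := by
  unfold aa bb
  rw [if_pos h]
  have hu2 : (49 : ℝ) ≤ (u : ℝ) ^ 2 := by
    have : (49 : ℤ) ≤ u ^ 2 := by
      rw [← sq_abs]
      nlinarith
    exact_mod_cast this
  push_cast
  set A : ℝ := (u : ℝ) ^ 2 with hA
  set B : ℝ := (v : ℝ) ^ 2 with hB
  set C : ℝ := (w : ℝ) ^ 2 with hC
  have hB0 : 0 ≤ B := sq_nonneg _
  have hC0 : 0 ≤ C := sq_nonneg _
  have e8 : (u : ℝ) ^ 8 = A ^ 4 := by rw [hA]; ring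
  rw [e8]
  have h1 : A ^ 4 * ((1 + B) * (1 + C)) ≤ (A + B + C) ^ 6 := by
    have s1 : A ^ 4 ≤ (A + B + C) ^ 4 := pow_le_pow_left₀ (by linarith) (by linarith) 4
    have s2 : (1 + B) ≤ A + B + C := by linarith
    have s3 : (1 + C) ≤ A + B + C := by linarith
    calc A ^ 4 * ((1 + B) * (1 + C)) ≤ (A + B + C) ^ 4 * ((A + B + C) * (A + B + C)) := by
          apply mul_le_mul s1 (mul_le_mul s2 s3 (by linarith) (by linarith)) (by positivity)
          positivity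
      _ = (A + B + C) ^ 6 := by ring
  have h2 : 0 < A ^ 4 * ((1 + B) * (1 + C)) := by
    have : 0 < A := by linarith
    positivity
  have h3 : 64 * (1 / A ^ 4 * (1 / (1 + B) * (1 / (1 + C)))) = 64 / (A ^ 4 * ((1 + B) * (1 + C))) := by
    rw [one_div_mul_one_div, one_div_mul_one_div]
    ring
  rw [h3]
  exact div_le_div_of_nonneg_left (by norm_num) h2 h1

/-- every term is bounded -/
theorem g_le (X : ℤ × ℤ × ℤ) : g X ≤ (if X ∈ Bx 6 then g X else 0) + go X := by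
  have h0 := go_nonneg X
  split_ifs with hX
  · linarith
  · rw [zero_add]
    rw [mem_Bx] at hX
    unfold g
    split_ifs with hc
    · have ha1 := aa_nonneg X.1
      have ha2 := aa_nonneg X.2.1
      have ha3 := aa_nonneg X.2.2
      have hb1 := bb_nonneg X.1
      have hb2 := bb_nonneg X.2.1
      have hb3 := bb_nonneg X.2.2
      have hcase : 7 ≤ |X.1| ∨ 7 ≤ |X.2.1| ∨ 7 ≤ |X.2.2| := by
        by_contra hcon
        push Not at hcon
        obtain ⟨c1, c2, c3⟩ := hcon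
        rw [abs_lt] at c1 c2 c3
        apply hX
        push_cast
        omega
      have p1 : 0 ≤ 64 * (aa X.1 * (bb X.2.1 * bb X.2.2)) := by positivity
      have p2 : 0 ≤ 64 * (bb X.1 * (aa X.2.1 * bb X.2.2)) := by positivity
      have p3 : 0 ≤ 64 * (bb X.1 * (bb X.2.1 * aa X.2.2)) := by positivity
      unfold go n2
      rcases hcase with h | h | h
      · have := pw1 X.1 X.2.1 X.2.2 h
        linarith
      · have := pw1 X.2.1 X.1 X.2.2 h
        have e : X.2.1 ^ 2 + X.1 ^ 2 + X.2.2 ^ 2 = X.1 ^ 2 + X.2.1 ^ 2 + X.2.2 ^ 2 := by ring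
        rw [e] at this
        have e2 : 64 * (aa X.2.1 * (bb X.1 * bb X.2.2)) = 64 * (bb X.1 * (aa X.2.1 * bb X.2.2)) := by
          ring
        linarith
      · have := pw1 X.2.2 X.1 X.2.1 h
        have e : X.2.2 ^ 2 + X.1 ^ 2 + X.2.1 ^ 2 = X.1 ^ 2 + X.2.1 ^ 2 + X.2.2 ^ 2 := by ring
        rw [e] at this
        have e2 : 64 * (aa X.2.2 * (bb X.1 * bb X.2.1)) = 64 * (bb X.1 * (bb X.2.1 * aa X.2.2)) := by
          ring
        linarith
    · exact h0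

theorem sum_sym (f : ℤ → ℝ) (hf : ∀ x, f (-x) = f x) (N : ℕ) :
    ∑ x ∈ Icc (-(N : ℤ)) N, f x = f 0 + 2 * ∑ k ∈ range N, f ((k : ℤ) + 1) := by
  induction N with
  | zero =>
    simp
  | succ N ih =>
    have e : Icc (-((N + 1 : ℕ) : ℤ)) ((N + 1 : ℕ) : ℤ) =
        insert ((N : ℤ) + 1) (insert (-((N : ℤ) + 1)) (Icc (-(N : ℤ)) N)) := by
      ext x
      simp only [Finset.mem_Icc, Finset.mem_insert]
      push_cast
      omega
    rw [e, Finset.sum_insert, Finset.sum_insert, ih, Finset.sum_range_succ, hf]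
    · ring
    · simp only [Finset.mem_Icc]
      omega
    · simp only [Finset.mem_Icc, Finset.mem_insert]
      omega

theorem aa_sum (N : ℕ) : ∑ x ∈ Icc (-(N : ℤ)) N, aa x ≤ 2 / (7 * 6 ^ 7) := by
  rw [sum_sym aa (fun x => by unfold aa; rw [abs_neg]; push_cast; rw [Even.neg_pow (by decide)])]
  have h0 : aa 0 = 0 := by
    unfold aa
    rw [if_neg (by norm_num)]
  have key : ∀ m : ℕ, ∑ k ∈ range (6 + m), aa ((k : ℤ) + 1) ≤ 1 / 7 * (1 / 6 ^ 7 - 1 / ((6 : ℝ) + m) ^ 7) := by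
    intro m
    induction m with
    | zero =>
      have : ∑ k ∈ range (6 + 0), aa ((k : ℤ) + 1) = 0 := by
        apply Finset.sum_eq_zero
        intro k hk
        rw [Finset.mem_range] at hk
        unfold aa
        rw [if_neg]
        rw [abs_of_nonneg (by omega)]
        omega
      rw [this]
      norm_num
    | succ m ih =>
      rw [← add_assoc, Finset.sum_range_succ]
      have ha : aa (((6 + m : ℕ) : ℤ) + 1) = 1 / ((6 : ℝ) + m + 1) ^ 8 := by
        unfold aa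
        rw [if_pos]
        · push_cast
          rfl
        · rw [abs_of_nonneg (by omega)]
          omega
      rw [ha]
      push_cast
      set t : ℝ := (6 : ℝ) + m with ht
      have ht6 : 6 ≤ t := by
        have : (0 : ℝ) ≤ m := Nat.cast_nonneg m
        linarith
      have e1 : (6 : ℝ) + (m + 1) = t + 1 := by rw [ht]; ring
      rw [e1]
      have hstep : 1 / (t + 1) ^ 8 ≤ 1 / 7 * (1 / t ^ 7 - 1 / (t + 1) ^ 7) := by
        have ht0 : 0 < t := by linarith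
        have h7 : t ^ 6 * (t + 8) * t ≤ (t + 1) ^ 8 - 1 := by
          nlinarith [pow_pos ht0 1, pow_pos ht0 2, pow_pos ht0 3, pow_pos ht0 4, pow_pos ht0 5, pow_pos ht0 6,
            pow_pos ht0 7]
        rw [div_sub_div _ _ (by positivity) (by positivity), ← mul_div_assoc, div_le_div_iff₀ (by positivity) (by positivity)]
        have e3 : 1 * (t ^ 7 * (t + 1) ^ 7) = t ^ 7 * (t + 1) ^ 7 := one_mul _
        rw [e3]
        have h8 : 7 * t ^ 7 ≤ (t + 1) ^ 8 - t ^ 7 * (t + 1) := by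
          nlinarith [pow_pos ht0 1, pow_pos ht0 2, pow_pos ht0 3, pow_pos ht0 4, pow_pos ht0 5, pow_pos ht0 6,
            pow_pos ht0 7]
        have h9 : 0 < (t + 1) ^ 7 := by positivity
        nlinarith [mul_le_mul_of_nonneg_right h8 h9.le]
      linarith
  rcases Nat.lt_or_ge N 6 with hN | hN
  · have : ∑ k ∈ range N, aa ((k : ℤ) + 1) = 0 := by
      apply Finset.sum_eq_zero
      intro k hk
      rw [Finset.mem_range] at hk
      unfold aa
      rw [if_neg]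
      rw [abs_of_nonneg (by omega)]
      omega
    rw [this, h0]
    norm_num
  · obtain ⟨m, rfl⟩ := Nat.exists_eq_add_of_le hN
    have h1 := key m
    have h2 : 0 ≤ 1 / ((6 : ℝ) + m) ^ 7 := by positivity
    rw [h0]
    have h3 : (2 : ℝ) / (7 * 6 ^ 7) = 2 * (1 / 7 * (1 / 6 ^ 7)) := by norm_num
    rw [h3]
    linarith

theorem bb_sum (N : ℕ) : ∑ x ∈ Icc (-(N : ℤ)) N, bb x ≤ 33 / 10 := by
  rw [sum_sym bb (fun x => by unfold bb; push_cast; rw [neg_sq])]
  have h0 : bb 0 = 1 := by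
    unfold bb
    norm_num
  have key : ∀ m : ℕ, ∑ k ∈ range (3 + m), bb ((k : ℤ) + 1) ≤ 8 / 10 + 1 / 3 - 1 / ((3 : ℝ) + m) := by
    intro m
    induction m with
    | zero =>
      rw [Nat.add_zero, Finset.sum_range_succ, Finset.sum_range_succ, Finset.sum_range_succ, Finset.sum_range_zero]
      unfold bb
      norm_num
    | succ m ih =>
      rw [← add_assoc, Finset.sum_range_succ]
      have ha : bb (((3 + m : ℕ) : ℤ) + 1) = 1 / (1 + ((3 : ℝ) + m + 1) ^ 2) := by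
        unfold bb
        push_cast
        rfl
      rw [ha]
      push_cast
      set t : ℝ := (3 : ℝ) + m with ht
      have ht3 : 3 ≤ t := by
        have : (0 : ℝ) ≤ m := Nat.cast_nonneg m
        linarith
      have e1 : (3 : ℝ) + (m + 1) = t + 1 := by rw [ht]; ring
      rw [e1]
      have hstep : 1 / (1 + (t + 1) ^ 2) ≤ 1 / t - 1 / (t + 1) := by
        rw [div_sub_div _ _ (by positivity) (by positivity), div_le_div_iff₀ (by positivity) (by positivity)]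
        nlinarith
      linarith
  have hmono : ∑ k ∈ range N, bb ((k : ℤ) + 1) ≤ ∑ k ∈ range (3 + N), bb ((k : ℤ) + 1) := by
    apply Finset.sum_le_sum_of_subset_of_nonneg
    · intro k hk
      rw [Finset.mem_range] at hk ⊢
      omega
    · intro k _ _
      exact bb_nonneg _
  have h1 := key N
  have h2 : 0 ≤ 1 / ((3 : ℝ) + N) := by positivity
  rw [h0]
  linarith

theorem go_sum (N : ℕ) : ∑ X ∈ Bx N, go X ≤ 22 / 10000 := by
  have e : ∑ X ∈ Bx N, go X = 3 * 64 * ((∑ x ∈ Icc (-(N : ℤ)) N, aa x) *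
      ((∑ x ∈ Icc (-(N : ℤ)) N, bb x) * (∑ x ∈ Icc (-(N : ℤ)) N, bb x))) := by
    unfold go Bx
    rw [Finset.sum_add_distrib, Finset.sum_add_distrib, ← Finset.mul_sum, ← Finset.mul_sum, ← Finset.mul_sum]
    rw [Finset.sum_product, Finset.sum_product, Finset.sum_product]
    simp only [Finset.sum_product, ← Finset.mul_sum, ← Finset.sum_mul]
    ring
  rw [e]
  have h1 := aa_sum N
  have h2 := bb_sum N
  have h3 : 0 ≤ ∑ x ∈ Icc (-(N : ℤ)) N, bb x := Finset.sum_nonneg fun x _ => bb_nonneg x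
  have h4 : 0 ≤ ∑ x ∈ Icc (-(N : ℤ)) N, aa x := Finset.sum_nonneg fun x _ => aa_nonneg x
  calc 3 * 64 * ((∑ x ∈ Icc (-(N : ℤ)) N, aa x) *
      ((∑ x ∈ Icc (-(N : ℤ)) N, bb x) * (∑ x ∈ Icc (-(N : ℤ)) N, bb x)))
      ≤ 3 * 64 * (2 / (7 * 6 ^ 7) * (33 / 10 * (33 / 10))) := by
        apply mul_le_mul_of_nonneg_left _ (by norm_num)
        apply mul_le_mul h1 (mul_le_mul h2 h2 h3 (by norm_num)) (by positivity) (by norm_num)
    _ ≤ 22 / 10000 := by norm_num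

/-- the integer bound of a term, multiplied by `10 ^ 12` -/
def cc (i j k : ℕ) : ℕ :=
  if (i + j + k) % 2 = 0 ∧ 4 ≤ ((i - 6) + (6 - i)) ^ 2 + ((j - 6) + (6 - j)) ^ 2 + ((k - 6) + (6 - k)) ^ 2 then
    64 * 10 ^ 12 / (((i - 6) + (6 - i)) ^ 2 + ((j - 6) + (6 - j)) ^ 2 + ((k - 6) + (6 - k)) ^ 2) ^ 6 + 1
  else 0

theorem cc_sum : ∑ i ∈ range 13, ∑ j ∈ range 13, ∑ k ∈ range 13, cc i j k ≤ 132 * 10 ^ 9 := by
  decide +kernel

theorem g_cc (i j k : ℕ) : g ((i : ℤ) - 6, (j : ℤ) - 6, (k : ℤ) - 6) ≤ (cc i j k : ℝ) / 10 ^ 12 := by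
  have hn : n2 ((i : ℤ) - 6, (j : ℤ) - 6, (k : ℤ) - 6) =
      ((((i - 6) + (6 - i)) ^ 2 + ((j - 6) + (6 - j)) ^ 2 + ((k - 6) + (6 - k)) ^ 2 : ℕ) : ℤ) := by
    have e : ∀ t : ℕ, ((t : ℤ) - 6) ^ 2 = (((t - 6) + (6 - t) : ℕ) : ℤ) ^ 2 := by
      intro t
      rcases Nat.lt_or_ge t 6 with h | h
      · have : (((t - 6) + (6 - t) : ℕ) : ℤ) = -((t : ℤ) - 6) := by omega
        rw [this, neg_sq]
      · have : (((t - 6) + (6 - t) : ℕ) : ℤ) = (t : ℤ) - 6 := by omega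
        rw [this]
    unfold n2
    simp only
    rw [e i, e j, e k]
    push_cast
    ring
  unfold g cc
  set n : ℕ := ((i - 6) + (6 - i)) ^ 2 + ((j - 6) + (6 - j)) ^ 2 + ((k - 6) + (6 - k)) ^ 2 with hnd
  by_cases hc : (i + j + k) % 2 = 0 ∧ 4 ≤ n
  · have hc' : cnd ((i : ℤ) - 6, (j : ℤ) - 6, (k : ℤ) - 6) := by
      refine ⟨?_, ?_⟩
      · simp only
        omega
      · rw [hn]
        exact_mod_cast hc.2
    rw [if_pos hc', if_pos hc, hn]
    have hn0 : 0 < n := by omega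
    have h1 : 64 * 10 ^ 12 < (64 * 10 ^ 12 / n ^ 6 + 1) * n ^ 6 := by
      have := Nat.lt_div_mul_add (a := 64 * 10 ^ 12) (b := n ^ 6) (by positivity)
      rw [add_mul, one_mul]
      exact this
    have h2 : (64 * 10 ^ 12 : ℝ) ≤ ((64 * 10 ^ 12 / n ^ 6 + 1 : ℕ) : ℝ) * (n : ℝ) ^ 6 := by
      exact_mod_cast h1.le
    have hn0' : (0 : ℝ) < (n : ℝ) ^ 6 := by positivity
    rw [Int.cast_natCast, div_le_div_iff₀ hn0' (by norm_num)]
    exact h2
  · have hc' : ¬ cnd ((i : ℤ) - 6, (j : ℤ) - 6, (k : ℤ) - 6) := by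
      rintro ⟨c1, c2⟩
      apply hc
      refine ⟨?_, ?_⟩
      · simp only at c1
        omega
      · rw [hn] at c2
        exact_mod_cast c2
    rw [if_neg hc', if_neg hc]
    simp

theorem sum_shift (f : ℤ → ℝ) : ∑ x ∈ Icc (-((6 : ℕ) : ℤ)) ((6 : ℕ) : ℤ), f x = ∑ i ∈ range 13, f ((i : ℤ) - 6) := by
  symm
  refine Finset.sum_nbij (fun i : ℕ => (i : ℤ) - 6) ?_ ?_ ?_ ?_
  · intro i hi
    rw [Finset.mem_range] at hi
    rw [Finset.mem_Icc]
    push_cast
    omega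
  · intro i _ j _ h
    have h' : (i : ℤ) - 6 = (j : ℤ) - 6 := h
    omega
  · intro x hx
    rw [Finset.mem_coe, Finset.mem_Icc] at hx
    push_cast at hx
    refine ⟨(x + 6).toNat, ?_, ?_⟩
    · rw [Finset.mem_coe, Finset.mem_range]
      omega
    · show (((x + 6).toNat : ℕ) : ℤ) - 6 = x
      omega
  · intro i _
    rfl

theorem inner_sum : ∑ X ∈ Bx 6, g X ≤ 132 / 1000 := by
  unfold Bx
  rw [Finset.sum_product]
  simp only [Finset.sum_product]
  rw [sum_shift]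
  simp only [sum_shift]
  calc ∑ i ∈ range 13, ∑ j ∈ range 13, ∑ k ∈ range 13, g ((i : ℤ) - 6, (j : ℤ) - 6, (k : ℤ) - 6)
      ≤ ∑ i ∈ range 13, ∑ j ∈ range 13, ∑ k ∈ range 13, (cc i j k : ℝ) / 10 ^ 12 :=
        Finset.sum_le_sum fun i _ => Finset.sum_le_sum fun j _ => Finset.sum_le_sum fun k _ => g_cc i j k
    _ = ((∑ i ∈ range 13, ∑ j ∈ range 13, ∑ k ∈ range 13, cc i j k : ℕ) : ℝ) / 10 ^ 12 := by
        push_cast
        simp only [Finset.sum_div]
    _ ≤ ((132 * 10 ^ 9 : ℕ) : ℝ) / 10 ^ 12 := by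
        apply div_le_div_of_nonneg_right _ (by norm_num)
        exact_mod_cast cc_sum
    _ = 132 / 1000 := by norm_num

theorem exists_box (T : Finset (ℤ × ℤ × ℤ)) : ∃ N : ℕ, 6 ≤ N ∧ T ⊆ Bx N := by
  induction T using Finset.induction_on with
  | empty => exact ⟨6, le_refl 6, Finset.empty_subset _⟩
  | insert X T _ ih =>
    obtain ⟨N, hN, hT⟩ := ih
    refine ⟨N + X.1.natAbs + X.2.1.natAbs + X.2.2.natAbs, by omega, ?_⟩
    intro Y hY
    rw [Finset.mem_insert] at hY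
    rw [mem_Bx]
    rcases hY with rfl | hY
    · simp only [Nat.cast_add]
      omega
    · have := hT hY
      rw [mem_Bx] at this
      simp only [Nat.cast_add]
      omega

theorem total (T : Finset (ℤ × ℤ × ℤ)) : ∑ X ∈ T, g X ≤ 132 / 1000 + 22 / 10000 := by
  obtain ⟨N, hN, hT⟩ := exists_box T
  have h1 : ∑ X ∈ T, g X ≤ ∑ X ∈ Bx N, g X :=
    Finset.sum_le_sum_of_subset_of_nonneg hT fun X _ _ => g_nonneg X
  have h2 : ∑ X ∈ Bx N, g X ≤ ∑ X ∈ Bx N, ((if X ∈ Bx 6 then g X else 0) + go X) :=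
    Finset.sum_le_sum fun X _ => g_le X
  rw [Finset.sum_add_distrib] at h2
  have h3 : ∑ X ∈ Bx N, (if X ∈ Bx 6 then g X else 0) ≤ ∑ X ∈ Bx 6, g X := by
    rw [← Finset.sum_filter]
    apply Finset.sum_le_sum_of_subset_of_nonneg
    · intro X hX
      exact (Finset.mem_filter.mp hX).2
    · intro X _ _
      exact g_nonneg X
  have h4 := go_sum N
  have h5 := inner_sum
  linarith

end RhoAux

theorem rho_bound {s : ℝ} (hs : 6 ≤ s) : 0 ≤ Rst s G0 ∧ Rst s G0 < 14 / 100 := by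
  classical
  constructor
  · exact tsum_nonneg fun x => RhoAux.term_nonneg x.1
  · have h : Rst s G0 ≤ 132 / 1000 + 22 / 10000 := by
      unfold Rst
      refine tsum_le_of_sum_le' (by norm_num) fun S => ?_
      calc ∑ x ∈ S, (if 4 ≤ qf G0 x.1 then (qf G0 x.1 / 2) ^ (-s) else 0)
          ≤ ∑ x ∈ S, RhoAux.g (RhoAux.cX x.1) := Finset.sum_le_sum fun x _ => RhoAux.term_le hs x.1
        _ = ∑ X ∈ S.image (fun x : NZ 3 => RhoAux.cX x.1), RhoAux.g X := by
            rw [Finset.sum_image]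
            intro x _ y _ hxy
            exact Subtype.ext (RhoAux.cX_inj hxy)
        _ ≤ 132 / 1000 + 22 / 10000 := RhoAux.total _
    linarith

end Pool.Agent.Lib.FCC
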