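import Pool.Agent.Lib.FCC.Base

/-!
# Module FCC.Split: separation of the minimal vectors

`qf G0 y = (y0+y1-y2)² + (y0-y1)² + y2²` is even for integral `y` (the sum of the three numbers
`y0+y1-y2, y0-y1, y2` is `2 y0`), and it is `2` exactly for the twelve vectors
`± (1,0,0), ± (0,1,0), ± (0,0,1), ± (1,1,1), ± (1,0,1), ± (0,1,1)` (if it is `2` then
`|y2| ≤ 1, |y0-y1| ≤ 1, |y0+y1-y2| ≤ 1`; finitely many cases), otherwise `≥ 4` for `y ≠ 0`.
For `Q = formOf l` the values at these vectors are `nm l 0, nm l 1, nm l 2, nm l 3, nm l 5, nm l 6`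
(in this order). So for `s > 3/2` (`PD.summable`), splitting the sum over `NZ 3` into the twelve
vectors (`Finset` of `NZ 3`; `Summable.sum_add_tsum_subtype_compl` or by writing each term as the sum
of `if x ∈ M12 then .. else 0` and `if 4 ≤ qf G0 x then .. else 0`):
`2^s F s (formOf l) = 2 Eh s l + Rst s (formOf l)`, with `F s Q = ∑' x : NZ 3, qf Q x ^ (-s)` and
`2^s q^(-s) = (q/2)^(-s)`.
-/

open Matrix
open scoped Matrix.Norms.Elementwise

namespace Pool.Agent.Lib.FCC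

open Pool.Agent.Lib.EpZ

namespace SplitAux

/-- the six minimal vectors up to sign -/
def bv : Fin 6 → Fin 3 → ℤ
  | 0 => ![1, 0, 0]
  | 1 => ![0, 1, 0]
  | 2 => ![0, 0, 1]
  | 3 => ![1, 1, 1]
  | 4 => ![1, 0, 1]
  | 5 => ![0, 1, 1]

/-- the sign -/
def sg : Bool → ℤ
  | true => 1
  | false => -1

/-- the twelve minimal vectors -/
def mv (k : Fin 6 × Bool) : Fin 3 → ℤ := sg k.2 • bv k.1

theorem mv_ne : ∀ k, mv k ≠ 0 := by decide

/-- the twelve minimal vectors -/
def mz (k : Fin 6 × Bool) : NZ 3 := ⟨mv k, mv_ne k⟩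

theorem mz_injective : Function.Injective mz := by
  have h : ∀ k k', mv k = mv k' → k = k' := by decide
  intro k k' e
  exact h _ _ (congrArg Subtype.val e)

/-- the form of the lattice at integral vectors -/
def mm (y : Fin 3 → ℤ) : ℤ := y 0 ^ 2 + y 1 ^ 2 + y 2 ^ 2 - y 0 * y 2 - y 1 * y 2

theorem qf_G0 (y : Fin 3 → ℤ) : qf G0 y = 2 * (mm y : ℝ) := by
  rw [qf, qr_eq]
  simp [Fin.sum_univ_three, rv, G0, mm]
  ring

theorem four_le (y : Fin 3 → ℤ) : 4 ≤ qf G0 y ↔ 2 ≤ mm y := by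
  rw [qf_G0]
  constructor
  · intro h
    have h1 : (2 : ℝ) ≤ (mm y : ℝ) := by linarith
    exact_mod_cast h1
  · intro h
    have h1 : (2 : ℝ) ≤ (mm y : ℝ) := by exact_mod_cast h
    linarith

theorem mm_mv : ∀ k, ¬ 2 ≤ mm (mv k) := by decide

theorem bd {a : ℤ} (h : a ^ 2 ≤ 2) : -1 ≤ a ∧ a ≤ 1 := by
  constructor <;> nlinarith

theorem mem_of (x : NZ 3) (h : ¬ 2 ≤ mm x.1) : ∃ k, mz k = x := by
  obtain ⟨y, hy⟩ := x
  simp only [mm] at h
  have e : (y 0 + y 1 - y 2) ^ 2 + (y 0 - y 1) ^ 2 + y 2 ^ 2 ≤ 2 := by nlinarith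
  have h1 := bd (a := y 0 + y 1 - y 2) (by nlinarith [sq_nonneg (y 0 - y 1), sq_nonneg (y 2)])
  have h2 := bd (a := y 0 - y 1) (by nlinarith [sq_nonneg (y 0 + y 1 - y 2), sq_nonneg (y 2)])
  have h3 := bd (a := y 2) (by nlinarith [sq_nonneg (y 0 + y 1 - y 2), sq_nonneg (y 0 - y 1)])
  have h0 : ¬ (y 0 = 0 ∧ y 1 = 0 ∧ y 2 = 0) := by
    rintro ⟨a, b, c⟩
    apply hy
    funext i
    fin_cases i
    · exact a
    · exact b
    · exact c
  have key : ∀ a b c : ℤ, y 0 = a → y 1 = b → y 2 = c → ∀ k, mv k = ![a, b, c] → ∃ k, mz k =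
      (⟨y, hy⟩ : NZ 3) := by
    intro a b c ha hb hc k hk
    refine ⟨k, Subtype.ext ?_⟩
    change mv k = y
    rw [hk]
    funext i
    fin_cases i
    · exact ha.symm
    · exact hb.symm
    · exact hc.symm
  have b0 : -1 ≤ y 0 ∧ y 0 ≤ 1 := by omega
  have b1 : -1 ≤ y 1 ∧ y 1 ≤ 1 := by omega
  obtain ⟨b0, b0'⟩ := b0
  obtain ⟨b1, b1'⟩ := b1
  obtain ⟨b2, b2'⟩ := h3
  have c0 : y 0 = -1 ∨ y 0 = 0 ∨ y 0 = 1 := by omega
  have c1 : y 1 = -1 ∨ y 1 = 0 ∨ y 1 = 1 := by omega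
  have c2 : y 2 = -1 ∨ y 2 = 0 ∨ y 2 = 1 := by omega
  rcases c0 with c0 | c0 | c0 <;> rcases c1 with c1 | c1 | c1 <;> rcases c2 with c2 | c2 | c2 <;>
    rw [c0, c1, c2] at h e
  all_goals first
    | exact key _ _ _ c0 c1 c2 (0, true) (by decide)
    | exact key _ _ _ c0 c1 c2 (0, false) (by decide)
    | exact key _ _ _ c0 c1 c2 (1, true) (by decide)
    | exact key _ _ _ c0 c1 c2 (1, false) (by decide)
    | exact key _ _ _ c0 c1 c2 (2, true) (by decide)
    | exact key _ _ _ c0 c1 c2 (2, false) (by decide)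
    | exact key _ _ _ c0 c1 c2 (3, true) (by decide)
    | exact key _ _ _ c0 c1 c2 (3, false) (by decide)
    | exact key _ _ _ c0 c1 c2 (4, true) (by decide)
    | exact key _ _ _ c0 c1 c2 (4, false) (by decide)
    | exact key _ _ _ c0 c1 c2 (5, true) (by decide)
    | exact key _ _ _ c0 c1 c2 (5, false) (by decide)
    | exact (h0 ⟨c0, c1, c2⟩).elim
    | omega

/-- the values of the form at the minimal vectors -/
def ix : Fin 6 → Fin 7
  | 0 => 0
  | 1 => 1
  | 2 => 2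
  | 3 => 3
  | 4 => 5
  | 5 => 6

theorem qf_mv (l : Fin 6 → ℝ) (k : Fin 6 × Bool) : qf (formOf l) (mv k) = nm l (ix k.1) := by
  rw [qf, qr_eq]
  obtain ⟨i, b⟩ := k
  fin_cases i <;> cases b <;>
    simp [Fin.sum_univ_three, rv, formOf, mv, bv, sg, nm, ix] <;> ring

end SplitAux

open SplitAux in
theorem F_split {l : Fin 6 → ℝ} (h : PD (formOf l)) {s : ℝ} (hs : 3 / 2 < s) :
    2 ^ s * F s (formOf l) = 2 * Eh s l + Rst s (formOf l) := by
  have hs' : ((3 : ℕ) : ℝ) / 2 < s := by exact_mod_cast hs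
  have hsum := h.summable hs'
  let f : NZ 3 → ℝ := fun x => (qf (formOf l) x.1 / 2) ^ (-s)
  have hf : ∀ x : NZ 3, (2 : ℝ) ^ s * qf (formOf l) x.1 ^ (-s) = f x := by
    intro x
    have hp := h.pos x
    change _ = (qf (formOf l) x.1 / 2) ^ (-s)
    rw [Real.div_rpow hp.le (by norm_num), Real.rpow_neg (by norm_num : (0 : ℝ) ≤ 2) s]
    field_simp
  have hfs : Summable f := (hsum.mul_left (2 ^ s)).congr hf
  have h1 : (2 : ℝ) ^ s * F s (formOf l) = ∑' x, f x := by
    rw [F, ← tsum_mul_left]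
    exact tsum_congr hf
  let f1 : NZ 3 → ℝ := fun x => if 4 ≤ qf G0 x.1 then f x else 0
  let f2 : NZ 3 → ℝ := fun x => if 4 ≤ qf G0 x.1 then 0 else f x
  have h2 : ∀ x, f x = f1 x + f2 x := by
    intro x
    simp only [f1, f2]
    split_ifs <;> simp
  have hs1 : Summable f1 := by
    have := hfs.indicator {x : NZ 3 | 4 ≤ qf G0 x.1}
    refine this.congr fun x => ?_
    simp only [f1, Set.indicator, Set.mem_ofPred_eq]
  have hs2 : Summable f2 := by
    have : Summable fun x => f x - f1 x := hfs.sub hs1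
    refine this.congr fun x => ?_
    rw [h2 x]
    ring
  have h3 : ∑' x, f2 x = 2 * Eh s l := by
    have h4 : Function.support f2 ⊆ Set.range mz := by
      intro x hx
      refine mem_of x fun h5 => hx ?_
      exact if_pos ((four_le x.1).2 h5)
    rw [← mz_injective.tsum_eq h4, tsum_fintype]
    have h5 : ∀ k, f2 (mz k) = (nm l (ix k.1) / 2) ^ (-s) := by
      intro k
      have h6 : ¬ 4 ≤ qf G0 (mz k).1 := fun h7 => mm_mv k ((four_le _).1 h7)
      change (if 4 ≤ qf G0 (mz k).1 then 0 else f (mz k)) = _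
      rw [if_neg h6]
      change (qf (formOf l) (mv k) / 2) ^ (-s) = _
      rw [qf_mv]
    rw [Finset.sum_congr rfl fun k _ => h5 k, Fintype.sum_prod_type]
    simp only [Fintype.sum_bool, Eh, Fin.sum_univ_six, Fin.sum_univ_seven, ix]
    simp only [show ((0 : Fin 7) = 4) = False by simp, show ((1 : Fin 7) = 4) = False by simp,
      show ((2 : Fin 7) = 4) = False by simp, show ((3 : Fin 7) = 4) = False by simp,
      show ((5 : Fin 7) = 4) = False by simp, show ((6 : Fin 7) = 4) = False by simp,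
      if_true, if_false]
    ring
  rw [h1, tsum_congr h2, hs1.tsum_add hs2, h3, add_comm]
  rfl

end Pool.Agent.Lib.FCC
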