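import Pool.Agent.Lib.FCC.CertS
import Pool.Agent.Lib.FCC.RestJ
import Pool.Agent.Lib.FCC.Rho
import Pool.Agent.Lib.FCC.PM
import Pool.Agent.Lib.FCC.AG
import Pool.Agent.Lib.FCC.Split

/-!
# Module FCC.Tot: the inequality for a good form

`l ≥ 0`, `dt l = 4`, `GoodAt 4 l`, `s ≥ 6`. Let `l₀ = ![0,0,1,1,1,1]`: `formOf l₀ = G0`, all norms
`nm l₀ x = 2` for `x ≠ 4`, so `Eh s l₀ = 6`, and `F_split` gives `2^s F s G0 = 12 + ρ`,
`ρ = Rst s G0 ∈ [0, 0.14)` (`rho_bound`); `formOf_pd`, `nm_pos`, `S1_ge`, `G0_pd` supply the side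
conditions. With `τ = S1 4 l/12 - 1 ≥ 0`: `2^s F s (formOf l) = 2 Eh s l + Rst s (formOf l)
≥ 12 + 0.14 min 1 (s τ) + (1+τ)^(-s) ρ` (`Eh_lower`, `rest_jensen`), and `(1+τ)^(-s) ≥ 1 - s τ` (from
`u^(-s) = exp(-s log u) ≥ 1 - s log u ≥ 1 - s(u-1)`), `(1+τ)^(-s) ≥ 0`.
If `s τ ≥ 1`: `≥ 12 + 0.14 > 12 + ρ`. If `0 < s τ < 1`: `≥ 12 + 0.14 s τ + ρ (1 - s τ) > 12 + ρ`. If
`τ = 0`: `≥ 12 + ρ`, and `formOf l = G0` by `eq_G0`.
-/

open Matrix
open scoped Matrix.Norms.Elementwise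

namespace Pool.Agent.Lib.FCC

open Pool.Agent.Lib.EpZ

namespace TotAux

lemma rpow_lower {u s : ℝ} (hu : 0 < u) (hs : 0 ≤ s) : 1 - s * (u - 1) ≤ u ^ (-s) := by
  rw [Real.rpow_def_of_pos hu]
  have h1 := Real.add_one_le_exp (Real.log u * (-s))
  have h2 := Real.log_le_sub_one_of_pos hu
  have h3 : s * Real.log u ≤ s * (u - 1) := mul_le_mul_of_nonneg_left h2 hs
  linarith [h1, h3]

/-- the Selling parameters of `G0` -/
def l0 : Fin 6 → ℝ := ![0, 0, 1, 1, 1, 1]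

lemma v0 : l0 0 = 0 := rfl
lemma v1 : l0 1 = 0 := rfl
lemma v2 : l0 2 = 1 := rfl
lemma v3 : l0 3 = 1 := rfl
lemma v4 : l0 4 = 1 := rfl
lemma v5 : l0 5 = 1 := rfl

lemma form_l0 : formOf l0 = G0 := by
  unfold formOf G0
  rw [v0, v1, v2, v3, v4, v5]
  norm_num

lemma nm_l0 (x : Fin 7) (hx : x ≠ 4) : nm l0 x = 2 := by
  fin_cases x
  · show l0 0 + l0 2 + l0 4 = 2
    rw [v0, v2, v4]; norm_num
  · show l0 0 + l0 5 + l0 3 = 2
    rw [v0, v5, v3]; norm_num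
  · show l0 2 + l0 5 + l0 1 = 2
    rw [v2, v5, v1]; norm_num
  · show l0 4 + l0 3 + l0 1 = 2
    rw [v4, v3, v1]; norm_num
  · exact absurd rfl hx
  · show l0 0 + l0 1 + l0 4 + l0 5 = 2
    rw [v0, v1, v4, v5]; norm_num
  · show l0 0 + l0 1 + l0 2 + l0 3 = 2
    rw [v0, v1, v2, v3]; norm_num

lemma Eh_l0 (s : ℝ) : Eh s l0 = 6 := by
  have h : ∀ x : Fin 7, (if x = 4 then (0 : ℝ) else (nm l0 x / 2) ^ (-s)) = if x = 4 then 0 else 1 := by
    intro x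
    split_ifs with hx
    · rfl
    · rw [nm_l0 x hx]; norm_num
  unfold Eh
  rw [Finset.sum_congr rfl (fun x _ => h x)]
  simp [Fin.sum_univ_succ]
  norm_num [Fin.ext_iff]

end TotAux

open TotAux

theorem total {l : Fin 6 → ℝ} (hl : ∀ i, 0 ≤ l i) (hd : dt l = 4) (hg : GoodAt 4 l) {s : ℝ}
    (hs : 6 ≤ s) : F s G0 ≤ F s (formOf l) ∧ (F s (formOf l) = F s G0 → formOf l = G0) := by
  have hdl : 0 < dt l := by rw [hd]; norm_num
  have hpd := formOf_pd hl hdl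
  have hS1 := S1_ge hl hd
  have hE := Eh_lower (fun x _ => nm_pos hl hdl x) hS1 hg hs
  obtain ⟨hρ0, hρ1⟩ := rho_bound hs
  obtain ⟨_, hR⟩ := rest_jensen hpd (s := s) (by linarith)
  have hF := F_split hpd (s := s) (by linarith)
  have hF0 : 2 ^ s * F s G0 = 2 * 6 + Rst s G0 := by
    have h := F_split (l := l0) (by rw [form_l0]; exact G0_pd) (s := s) (by linarith)
    rw [form_l0, Eh_l0] at h
    exact h
  set τ : ℝ := S1 4 l / 12 - 1 with hτ
  have hτ0 : 0 ≤ τ := by rw [hτ]; linarith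
  have hu : S1 4 l / 12 = 1 + τ := by rw [hτ]; ring
  rw [hu] at hR
  have hlow := rpow_lower (u := 1 + τ) (s := s) (by linarith) (by linarith)
  have hpos : 0 ≤ (1 + τ) ^ (-s) := Real.rpow_nonneg (by linarith) _
  have h2s : (0 : ℝ) < 2 ^ s := Real.rpow_pos_of_pos (by norm_num) _
  set ρ := Rst s G0 with hρ
  have key : 2 ^ s * F s G0 ≤ 2 ^ s * F s (formOf l) ∧
      (2 ^ s * F s (formOf l) = 2 ^ s * F s G0 → τ = 0) := by
    rw [hF, hF0]
    rcases le_or_gt 1 (s * τ) with h | h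
    · rw [min_eq_left h] at hE
      have h1 : 0 ≤ (1 + τ) ^ (-s) * ρ := mul_nonneg hpos hρ0
      constructor
      · linarith
      · intro h2; linarith
    · rw [min_eq_right h.le] at hE
      have h1 : (1 - s * τ) * ρ ≤ (1 + τ) ^ (-s) * ρ := by
        apply mul_le_mul_of_nonneg_right _ hρ0
        have : 1 - s * (1 + τ - 1) = 1 - s * τ := by ring
        linarith
      have h3 : 0 ≤ s * τ := mul_nonneg (by linarith) hτ0
      have h4 : s * τ * ρ ≤ s * τ * (14 / 100) := mul_le_mul_of_nonneg_left hρ1.le h3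
      constructor
      · nlinarith
      · intro h2
        by_contra hne
        have h5 : 0 < s * τ := mul_pos (by linarith) (lt_of_le_of_ne hτ0 (Ne.symm hne))
        have h6 : s * τ * ρ < s * τ * (14 / 100) := mul_lt_mul_of_pos_left hρ1 h5
        nlinarith
  refine ⟨le_of_mul_le_mul_left key.1 h2s, fun h => ?_⟩
  have h0 := key.2 (by rw [h])
  exact eq_G0 hl hd (by rw [hτ] at h0; linarith)

end Pool.Agent.Lib.FCC
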