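import Pool.Agent.Lib.FCC.Defs

/-!
# Module FCC.LocI: the local inequality near the fcc form

`x0 + x1 + x2 = 0`, `|x_k|/2 + |f_k| ≤ 1/10`, `D` the determinant of `I + Z`, `Z` symmetric with
diagonal `x_k` and off-diagonal entries `f_k` (`f_k` opposite to `x_k`), `q > 0`, `q³ D = 1`.

Proof. Put `a = ∑ x_k²`, `b = ∑ f_k²`, `u = 1 - D`. Then `|x_k| ≤ 1/5`, `|f_k| ≤ 1/10`, `b ≤ 3/100`,
`a ≤ 2/25` (two of the `x_k` have the same sign, `x_i² + x_j² ≤ (x_i + x_j)² = x_k² ≤ 1/25`).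
(1) By `x0+x1+x2 = 0`: `u = a/2 + b - x0x1x2 - 2f0f1f2 + ∑ x_k f_k²`. `3|x0x1x2| ≤ (1/5)(|x0x1| +
|x1x2| + |x0x2|) ≤ a/5`, so `|x0x1x2| ≤ a/15`; `2|f0f1f2| ≤ (2/3)(1/10) b = b/15`;
`|∑ x_k f_k²| ≤ b/5`. Hence `0 ≤ (13/30) a + (11/15) b ≤ u ≤ U := (17/30) a + (19/15) b ≤ 0.0834`.
(2) For `|z| ≤ 1/10`: `((1+z)^6)⁻¹ ≥ 1 - 6z + (77/5) z²`, i.e. `(1+z)^6 (1 - 6z + (77/5)z²) ≤ 1`
(`1 - ... = z² G(z)` with a polynomial `G > 0` on `[-1/10, 1/10]`; `nlinarith` or bounding the terms).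
The six numbers `z = -x_k/2 ± f_k` have `|z| ≤ 1/10`, `∑ z = 0`, `∑ z² = a/2 + 2b`. So the sum of the
six inverse powers is `≥ 6 + (77/5)(a/2 + 2b) = 6 + 7.7 a + 30.8 b`.
(3) `D² = (1-u)² ≥ (1-U)² ≥ 1 - 2U`, so the right side is at least
`(1 - 2U)(6 + 7.7a + 30.8b) = 6 + 7.7a + 30.8b - 12U - 2U(7.7a + 30.8b)`;
`12 U = 6.8a + 15.2b`; `2U(7.7a+30.8b) = 8.7266.. a² + 54.413.. ab + 78.02.. b²
≤ 0.6982 a + 4.3531 b + 2.3408 b`. So it is `≥ 6 + 0.2018 a + 8.906 b`.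
(4) `q ≤ 1 + (36/100) u`: otherwise `1 = q³ D > (1 + 0.36u)³ (1-u) ≥ 1` for `0 ≤ u ≤ 0.0834`
(`(1+0.36u)³(1-u) - 1 = u (0.08 - 0.6912 u - 0.342144 u² - 0.046656 u³) ≥ 0`). So
`(42/100)(q-1) ≤ 0.1512 U ≤ 0.0857 a + 0.1916 b`.
-/

namespace Pool.Agent.Lib.FCC

namespace LocIAux

theorem inv_bound {z : ℝ} (h1 : -(1 / 10) ≤ z) (h2 : z ≤ 1 / 10) :
    1 - 6 * z + 77 / 5 * z ^ 2 ≤ ((1 + z) ^ 6)⁻¹ := by
  have hpos : 0 < (1 + z) ^ 6 := by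
    apply pow_pos
    linarith
  have hab : |z| ≤ 1 / 10 := abs_le.2 ⟨h1, h2⟩
  have z2 : z ^ 2 ≤ 1 / 100 := by
    rw [← sq_abs]
    have := pow_le_pow_left₀ (abs_nonneg z) hab 2
    linarith
  have z3 : z ^ 3 ≤ 1 / 1000 := by
    have h := pow_le_pow_left₀ (abs_nonneg z) hab 3
    have h' := le_abs_self (z ^ 3)
    rw [abs_pow] at h'
    linarith
  have z4 : z ^ 4 ≤ 1 / 10000 := by
    have h := pow_le_pow_left₀ (abs_nonneg z) hab 4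
    have h' := le_abs_self (z ^ 4)
    rw [abs_pow] at h'
    linarith
  have z5 : z ^ 5 ≤ 1 / 100000 := by
    have h := pow_le_pow_left₀ (abs_nonneg z) hab 5
    have h' := le_abs_self (z ^ 5)
    rw [abs_pow] at h'
    linarith
  have z6 : z ^ 6 ≤ 1 / 1000000 := by
    have h := pow_le_pow_left₀ (abs_nonneg z) hab 6
    have h' := le_abs_self (z ^ 6)
    rw [abs_pow] at h'
    linarith
  have hG : 0 ≤ 28 / 5 - 112 / 5 * z - 126 * z ^ 2 - 224 * z ^ 3 - 196 * z ^ 4 - 432 / 5 * z ^ 5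
      - 77 / 5 * z ^ 6 := by linarith
  have hid : (1 - 6 * z + 77 / 5 * z ^ 2) * (1 + z) ^ 6 = 1 - z ^ 2 * (28 / 5 - 112 / 5 * z
      - 126 * z ^ 2 - 224 * z ^ 3 - 196 * z ^ 4 - 432 / 5 * z ^ 5 - 77 / 5 * z ^ 6) := by ring
  rw [← one_div, le_div_iff₀ hpos, hid]
  have := mul_nonneg (sq_nonneg z) hG
  linarith

theorem prod_bound {r x y z : ℝ} (hr : 0 ≤ r) (hx : |x| ≤ r) (hy : |y| ≤ r) (hz : |z| ≤ r) :
    |x * y * z| ≤ r / 3 * (x ^ 2 + y ^ 2 + z ^ 2) := by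
  rw [abs_mul, abs_mul, ← sq_abs x, ← sq_abs y, ← sq_abs z]
  have hx0 := abs_nonneg x
  have hy0 := abs_nonneg y
  have hz0 := abs_nonneg z
  generalize |x| = X at *
  generalize |y| = Y at *
  generalize |z| = Z at *
  have h1 : X * Y * Z ≤ X * Y * r := mul_le_mul_of_nonneg_left hz (mul_nonneg hx0 hy0)
  have h2 : X * Y * Z ≤ X * Z * r := by
    have := mul_le_mul_of_nonneg_left hy (mul_nonneg hx0 hz0)
    linarith
  have h3 : X * Y * Z ≤ Y * Z * r := by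
    have := mul_le_mul_of_nonneg_left hx (mul_nonneg hy0 hz0)
    linarith
  have h4 : 0 ≤ r * ((X - Y) ^ 2 + (X - Z) ^ 2 + (Y - Z) ^ 2) := by positivity
  have h5 : r / 3 * (X ^ 2 + Y ^ 2 + Z ^ 2) = (X * Y * r + X * Z * r + Y * Z * r) / 3
      + r * ((X - Y) ^ 2 + (X - Z) ^ 2 + (Y - Z) ^ 2) / 6 := by ring
  linarith

theorem abs_sq_le {x r : ℝ} (hx : |x| ≤ r) : x ^ 2 ≤ r ^ 2 := by
  rw [← sq_abs]
  exact pow_le_pow_left₀ (abs_nonneg x) hx 2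

theorem mul_sq_bound {x r f : ℝ} (hx : |x| ≤ r) : -(r * f ^ 2) ≤ x * f ^ 2 ∧ x * f ^ 2 ≤ r * f ^ 2 := by
  have h := abs_le.1 hx
  have hf := sq_nonneg f
  constructor
  · have := mul_le_mul_of_nonneg_right h.1 hf
    linarith
  · exact mul_le_mul_of_nonneg_right h.2 hf

theorem poly_bound {u : ℝ} (hu0 : 0 ≤ u) (hu1 : u ≤ 1 / 12) :
    1 ≤ (1 + 36 / 100 * u) ^ 3 * (1 - u) := by
  have h5 : (1 + 36 / 100 * u) ^ 3 * (1 - u) = 1 + u * (8 / 100 - 6912 / 10000 * u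
      - 342144 / 1000000 * u ^ 2 - 46656 / 1000000 * u ^ 3) := by ring
  have u2 := pow_le_pow_left₀ hu0 hu1 2
  have u3 := pow_le_pow_left₀ hu0 hu1 3
  norm_num at u2 u3
  have h6 : 0 ≤ 8 / 100 - 6912 / 10000 * u - 342144 / 1000000 * u ^ 2
      - 46656 / 1000000 * u ^ 3 := by linarith
  have h7 := mul_nonneg hu0 h6
  linarith

theorem a_bound {x y z : ℝ} (h : x + y + z = 0) (hx : |x| ≤ 1 / 5) (hy : |y| ≤ 1 / 5)
    (hz : |z| ≤ 1 / 5) : x ^ 2 + y ^ 2 + z ^ 2 ≤ 2 / 25 := by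
  have hx2 := abs_sq_le hx
  have hy2 := abs_sq_le hy
  have hz2 := abs_sq_le hz
  have ez : z = -(x + y) := by linarith
  have ey : y = -(x + z) := by linarith
  have ex : x = -(y + z) := by linarith
  rcases eq_or_ne x 0 with h8 | h8
  · have : x ^ 2 = 0 := by rw [h8]; norm_num
    norm_num at hy2 hz2
    linarith
  norm_num at hx2 hy2 hz2
  rcases le_total 0 (x * y) with h1 | h1
  · have : z ^ 2 = x ^ 2 + y ^ 2 + 2 * (x * y) := by rw [ez]; ring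
    linarith
  · rcases le_total 0 (x * z) with h2 | h2
    · have : y ^ 2 = x ^ 2 + z ^ 2 + 2 * (x * z) := by rw [ey]; ring
      linarith
    · have : x ^ 2 = y ^ 2 + z ^ 2 + 2 * (y * z) := by rw [ex]; ring
      have h3 : 0 ≤ y * z := by
        have h4 : x ^ 2 = -(x * y) - x * z := by
          have : x * (x + y + z) = 0 := by rw [h, mul_zero]
          linarith
        by_contra h5
        push Not at h5
        have h6 : 0 ≤ (x * y) * (x * z) := mul_nonneg_of_nonpos_of_nonpos h1 h2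
        have h7 : (x * y) * (x * z) = x ^ 2 * (y * z) := by ring
        have h9 : 0 < x ^ 2 := by positivity
        have h10 := mul_neg_of_pos_of_neg h9 h5
        linarith
      linarith

end LocIAux

theorem local_ineq {x0 x1 x2 f0 f1 f2 q D : ℝ} (hx : x0 + x1 + x2 = 0)
    (h0 : |x0| / 2 + |f0| ≤ 1 / 10) (h1 : |x1| / 2 + |f1| ≤ 1 / 10)
    (h2 : |x2| / 2 + |f2| ≤ 1 / 10)
    (hD : D = (1 + x0) * (1 + x1) * (1 + x2) + 2 * f0 * f1 * f2 - (1 + x0) * f0 ^ 2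
      - (1 + x1) * f1 ^ 2 - (1 + x2) * f2 ^ 2) (hq : 0 < q) (hqD : q ^ 3 * D = 1) :
    6 + 42 / 100 * (q - 1) ≤ D ^ 2 * (((1 - x2 / 2 + f2) ^ 6)⁻¹ + ((1 - x2 / 2 - f2) ^ 6)⁻¹
      + ((1 - x1 / 2 - f1) ^ 6)⁻¹ + ((1 - x1 / 2 + f1) ^ 6)⁻¹ + ((1 - x0 / 2 + f0) ^ 6)⁻¹
      + ((1 - x0 / 2 - f0) ^ 6)⁻¹) := by
  have x0a : |x0| ≤ 1 / 5 := by linarith [abs_nonneg f0]
  have x1a : |x1| ≤ 1 / 5 := by linarith [abs_nonneg f1]
  have x2a : |x2| ≤ 1 / 5 := by linarith [abs_nonneg f2]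
  have f0a : |f0| ≤ 1 / 10 := by linarith [abs_nonneg x0]
  have f1a : |f1| ≤ 1 / 10 := by linarith [abs_nonneg x1]
  have f2a : |f2| ≤ 1 / 10 := by linarith [abs_nonneg x2]
  have f0s := LocIAux.abs_sq_le f0a
  have f1s := LocIAux.abs_sq_le f1a
  have f2s := LocIAux.abs_sq_le f2a
  obtain ⟨a, ha⟩ : ∃ a, a = x0 ^ 2 + x1 ^ 2 + x2 ^ 2 := ⟨_, rfl⟩
  obtain ⟨b, hb⟩ : ∃ b, b = f0 ^ 2 + f1 ^ 2 + f2 ^ 2 := ⟨_, rfl⟩
  have ha2 : a ≤ 2 / 25 := by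
    rw [ha]
    exact LocIAux.a_bound hx x0a x1a x2a
  have ha0 : 0 ≤ a := by rw [ha]; positivity
  have hb0 : 0 ≤ b := by rw [hb]; positivity
  have hb2 : b ≤ 3 / 100 := by linarith
  have e3 := abs_le.1 (LocIAux.prod_bound (by norm_num) x0a x1a x2a)
  rw [← ha] at e3
  have g3 := abs_le.1 (LocIAux.prod_bound (by norm_num) f0a f1a f2a)
  rw [← hb] at g3
  have m0 : -(1 / 5 * f0 ^ 2) ≤ x0 * f0 ^ 2 ∧ x0 * f0 ^ 2 ≤ 1 / 5 * f0 ^ 2 :=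
    LocIAux.mul_sq_bound x0a
  have m1 : -(1 / 5 * f1 ^ 2) ≤ x1 * f1 ^ 2 ∧ x1 * f1 ^ 2 ≤ 1 / 5 * f1 ^ 2 :=
    LocIAux.mul_sq_bound x1a
  have m2 : -(1 / 5 * f2 ^ 2) ≤ x2 * f2 ^ 2 ∧ x2 * f2 ^ 2 ≤ 1 / 5 * f2 ^ 2 :=
    LocIAux.mul_sq_bound x2a
  obtain ⟨u, hu⟩ : ∃ u, u = 1 - D := ⟨_, rfl⟩
  have hDu : D = 1 - u := by linarith
  have hid : u = a / 2 + b - x0 * x1 * x2 - 2 * (f0 * f1 * f2) + (x0 * f0 ^ 2 + x1 * f1 ^ 2
      + x2 * f2 ^ 2) := by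
    have e : x2 = -(x0 + x1) := by linarith
    rw [hu, hD, ha, hb, e]
    ring
  have hu0 : 0 ≤ u := by linarith [e3.2, g3.2, m0.1, m1.1, m2.1]
  have huU : u ≤ 17 / 30 * a + 19 / 15 * b := by linarith [e3.1, g3.1, m0.2, m1.2, m2.2]
  have hu1 : u ≤ 1 / 12 := by linarith
  -- the six inverse powers
  have k0 := abs_le.1 (le_refl |x0|)
  have k1 := abs_le.1 (le_refl |x1|)
  have k2 := abs_le.1 (le_refl |x2|)
  have l0 := abs_le.1 (le_refl |f0|)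
  have l1 := abs_le.1 (le_refl |f1|)
  have l2 := abs_le.1 (le_refl |f2|)
  have i1 := LocIAux.inv_bound (z := -x2 / 2 + f2) (by linarith [k2.1, k2.2, l2.1, l2.2])
    (by linarith [k2.1, k2.2, l2.1, l2.2])
  have i2 := LocIAux.inv_bound (z := -x2 / 2 - f2) (by linarith [k2.1, k2.2, l2.1, l2.2])
    (by linarith [k2.1, k2.2, l2.1, l2.2])
  have i3 := LocIAux.inv_bound (z := -x1 / 2 - f1) (by linarith [k1.1, k1.2, l1.1, l1.2])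
    (by linarith [k1.1, k1.2, l1.1, l1.2])
  have i4 := LocIAux.inv_bound (z := -x1 / 2 + f1) (by linarith [k1.1, k1.2, l1.1, l1.2])
    (by linarith [k1.1, k1.2, l1.1, l1.2])
  have i5 := LocIAux.inv_bound (z := -x0 / 2 + f0) (by linarith [k0.1, k0.2, l0.1, l0.2])
    (by linarith [k0.1, k0.2, l0.1, l0.2])
  have i6 := LocIAux.inv_bound (z := -x0 / 2 - f0) (by linarith [k0.1, k0.2, l0.1, l0.2])
    (by linarith [k0.1, k0.2, l0.1, l0.2])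
  have j1 : 1 + (-x2 / 2 + f2) = 1 - x2 / 2 + f2 := by ring
  have j2 : 1 + (-x2 / 2 - f2) = 1 - x2 / 2 - f2 := by ring
  have j3 : 1 + (-x1 / 2 - f1) = 1 - x1 / 2 - f1 := by ring
  have j4 : 1 + (-x1 / 2 + f1) = 1 - x1 / 2 + f1 := by ring
  have j5 : 1 + (-x0 / 2 + f0) = 1 - x0 / 2 + f0 := by ring
  have j6 : 1 + (-x0 / 2 - f0) = 1 - x0 / 2 - f0 := by ring
  rw [j1] at i1
  rw [j2] at i2
  rw [j3] at i3
  rw [j4] at i4
  rw [j5] at i5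
  rw [j6] at i6
  obtain ⟨S, hS⟩ : ∃ S, S = ((1 - x2 / 2 + f2) ^ 6)⁻¹ + ((1 - x2 / 2 - f2) ^ 6)⁻¹
      + ((1 - x1 / 2 - f1) ^ 6)⁻¹ + ((1 - x1 / 2 + f1) ^ 6)⁻¹ + ((1 - x0 / 2 + f0) ^ 6)⁻¹
      + ((1 - x0 / 2 - f0) ^ 6)⁻¹ := ⟨_, rfl⟩
  rw [← hS]
  have hS6 : 6 + 77 / 10 * a + 154 / 5 * b ≤ S := by
    have e : (1 - 6 * (-x2 / 2 + f2) + 77 / 5 * (-x2 / 2 + f2) ^ 2)
        + (1 - 6 * (-x2 / 2 - f2) + 77 / 5 * (-x2 / 2 - f2) ^ 2)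
        + (1 - 6 * (-x1 / 2 - f1) + 77 / 5 * (-x1 / 2 - f1) ^ 2)
        + (1 - 6 * (-x1 / 2 + f1) + 77 / 5 * (-x1 / 2 + f1) ^ 2)
        + (1 - 6 * (-x0 / 2 + f0) + 77 / 5 * (-x0 / 2 + f0) ^ 2)
        + (1 - 6 * (-x0 / 2 - f0) + 77 / 5 * (-x0 / 2 - f0) ^ 2)
        = 6 + 6 * (x0 + x1 + x2) + 77 / 10 * a + 154 / 5 * b := by
      rw [ha, hb]
      ring
    rw [hx] at e
    rw [hS]
    linarith
  -- the determinant
  have hD2 : 1 - 2 * (17 / 30 * a + 19 / 15 * b) ≤ D ^ 2 := by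
    have e : D ^ 2 = 1 - 2 * u + u ^ 2 := by rw [hDu]; ring
    rw [e]
    linarith [sq_nonneg u]
  have hq1 : q ≤ 1 + 36 / 100 * u := by
    by_contra hcon
    push Not at hcon
    have hDpos : 0 < 1 - u := by linarith
    have h3 : (1 + 36 / 100 * u) ^ 3 < q ^ 3 := pow_lt_pow_left₀ hcon (by linarith) (by norm_num)
    have h4 : (1 + 36 / 100 * u) ^ 3 * (1 - u) < q ^ 3 * (1 - u) :=
      mul_lt_mul_of_pos_right h3 hDpos
    rw [hDu] at hqD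
    rw [hqD] at h4
    exact absurd (LocIAux.poly_bound hu0 hu1) (not_le.2 h4)
  have hfac : 0 ≤ 6 + 77 / 10 * a + 154 / 5 * b := by linarith
  have h8 : (1 - 2 * (17 / 30 * a + 19 / 15 * b)) * (6 + 77 / 10 * a + 154 / 5 * b) ≤ D ^ 2 * S :=
    mul_le_mul hD2 hS6 hfac (sq_nonneg D)
  have h9 : a * a ≤ 2 / 25 * a := mul_le_mul_of_nonneg_right ha2 ha0
  have h10 : a * b ≤ 2 / 25 * b := mul_le_mul_of_nonneg_right ha2 hb0
  have h11 : b * b ≤ 3 / 100 * b := mul_le_mul_of_nonneg_right hb2 hb0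
  have h12 : (1 - 2 * (17 / 30 * a + 19 / 15 * b)) * (6 + 77 / 10 * a + 154 / 5 * b)
      = 6 + 9 / 10 * a + 78 / 5 * b - (1309 / 150 * (a * a) + 4081 / 75 * (a * b)
        + 5852 / 75 * (b * b)) := by ring
  linarith

end Pool.Agent.Lib.FCC
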