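import Pool.Agent.Lib.FCC.Defs

/-!
# Module FCC.Cover: the six root cones cover the reduced domain

Domain: `0 ≤ l 0`, `l 0 ≤ l i` for all `i`, `l i ≤ l 2` for `i = 3, 4, 5`. The root cone number `k`
(FCC.Defs `root`) belongs to an order `x_a ≥ x_b ≥ x_c` of `l 3, l 4, l 5`:
`k=0: (a,b,c) = (3,4,5)`, `1: (3,5,4)`, `2: (4,3,5)`, `3: (4,5,3)`, `4: (5,3,4)`, `5: (5,4,3)`.
With `x_i = l i`: `l = x0 (1,1,1,1,1,1) + (x1 - x0) e1 + (x2 - x_a) e2 + (x_a - x_b)(e2 + e_a)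
+ (x_b - x_c)(e2 + e_a + e_b) + (x_c - x0)(e2 + e3 + e4 + e5)`, and the vertices of the root cone are
`2`, `12`, `12`, `6`, `4`, `3` times these six vectors. So the coefficients are
`x0/2, (x1-x0)/12, (x2-x_a)/12, (x_a-x_b)/6, (x_b-x_c)/4, (x_c-x0)/3`, all `≥ 0`.
-/

namespace Pool.Agent.Lib.FCC

/-- the six coefficients -/
private noncomputable def cf (x0 x1 x2 xa xb xc : ℝ) : Fin 6 → ℝ
  | 0 => x0 / 2
  | 1 => (x1 - x0) / 12
  | 2 => (x2 - xa) / 12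
  | 3 => (xa - xb) / 6
  | 4 => (xb - xc) / 4
  | 5 => (xc - x0) / 3

private theorem cf_nonneg {x0 x1 x2 xa xb xc : ℝ} (h0 : 0 ≤ x0) (h1 : x0 ≤ x1) (h2 : xa ≤ x2)
    (h3 : xb ≤ xa) (h4 : xc ≤ xb) (h5 : x0 ≤ xc) (k : Fin 6) : 0 ≤ cf x0 x1 x2 xa xb xc k := by
  fin_cases k <;> simp only [cf] <;> linarith

theorem root_cover (l : Fin 6 → ℝ) (h0 : 0 ≤ l 0) (h1 : ∀ i, l 0 ≤ l i)
    (h3 : l 3 ≤ l 2) (h4 : l 4 ≤ l 2) (h5 : l 5 ≤ l 2) : ∃ k : ℕ, k < 6 ∧ (root k).mem l := by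
  rcases le_total (l 4) (l 3) with a | a <;> rcases le_total (l 5) (l 3) with b | b <;>
    rcases le_total (l 5) (l 4) with c | c
  · refine ⟨0, by norm_num, cf (l 0) (l 1) (l 2) (l 3) (l 4) (l 5),
      cf_nonneg h0 (h1 1) h3 a c (h1 5), fun i => ?_⟩
    fin_cases i <;> simp [cf, root, V.re] <;> ring
  · refine ⟨1, by norm_num, cf (l 0) (l 1) (l 2) (l 3) (l 5) (l 4),
      cf_nonneg h0 (h1 1) h3 b c (h1 4), fun i => ?_⟩
    fin_cases i <;> simp [cf, root, V.re] <;> ring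
  · refine ⟨0, by norm_num, cf (l 0) (l 1) (l 2) (l 3) (l 4) (l 5),
      cf_nonneg h0 (h1 1) h3 a c (h1 5), fun i => ?_⟩
    fin_cases i <;> simp [cf, root, V.re] <;> ring
  · refine ⟨4, by norm_num, cf (l 0) (l 1) (l 2) (l 5) (l 3) (l 4),
      cf_nonneg h0 (h1 1) h5 b a (h1 4), fun i => ?_⟩
    fin_cases i <;> simp [cf, root, V.re] <;> ring
  · refine ⟨2, by norm_num, cf (l 0) (l 1) (l 2) (l 4) (l 3) (l 5),
      cf_nonneg h0 (h1 1) h4 a b (h1 5), fun i => ?_⟩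
    fin_cases i <;> simp [cf, root, V.re] <;> ring
  · refine ⟨5, by norm_num, cf (l 0) (l 1) (l 2) (l 5) (l 4) (l 3),
      cf_nonneg h0 (h1 1) h5 c a (h1 3), fun i => ?_⟩
    fin_cases i <;> simp [cf, root, V.re] <;> ring
  · refine ⟨3, by norm_num, cf (l 0) (l 1) (l 2) (l 4) (l 5) (l 3),
      cf_nonneg h0 (h1 1) h4 c b (h1 3), fun i => ?_⟩
    fin_cases i <;> simp [cf, root, V.re] <;> ring
  · refine ⟨5, by norm_num, cf (l 0) (l 1) (l 2) (l 5) (l 4) (l 3),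
      cf_nonneg h0 (h1 1) h5 c a (h1 3), fun i => ?_⟩
    fin_cases i <;> simp [cf, root, V.re] <;> ring

end Pool.Agent.Lib.FCC
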