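import Pool.Agent.Lib.FCC.Base

/-!
# Module FCC.Sell: existence of an obtuse superbase

Every positive definite ternary form `Q` is integrally equivalent to `formOf l` with `l ≥ 0`.

Proof (Selling). For an integral matrix `U` with `IsUnit U.det` put `W = act U Q` and
`h(U) = W 0 0 + W 1 1 + W 2 2 + ∑_{i,j} W i j = ∑_{k=1}^4 q(u_k)` with `u_k` the columns,
`u_4 = -(u_1+u_2+u_3)`, `q = qf Q`. `h` attains its minimum: `h(1) = c₀`; if `h(U) ≤ c₀` then every
column is a nonzero vector with `qf Q ≤ c₀`; by `finite_level hQ c₀` (EpZ/Defs) only finitely many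
vectors, so finitely many such `U`; take the minimum over this finite nonempty set
(`Set.exists_min_image`). Let `U` be a minimiser, `W = act U Q` (PD, symmetric). With
`V` the matrix with columns `-e1, e2, e1+e3` (so that `u₁,u₂,u₃,u₄` becomes
`-u₁, u₂, u₁+u₃, u₁+u₄`), `h(U V) = h(U) - 2 B(u₁,u₂)`, `B(u₁,u₂) = W 0 1`; so `W 0 1 ≤ 0`.
In the same way for the six pairs (the two vectors outside the pair get `u_i` added, `u_i` changes
its sign):
* pair 12: columns `-e1, e2, e1+e3`;   * pair 13: columns `-e1, e1+e2, e3`;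
* pair 23: columns `e1+e2, -e2, e3`;   * pair 14: columns `-e1, e1+e2, e1+e3`
  (new fourth vector `-(e1+e2+e3) + ... = u₄`);
* pair 24: columns `e1+e2, -e2, e2+e3`; * pair 34: columns `e1+e3, e2+e3, -e3`.
`h(UV) = h(U) - 2 B(u_i, u_j)` in each case, where `B(u_i,u_4) = -∑_j W i j`. Hence
`l0 = -W 0 1, l2 = -W 0 2, l5 = -W 1 2, l4 = ∑_j W 0 j, l3 = ∑_j W 1 j, l1 = ∑_j W 2 j` are `≥ 0`, and
`W = formOf l` by symmetry of `W`. (`act_act` in EpZ/Inv: `act V (act U Q) = act (U*V) Q`, and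
`act V W` is computed by `Matrix.mul_apply`, `Fin.sum_univ_three`.)
-/

open Matrix
open scoped Matrix.Norms.Elementwise

namespace Pool.Agent.Lib.FCC

open Pool.Agent.Lib.EpZ

namespace SellAux

/-- the Selling function -/
def hh (W : Mx 3) : ℝ := W 0 0 + W 1 1 + W 2 2 + ∑ i, ∑ j, W i j

lemma qf_single (W : Mx 3) (j : Fin 3) : qf W (Pi.single j 1) = W j j := by
  unfold qf
  rw [qr_eq]
  fin_cases j <;> simp [rv, Fin.sum_univ_three]

lemma qf_ones (W : Mx 3) : qf W (fun _ => 1) = ∑ i, ∑ j, W i j := by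
  unfold qf
  rw [qr_eq]
  simp [rv]

lemma pd_act {U : Matrix (Fin 3) (Fin 3) ℤ} (hU : IsUnit U.det) {Q : Mx 3} (hQ : PD Q) :
    PD (act U Q) := Eqv.pd ⟨U, hU, rfl⟩ hQ

lemma diag_le {W : Mx 3} (hW : PD W) (j : Fin 3) : W j j ≤ hh W := by
  have h1 : ∀ j : Fin 3, 0 < W j j := by
    intro j
    rw [← qf_single W j]
    exact hW.pos ⟨Pi.single j 1, by
      intro h
      have := congrFun h j
      simp at this⟩
  have h2 : 0 < ∑ i, ∑ j, W i j := by
    rw [← qf_ones]
    exact hW.pos ⟨fun _ => 1, by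
      intro h
      have := congrFun h 0
      simp at this⟩
  have h3 := h1 0
  have h4 := h1 1
  have h5 := h1 2
  unfold hh
  fin_cases j
  · show W 0 0 ≤ _
    linarith
  · show W 1 1 ≤ _
    linarith
  · show W 2 2 ≤ _
    linarith

lemma col_ne {U : Matrix (Fin 3) (Fin 3) ℤ} (hU : IsUnit U.det) (j : Fin 3) :
    (fun i => U i j) ≠ 0 := by
  intro h
  have h0 : U.det = 0 := Matrix.det_eq_zero_of_column_eq_zero j (fun i => congrFun h i)
  rw [h0] at hU
  simp at hU

lemma col_qf (U : Matrix (Fin 3) (Fin 3) ℤ) (Q : Mx 3) (j : Fin 3) :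
    qf Q (fun i => U i j) = act U Q j j := by
  rw [← qf_single (act U Q) j, qf_act]
  congr 1
  funext i
  simp

lemma exists_minimiser {Q : Mx 3} (hQ : PD Q) : ∃ U : Matrix (Fin 3) (Fin 3) ℤ, IsUnit U.det ∧
    ∀ V : Matrix (Fin 3) (Fin 3) ℤ, IsUnit V.det → hh (act U Q) ≤ hh (act (U * V) Q) := by
  set S : Set (Fin 3 → ℤ) := Subtype.val '' {x : NZ 3 | qf Q x.1 ≤ hh Q} with hS
  have hSf : S.Finite := (finite_level hQ (hh Q)).image _
  set T : Set (Matrix (Fin 3) (Fin 3) ℤ) := {U | IsUnit U.det ∧ hh (act U Q) ≤ hh Q} with hT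
  have hTf : T.Finite := by
    have h1 : (Set.univ.pi fun _ : Fin 3 => S).Finite := Set.Finite.pi fun _ => hSf
    have h2 : Function.Injective (fun (U : Matrix (Fin 3) (Fin 3) ℤ) (j i : Fin 3) => U i j) := by
      intro U U' h
      ext i j
      exact congrFun (congrFun h j) i
    refine (h1.preimage h2.injOn).subset ?_
    intro U hU j _
    exact ⟨⟨fun i => U i j, col_ne hU.1 j⟩, by
      show qf Q (fun i => U i j) ≤ hh Q
      rw [col_qf]
      exact (diag_le (pd_act hU.1 hQ) j).trans hU.2, rfl⟩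
  have hTn : T.Nonempty := ⟨1, by simp, by rw [InvAux.act_one]⟩
  obtain ⟨U, hU, hmin⟩ := Set.exists_min_image T (fun U => hh (act U Q)) hTf hTn
  refine ⟨U, hU.1, fun V hV => ?_⟩
  by_cases h : hh (act (U * V) Q) ≤ hh Q
  · exact hmin (U * V) ⟨by rw [det_mul]; exact hU.1.mul hV, h⟩
  · exact hU.2.trans (not_le.1 h).le

lemma det_one {V : Matrix (Fin 3) (Fin 3) ℤ} (h : V.det = -1) : IsUnit V.det := by
  rw [h]
  exact isUnit_one.neg

end SellAux

open SellAux

theorem exists_superbase (Q : Mx 3) (hQ : PD Q) :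
    ∃ l : Fin 6 → ℝ, (∀ i, 0 ≤ l i) ∧ Eqv Q (formOf l) := by
  obtain ⟨U, hU, hmin⟩ := exists_minimiser hQ
  set W := act U Q with hW
  have hWp : PD W := pd_act hU hQ
  have hs : ∀ i j, W i j = W j i := fun i j => by
    have := congrFun (congrFun hWp.1 j) i
    simpa [Matrix.transpose_apply] using this
  have h10 := hs 1 0
  have h20 := hs 2 0
  have h21 := hs 2 1
  have key : ∀ V : Matrix (Fin 3) (Fin 3) ℤ, V.det = -1 → hh W ≤ hh (act V W) := by
    intro V hV
    rw [hW, InvAux.act_act]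
    exact hmin V (det_one hV)
  have k12 := key !![-1, 0, 1; 0, 1, 0; 0, 0, 1] (by simp [Matrix.det_fin_three])
  have k13 := key !![-1, 1, 0; 0, 1, 0; 0, 0, 1] (by simp [Matrix.det_fin_three])
  have k23 := key !![1, 0, 0; 1, -1, 0; 0, 0, 1] (by simp [Matrix.det_fin_three])
  have k14 := key !![-1, 1, 1; 0, 1, 0; 0, 0, 1] (by simp [Matrix.det_fin_three])
  have k24 := key !![1, 0, 0; 1, -1, 1; 0, 0, 1] (by simp [Matrix.det_fin_three])
  have k34 := key !![1, 0, 0; 0, 1, 0; 1, 1, -1] (by simp [Matrix.det_fin_three])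
  simp [hh, act, Matrix.mul_apply, Fin.sum_univ_three] at k12 k13 k23 k14 k24 k34
  refine ⟨![-W 0 1, W 2 0 + W 2 1 + W 2 2, -W 0 2, W 1 0 + W 1 1 + W 1 2, W 0 0 + W 0 1 + W 0 2,
    -W 1 2], ?_, U, hU, ?_⟩
  · intro i
    fin_cases i <;> simp <;> linarith
  · rw [← hW]
    ext i j
    fin_cases i <;> fin_cases j <;> simp [formOf] <;> linarith

end Pool.Agent.Lib.FCC
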