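import Pool.Agent.Lib.FCC.DetC

/-!
# Module FCC.ConeL: linear estimates on simplicial cones

A point of the cone `C` is `l = ∑ c_k v_k` with `c_k ≥ 0` (`Cone.mem`, FCC.Defs); the vertices
`v_k` (`V.re`) have nonnegative entries. `gg` is superadditive and homogeneous on vectors with
nonnegative entries (FCC.DetC: `gg_add`, `gg_smul`, `gg_nonneg`), hence
`∑ c_k gg v_k ≤ gg (∑ c_k v_k)`. The seven norms `nm l x` are linear in `l`.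

Proofs.
* `re_nonneg`: casts of natural numbers. `mem_nonneg`: sums of products of nonnegative numbers.
* `nm_comb`: `nm (∑ c_k v_k) x = ∑ c_k nm v_k x` (`fin_cases x`, unfold, `ring`).
* `cone_gg`: `T l = ∑_x c_x nm l x` satisfies `T l = ∑_k c_k T v_k ≤ ρ ∑_k c_k gg v_k ≤ ρ gg l`.
* `cone_lin`: the same without `gg`.
-/

namespace Pool.Agent.Lib.FCC

theorem re_nonneg (v : V) (i : Fin 6) : 0 ≤ v.re i := by
  rcases v with ⟨a, b, c, d, e, f⟩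
  fin_cases i
  · exact Nat.cast_nonneg a
  · exact Nat.cast_nonneg b
  · exact Nat.cast_nonneg c
  · exact Nat.cast_nonneg d
  · exact Nat.cast_nonneg e
  · exact Nat.cast_nonneg f

theorem mem_nonneg {C : Cone} {l : Fin 6 → ℝ} (h : C.mem l) (i : Fin 6) : 0 ≤ l i := by
  obtain ⟨c, hc, hl⟩ := h
  rw [hl i]
  have g0 := mul_nonneg (hc 0) (re_nonneg C.v0 i)
  have g1 := mul_nonneg (hc 1) (re_nonneg C.v1 i)
  have g2 := mul_nonneg (hc 2) (re_nonneg C.v2 i)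
  have g3 := mul_nonneg (hc 3) (re_nonneg C.v3 i)
  have g4 := mul_nonneg (hc 4) (re_nonneg C.v4 i)
  have g5 := mul_nonneg (hc 5) (re_nonneg C.v5 i)
  linarith

namespace ConeLAux

/-- the norms are linear -/
theorem nm_comb (l v0 v1 v2 v3 v4 v5 : Fin 6 → ℝ) (c : Fin 6 → ℝ)
    (hl : ∀ i, l i = c 0 * v0 i + c 1 * v1 i + c 2 * v2 i + c 3 * v3 i + c 4 * v4 i + c 5 * v5 i)
    (x : Fin 7) : nm l x = c 0 * nm v0 x + c 1 * nm v1 x + c 2 * nm v2 x + c 3 * nm v3 x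
      + c 4 * nm v4 x + c 5 * nm v5 x := by
  fin_cases x
  · change l 0 + l 2 + l 4 = c 0 * (v0 0 + v0 2 + v0 4) + c 1 * (v1 0 + v1 2 + v1 4)
      + c 2 * (v2 0 + v2 2 + v2 4) + c 3 * (v3 0 + v3 2 + v3 4) + c 4 * (v4 0 + v4 2 + v4 4)
      + c 5 * (v5 0 + v5 2 + v5 4)
    rw [hl 0, hl 2, hl 4]
    ring
  · change l 0 + l 5 + l 3 = c 0 * (v0 0 + v0 5 + v0 3) + c 1 * (v1 0 + v1 5 + v1 3)
      + c 2 * (v2 0 + v2 5 + v2 3) + c 3 * (v3 0 + v3 5 + v3 3) + c 4 * (v4 0 + v4 5 + v4 3)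
      + c 5 * (v5 0 + v5 5 + v5 3)
    rw [hl 0, hl 5, hl 3]
    ring
  · change l 2 + l 5 + l 1 = c 0 * (v0 2 + v0 5 + v0 1) + c 1 * (v1 2 + v1 5 + v1 1)
      + c 2 * (v2 2 + v2 5 + v2 1) + c 3 * (v3 2 + v3 5 + v3 1) + c 4 * (v4 2 + v4 5 + v4 1)
      + c 5 * (v5 2 + v5 5 + v5 1)
    rw [hl 2, hl 5, hl 1]
    ring
  · change l 4 + l 3 + l 1 = c 0 * (v0 4 + v0 3 + v0 1) + c 1 * (v1 4 + v1 3 + v1 1)
      + c 2 * (v2 4 + v2 3 + v2 1) + c 3 * (v3 4 + v3 3 + v3 1) + c 4 * (v4 4 + v4 3 + v4 1)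
      + c 5 * (v5 4 + v5 3 + v5 1)
    rw [hl 4, hl 3, hl 1]
    ring
  · change l 2 + l 3 + l 4 + l 5 = c 0 * (v0 2 + v0 3 + v0 4 + v0 5)
      + c 1 * (v1 2 + v1 3 + v1 4 + v1 5) + c 2 * (v2 2 + v2 3 + v2 4 + v2 5)
      + c 3 * (v3 2 + v3 3 + v3 4 + v3 5) + c 4 * (v4 2 + v4 3 + v4 4 + v4 5)
      + c 5 * (v5 2 + v5 3 + v5 4 + v5 5)
    rw [hl 2, hl 3, hl 4, hl 5]
    ring
  · change l 0 + l 1 + l 4 + l 5 = c 0 * (v0 0 + v0 1 + v0 4 + v0 5)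
      + c 1 * (v1 0 + v1 1 + v1 4 + v1 5) + c 2 * (v2 0 + v2 1 + v2 4 + v2 5)
      + c 3 * (v3 0 + v3 1 + v3 4 + v3 5) + c 4 * (v4 0 + v4 1 + v4 4 + v4 5)
      + c 5 * (v5 0 + v5 1 + v5 4 + v5 5)
    rw [hl 0, hl 1, hl 4, hl 5]
    ring
  · change l 0 + l 1 + l 2 + l 3 = c 0 * (v0 0 + v0 1 + v0 2 + v0 3)
      + c 1 * (v1 0 + v1 1 + v1 2 + v1 3) + c 2 * (v2 0 + v2 1 + v2 2 + v2 3)
      + c 3 * (v3 0 + v3 1 + v3 2 + v3 3) + c 4 * (v4 0 + v4 1 + v4 2 + v4 3)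
      + c 5 * (v5 0 + v5 1 + v5 2 + v5 3)
    rw [hl 0, hl 1, hl 2, hl 3]
    ring

/-- weighted sums of the norms are linear -/
theorem sum_comb (l v0 v1 v2 v3 v4 v5 : Fin 6 → ℝ) (c : Fin 6 → ℝ) (w : Fin 7 → ℝ)
    (hl : ∀ i, l i = c 0 * v0 i + c 1 * v1 i + c 2 * v2 i + c 3 * v3 i + c 4 * v4 i + c 5 * v5 i) :
    ∑ x, w x * nm l x = c 0 * ∑ x, w x * nm v0 x + c 1 * ∑ x, w x * nm v1 x
      + c 2 * ∑ x, w x * nm v2 x + c 3 * ∑ x, w x * nm v3 x + c 4 * ∑ x, w x * nm v4 x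
      + c 5 * ∑ x, w x * nm v5 x := by
  rw [Finset.mul_sum, Finset.mul_sum, Finset.mul_sum, Finset.mul_sum, Finset.mul_sum,
    Finset.mul_sum, ← Finset.sum_add_distrib, ← Finset.sum_add_distrib, ← Finset.sum_add_distrib,
    ← Finset.sum_add_distrib, ← Finset.sum_add_distrib]
  refine Finset.sum_congr rfl fun x _ => ?_
  rw [nm_comb l v0 v1 v2 v3 v4 v5 c hl x]
  ring

/-- superadditivity for six vectors -/
theorem gg_comb (v0 v1 v2 v3 v4 v5 : Fin 6 → ℝ) (c : Fin 6 → ℝ) (hc : ∀ k, 0 ≤ c k)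
    (h0 : ∀ i, 0 ≤ v0 i) (h1 : ∀ i, 0 ≤ v1 i) (h2 : ∀ i, 0 ≤ v2 i) (h3 : ∀ i, 0 ≤ v3 i)
    (h4 : ∀ i, 0 ≤ v4 i) (h5 : ∀ i, 0 ≤ v5 i) :
    c 0 * gg v0 + c 1 * gg v1 + c 2 * gg v2 + c 3 * gg v3 + c 4 * gg v4 + c 5 * gg v5
      ≤ gg (c 0 • v0 + c 1 • v1 + c 2 • v2 + c 3 • v3 + c 4 • v4 + c 5 • v5) := by
  have n0 : ∀ i, 0 ≤ (c 0 • v0) i := fun i => mul_nonneg (hc 0) (h0 i)
  have n1 : ∀ i, 0 ≤ (c 1 • v1) i := fun i => mul_nonneg (hc 1) (h1 i)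
  have n2 : ∀ i, 0 ≤ (c 2 • v2) i := fun i => mul_nonneg (hc 2) (h2 i)
  have n3 : ∀ i, 0 ≤ (c 3 • v3) i := fun i => mul_nonneg (hc 3) (h3 i)
  have n4 : ∀ i, 0 ≤ (c 4 • v4) i := fun i => mul_nonneg (hc 4) (h4 i)
  have n5 : ∀ i, 0 ≤ (c 5 • v5) i := fun i => mul_nonneg (hc 5) (h5 i)
  have m1 : ∀ i, 0 ≤ (c 0 • v0 + c 1 • v1) i := fun i => add_nonneg (n0 i) (n1 i)
  have m2 : ∀ i, 0 ≤ (c 0 • v0 + c 1 • v1 + c 2 • v2) i := fun i => add_nonneg (m1 i) (n2 i)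
  have m3 : ∀ i, 0 ≤ (c 0 • v0 + c 1 • v1 + c 2 • v2 + c 3 • v3) i :=
    fun i => add_nonneg (m2 i) (n3 i)
  have m4 : ∀ i, 0 ≤ (c 0 • v0 + c 1 • v1 + c 2 • v2 + c 3 • v3 + c 4 • v4) i :=
    fun i => add_nonneg (m3 i) (n4 i)
  have a1 := gg_add n0 n1
  have a2 := gg_add m1 n2
  have a3 := gg_add m2 n3
  have a4 := gg_add m3 n4
  have a5 := gg_add m4 n5
  rw [gg_smul h0 (hc 0), gg_smul h1 (hc 1)] at a1
  rw [gg_smul h2 (hc 2)] at a2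
  rw [gg_smul h3 (hc 3)] at a3
  rw [gg_smul h4 (hc 4)] at a4
  rw [gg_smul h5 (hc 5)] at a5
  linarith

end ConeLAux

/-- superadditivity on a simplicial cone -/
theorem cone_gg (C : Cone) (c : Fin 7 → ℝ) {ρ : ℝ} (hρ : 0 ≤ ρ)
    (h0 : ∑ x, c x * nm C.v0.re x ≤ ρ * gg C.v0.re)
    (h1 : ∑ x, c x * nm C.v1.re x ≤ ρ * gg C.v1.re)
    (h2 : ∑ x, c x * nm C.v2.re x ≤ ρ * gg C.v2.re)
    (h3 : ∑ x, c x * nm C.v3.re x ≤ ρ * gg C.v3.re)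
    (h4 : ∑ x, c x * nm C.v4.re x ≤ ρ * gg C.v4.re)
    (h5 : ∑ x, c x * nm C.v5.re x ≤ ρ * gg C.v5.re)
    {l : Fin 6 → ℝ} (hl : C.mem l) : ∑ x, c x * nm l x ≤ ρ * gg l := by
  obtain ⟨a, ha, hl⟩ := hl
  have e : l = a 0 • C.v0.re + a 1 • C.v1.re + a 2 • C.v2.re + a 3 • C.v3.re + a 4 • C.v4.re
      + a 5 • C.v5.re := by
    funext i
    rw [hl i]
    rfl
  have hg := ConeLAux.gg_comb C.v0.re C.v1.re C.v2.re C.v3.re C.v4.re C.v5.re a ha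
    (re_nonneg C.v0) (re_nonneg C.v1) (re_nonneg C.v2) (re_nonneg C.v3) (re_nonneg C.v4)
    (re_nonneg C.v5)
  rw [← e] at hg
  rw [ConeLAux.sum_comb l C.v0.re C.v1.re C.v2.re C.v3.re C.v4.re C.v5.re a c hl]
  have k := mul_le_mul_of_nonneg_left hg hρ
  have g0 := mul_le_mul_of_nonneg_left h0 (ha 0)
  have g1 := mul_le_mul_of_nonneg_left h1 (ha 1)
  have g2 := mul_le_mul_of_nonneg_left h2 (ha 2)
  have g3 := mul_le_mul_of_nonneg_left h3 (ha 3)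
  have g4 := mul_le_mul_of_nonneg_left h4 (ha 4)
  have g5 := mul_le_mul_of_nonneg_left h5 (ha 5)
  linarith

/-- linear inequalities on a simplicial cone -/
theorem cone_lin (C : Cone) (c : Fin 7 → ℝ)
    (h0 : 0 ≤ ∑ x, c x * nm C.v0.re x) (h1 : 0 ≤ ∑ x, c x * nm C.v1.re x)
    (h2 : 0 ≤ ∑ x, c x * nm C.v2.re x) (h3 : 0 ≤ ∑ x, c x * nm C.v3.re x)
    (h4 : 0 ≤ ∑ x, c x * nm C.v4.re x) (h5 : 0 ≤ ∑ x, c x * nm C.v5.re x)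
    {l : Fin 6 → ℝ} (hl : C.mem l) : 0 ≤ ∑ x, c x * nm l x := by
  obtain ⟨a, ha, hl⟩ := hl
  rw [ConeLAux.sum_comb l C.v0.re C.v1.re C.v2.re C.v3.re C.v4.re C.v5.re a c hl]
  have g0 := mul_nonneg (ha 0) h0
  have g1 := mul_nonneg (ha 1) h1
  have g2 := mul_nonneg (ha 2) h2
  have g3 := mul_nonneg (ha 3) h3
  have g4 := mul_nonneg (ha 4) h4
  have g5 := mul_nonneg (ha 5) h5
  linarith

end Pool.Agent.Lib.FCC
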