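import Pool.Agent.Lib.FCC.Defs

/-!
# Module FCC.Jen: the Jensen inequality of the certificates

Let `t_x ≥ 0`, `n_x > 0` (`x : Fin 7`), `S = ∑ t_x ^ 6 > 0`, `T = ∑ t_x ^ 7 n_x`. Then `T > 0` and
`S ^ 7 ≤ T ^ 6 * ∑_{t_x ≠ 0} n_x ^ (-6)`.

Proof. Put `u_x = t_x n_x`, `m = T / S > 0` (the mean of the `u_x` with weights `t_x ^ 6 / S`). For
`u > 0`: `u ^ (-6) ≥ m ^ (-6) (1 - 6 (u / m - 1)) = m ^ (-6) (7 - 6 u / m)` (with `w = u / m`: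
`1 ≥ w ^ 6 (7 - 6 w)` for `w > 0`, i.e. `6 w ^ 7 - 7 w ^ 6 + 1 ≥ 0`, which equals
`(w - 1) ^ 2 (6 w ^ 5 + 5 w ^ 4 + 4 w ^ 3 + 3 w ^ 2 + 2 w + 1)`). Multiply by `t_x ^ 6` and sum over
`x`: `∑_{t_x ≠ 0} n_x ^ (-6) = ∑_{t_x ≠ 0} t_x ^ 6 u_x ^ (-6) ≥ m ^ (-6) (7 S - 6 T / m) = m ^ (-6) S
= S ^ 7 / T ^ 6`.
-/

namespace Pool.Agent.Lib.FCC

namespace JenAux

lemma key (T w : ℝ) (hT : 0 < T) (hw : 0 < w) : w ^ 6 * (7 * T - 6 * w) ≤ T ^ 7 := by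
  have h : T ^ 7 - w ^ 6 * (7 * T - 6 * w) =
      (w - T) ^ 2 * (6 * w ^ 5 + 5 * w ^ 4 * T + 4 * w ^ 3 * T ^ 2 + 3 * w ^ 2 * T ^ 3
        + 2 * w * T ^ 4 + T ^ 5) := by ring
  have h2 : 0 ≤ (w - T) ^ 2 * (6 * w ^ 5 + 5 * w ^ 4 * T + 4 * w ^ 3 * T ^ 2 + 3 * w ^ 2 * T ^ 3
        + 2 * w * T ^ 4 + T ^ 5) := by positivity
  linarith

end JenAux

theorem jensen (t n : Fin 7 → ℝ) (ht : ∀ x, 0 ≤ t x) (hn : ∀ x, t x ≠ 0 → 0 < n x)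
    (hS : 0 < ∑ x, t x ^ 6) :
    0 < ∑ x, t x ^ 7 * n x ∧
    (∑ x, t x ^ 6) ^ 7 ≤ (∑ x, t x ^ 7 * n x) ^ 6 * ∑ x, if t x = 0 then 0 else (n x ^ 6)⁻¹ := by
  set S : ℝ := ∑ x, t x ^ 6 with hSdef
  set T : ℝ := ∑ x, t x ^ 7 * n x with hTdef
  have hterm : ∀ x, 0 ≤ t x ^ 7 * n x := by
    intro x
    by_cases h : t x = 0
    · rw [h]; simp
    · exact mul_nonneg (pow_nonneg (ht x) _) (hn x h).le
  have hT : 0 < T := by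
    obtain ⟨x, _, hx⟩ := Finset.exists_ne_zero_of_sum_ne_zero (ne_of_gt hS)
    have hx0 : t x ≠ 0 := by
      intro h
      apply hx
      rw [h]; simp
    have hx1 : 0 < t x := lt_of_le_of_ne (ht x) (Ne.symm hx0)
    have hpos : 0 < t x ^ 7 * n x := mul_pos (pow_pos hx1 _) (hn x hx0)
    exact lt_of_lt_of_le hpos
      (Finset.single_le_sum (f := fun x => t x ^ 7 * n x) (fun i _ => hterm i) (Finset.mem_univ x))
  refine ⟨hT, ?_⟩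
  have hpt : ∀ x, S ^ 6 * (7 * T * t x ^ 6 - 6 * S * (t x ^ 7 * n x)) ≤
      T ^ 7 * (if t x = 0 then 0 else (n x ^ 6)⁻¹) := by
    intro x
    by_cases h : t x = 0
    · rw [h]; simp
    · rw [if_neg h]
      have hx1 : 0 < t x := lt_of_le_of_ne (ht x) (Ne.symm h)
      have hn1 := hn x h
      have hk := JenAux.key T (S * (t x * n x)) hT (by positivity)
      rw [← div_eq_mul_inv, le_div_iff₀ (by positivity)]
      calc S ^ 6 * (7 * T * t x ^ 6 - 6 * S * (t x ^ 7 * n x)) * n x ^ 6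
          = (S * (t x * n x)) ^ 6 * (7 * T - 6 * (S * (t x * n x))) := by ring
        _ ≤ T ^ 7 := hk
  have hsum := Finset.sum_le_sum (s := Finset.univ) (fun x _ => hpt x)
  rw [← Finset.mul_sum, ← Finset.mul_sum, Finset.sum_sub_distrib, ← Finset.mul_sum,
    ← Finset.mul_sum, ← hSdef, ← hTdef] at hsum
  have h3 : T * S ^ 7 ≤ T * (T ^ 6 * ∑ x, if t x = 0 then 0 else (n x ^ 6)⁻¹) := by
    calc T * S ^ 7 = S ^ 6 * (7 * T * S - 6 * S * T) := by ring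
      _ ≤ _ := hsum
      _ = _ := by ring
  exact le_of_mul_le_mul_left h3 hT

end Pool.Agent.Lib.FCC
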