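import Pool.Agent.Lib.FCC.Defs

/-!
# Module FCC.VertS: the vertex checks in real numbers

Translation of the Boolean checks of FCC.Defs at a vertex `v : V` (six natural numbers) into real
inequalities for `v.re`. All proofs: `obtain ⟨a, b, c, d, e, f⟩ := v`, `simp` with the definitions
(`V.cert`, `V.lev`, `V.loc`, `V.two`, `V.lin`, `V.dt`, `nm`, `dt`, `V.re`, `S1`,
`Fin.sum_univ_seven`), `Nat.ble_eq`, `exact_mod_cast`, `push_cast`, `ring_nf` or `nlinarith`-free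
`linarith`. In `loc_vertex`, `S1 4 v.re` is the sum of the six norms with index `≠ 4`.
-/

namespace Pool.Agent.Lib.FCC

theorem dt_re (v : V) : ((v.dt : ℕ) : ℝ) = dt v.re := by
  obtain ⟨p, p', q, q', r, r'⟩ := v
  simp only [V.dt, dt, V.re]
  push_cast
  ring

theorem lin_re (v : V) (c0 c1 c2 c3 c4 c5 c6 : ℕ) :
    ((v.lin c0 c1 c2 c3 c4 c5 c6 : ℕ) : ℝ) = c0 * nm v.re 0 + c1 * nm v.re 1 + c2 * nm v.re 2
      + c3 * nm v.re 3 + c4 * nm v.re 4 + c5 * nm v.re 5 + c6 * nm v.re 6 := by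
  obtain ⟨p, p', q, q', r, r'⟩ := v
  simp only [V.lin, nm, V.re]
  push_cast
  ring

theorem cert_vertex (v : V) (Kn S4 c0 c1 c2 c3 c4 c5 c6 : ℕ)
    (h : v.cert Kn S4 c0 c1 c2 c3 c4 c5 c6 = true) :
    (Kn : ℝ) * (c0 * nm v.re 0 + c1 * nm v.re 1 + c2 * nm v.re 2 + c3 * nm v.re 3
      + c4 * nm v.re 4 + c5 * nm v.re 5 + c6 * nm v.re 6) ^ 6 ≤ S4 * dt v.re ^ 2 := by
  have h1 : Kn * V.lin v c0 c1 c2 c3 c4 c5 c6 ^ 6 ≤ S4 * V.dt v ^ 2 := Nat.le_of_ble_eq_true h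
  have h2 : ((Kn * V.lin v c0 c1 c2 c3 c4 c5 c6 ^ 6 : ℕ) : ℝ) ≤ ((S4 * V.dt v ^ 2 : ℕ) : ℝ) :=
    Nat.cast_le.mpr h1
  rw [Nat.cast_mul, Nat.cast_pow, Nat.cast_mul, Nat.cast_pow, lin_re, dt_re] at h2
  exact h2

theorem lev_vertex (v : V) (tn b4 b5 b6 : ℕ) (h : v.lev tn b4 b5 b6 = true) :
    1000000000 * (nm v.re 0 + nm v.re 1 + nm v.re 2 + nm v.re 3
      + b4 * nm v.re 4 + b5 * nm v.re 5 + b6 * nm v.re 6) ^ 3
      ≤ 432 * (1000 + (tn : ℝ)) ^ 3 * dt v.re := by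
  have h1 : 1000000000 * V.lin v 1 1 1 1 b4 b5 b6 ^ 3 ≤ 432 * (1000 + tn) ^ 3 * V.dt v :=
    Nat.le_of_ble_eq_true h
  have h2 : ((1000000000 * V.lin v 1 1 1 1 b4 b5 b6 ^ 3 : ℕ) : ℝ) ≤
      ((432 * (1000 + tn) ^ 3 * V.dt v : ℕ) : ℝ) := Nat.cast_le.mpr h1
  rw [Nat.cast_mul, Nat.cast_pow, Nat.cast_mul, Nat.cast_mul, Nat.cast_pow, Nat.cast_add, lin_re,
    dt_re] at h2
  simp only [Nat.cast_one, one_mul, Nat.cast_ofNat] at h2
  exact h2

theorem loc_vertex (v : V) (h : v.loc = true) (x : Fin 7) (hx : x ≠ 4) :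
    60 * nm v.re x ≤ 11 * S1 4 v.re ∧ 9 * S1 4 v.re ≤ 60 * nm v.re x := by
  obtain ⟨p, p', q, q', r, r'⟩ := v
  simp only [V.loc, V.two, Bool.and_eq_true, Nat.ble_eq] at h
  obtain ⟨⟨⟨⟨⟨h0, h1⟩, h2⟩, h3⟩, h5⟩, h6⟩ := h
  have hS : S1 4 (V.re ⟨p, p', q, q', r, r'⟩) =
      (((p + q + r) + (p + r' + q') + (q + r' + p') + (r + q' + p')
      + (p + p' + r + r') + (p + p' + q + q') : ℕ) : ℝ) := by
    rw [S1, Fin.sum_univ_seven]
    simp only [nm, V.re]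
    rw [if_neg (by decide), if_neg (by decide), if_neg (by decide), if_neg (by decide), if_pos trivial,
      if_neg (by decide), if_neg (by decide)]
    push_cast
    ring
  have key : ∀ (n s : ℕ), (60 * n ≤ 11 * s ∧ 9 * s ≤ 60 * n) →
      60 * (n : ℝ) ≤ 11 * (s : ℝ) ∧ 9 * (s : ℝ) ≤ 60 * (n : ℝ) := by
    intro n s hns
    exact ⟨by exact_mod_cast hns.1, by exact_mod_cast hns.2⟩
  rw [hS]
  fin_cases x
  · have h7 := key _ _ h0
    have h8 : nm (V.re ⟨p, p', q, q', r, r'⟩) 0 = ((p + q + r : ℕ) : ℝ) := by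
      simp only [nm, V.re]
      push_cast
      ring
    rw [← h8] at h7
    exact h7
  · have h7 := key _ _ h1
    have h8 : nm (V.re ⟨p, p', q, q', r, r'⟩) 1 = ((p + r' + q' : ℕ) : ℝ) := by
      simp only [nm, V.re]
      push_cast
      ring
    rw [← h8] at h7
    exact h7
  · have h7 := key _ _ h2
    have h8 : nm (V.re ⟨p, p', q, q', r, r'⟩) 2 = ((q + r' + p' : ℕ) : ℝ) := by
      simp only [nm, V.re]
      push_cast
      ring
    rw [← h8] at h7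
    exact h7
  · have h7 := key _ _ h3
    have h8 : nm (V.re ⟨p, p', q, q', r, r'⟩) 3 = ((r + q' + p' : ℕ) : ℝ) := by
      simp only [nm, V.re]
      push_cast
      ring
    rw [← h8] at h7
    exact h7
  · exact absurd rfl hx
  · have h7 := key _ _ h5
    have h8 : nm (V.re ⟨p, p', q, q', r, r'⟩) 5 = ((p + p' + r + r' : ℕ) : ℝ) := by
      simp only [nm, V.re]
      push_cast
      ring
    rw [← h8] at h7
    exact h7
  · have h7 := key _ _ h6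
    have h8 : nm (V.re ⟨p, p', q, q', r, r'⟩) 6 = ((p + p' + q + q' : ℕ) : ℝ) := by
      simp only [nm, V.re]
      push_cast
      ring
    rw [← h8] at h7
    exact h7

theorem all_iff (C : Cone) (f : V → Bool) : C.all f = true ↔
    f C.v0 = true ∧ f C.v1 = true ∧ f C.v2 = true ∧ f C.v3 = true ∧ f C.v4 = true ∧
      f C.v5 = true := by
  obtain ⟨v0, v1, v2, v3, v4, v5⟩ := C
  simp only [Cone.all, Bool.and_eq_true]
  tauto

end Pool.Agent.Lib.FCC
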