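import Pool.Agent.Lib.FCC.ConeL
import Pool.Agent.Lib.FCC.VertS
import Pool.Agent.Lib.FCC.Jen

/-!
# Module FCC.CertS: soundness of the certificate leaves

Let `C.cert j lv t0 ... t6 = true` (FCC.Defs). Let `t : Fin 7 → ℝ` be the casts of `t0..t6`,
`S = ∑ t_x ^ 6 > 0`, `K = levK lv / 10000`. Then `j ∈ {4,5,6}`, `t_j = 0`. Let `l` be in the cone,
`dt l = 4`. Then `l ≥ 0` (`mem_nonneg`), `gg l ^ 3 = 4` (`gg_cube`).

(1) `K T(v)^6 ≤ 4 S^7 dt(v)^2` at the six vertices, `T(v) = ∑ t_x^7 nm v x` (`cert_vertex`, divide by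
10000). As `dt v = gg v ^ 3`: `T(v)^6 ≤ (4 S^7 / K) gg(v)^6`, so with `ρ = (4 S^7/K)^(1/6)` (`rpow`, or
any `ρ ≥ 0` with `ρ^6 = 4 S^7/K`) `T(v) ≤ ρ gg v` (`pow_le_pow_left₀`/`abs_le_of_sq_le`-type lemma
`le_of_pow_le_pow_left₀`: both sides `≥ 0`). `cone_gg` gives `T(l) ≤ ρ gg l`, so
`K T(l)^6 ≤ 4 S^7 gg(l)^6 = 64 S^7`.
(2) all norms `nm l x` with `t_x ≠ 0` are `> 0`: the norms are `≥ 0`, and if `nm l x = 0` for some
`x`, then `dt l = 0` (each `nm l x = 0` kills the three or four Selling parameters in it, and then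
`dt l = 0` by `simp`/`ring`), against `dt l = 4`. In fact all seven norms are `> 0`.
(3) `jensen`: `S^7 ≤ T^6 ∑_{t_x ≠ 0} n_x^(-6) ≤ T^6 S6 j l` as `t_j = 0`; so
`K T^6 ≤ 64 T^6 S6 j l`, and `T > 0`: `K ≤ 64 S6 j l`.
(4) If `7 ≤ lv` then `K = 6.07 ≥ 6 + 0.07 min 1 (..)`. If `lv ≤ 6`, then with `τ₀ = levT lv / 1000`
(`b_j = 0`, the other two `b = 1`) `lev_vertex` gives `(∑_{x≠j} n_x(v))^3 ≤ 432 (1+τ₀)^3 dt v
= (12 (1+τ₀) / 4^(1/3))^3 gg(v)^3`; with `κ ≥ 0`, `κ^3 = 432 (1+τ₀)^3`: `∑_{x≠j} n_x(v) ≤ κ gg v`, so by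
`cone_gg` `S1 j l ≤ κ gg l`, `(S1 j l)^3 ≤ 432 (1+τ₀)^3 * 4 = (12 (1+τ₀))^3`, `S1 j l / 12 - 1 ≤ τ₀`.
And `K = 6 + 0.42 τ₀` for `lv ≤ 6` (check the seven values: `levK lv = 60000 + 4.2 * levT lv`), so
`6 + 0.07 min 1 (6 τ) ≤ 6 + 0.42 τ₀ = K`.
So `GoodAt j l`.
-/

namespace Pool.Agent.Lib.FCC

/-- all seven norms of a nondegenerate obtuse superbase are positive -/
theorem nm_pos {l : Fin 6 → ℝ} (h : ∀ i, 0 ≤ l i) (hd : 0 < dt l) (x : Fin 7) : 0 < nm l x := by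
  have g0 := h 0
  have g1 := h 1
  have g2 := h 2
  have g3 := h 3
  have g4 := h 4
  have g5 := h 5
  by_contra hcon
  have hdz : dt l = 0 := by
    fin_cases x
    · have hc : ¬ (0 < l 0 + l 2 + l 4) := hcon
      have e0 : l 0 = 0 := by linarith
      have e2 : l 2 = 0 := by linarith
      have e4 : l 4 = 0 := by linarith
      simp only [dt, e0, e2, e4]
      ring
    · have hc : ¬ (0 < l 0 + l 5 + l 3) := hcon
      have e0 : l 0 = 0 := by linarith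
      have e2 : l 5 = 0 := by linarith
      have e4 : l 3 = 0 := by linarith
      simp only [dt, e0, e2, e4]
      ring
    · have hc : ¬ (0 < l 2 + l 5 + l 1) := hcon
      have e0 : l 2 = 0 := by linarith
      have e2 : l 5 = 0 := by linarith
      have e4 : l 1 = 0 := by linarith
      simp only [dt, e0, e2, e4]
      ring
    · have hc : ¬ (0 < l 4 + l 3 + l 1) := hcon
      have e0 : l 4 = 0 := by linarith
      have e2 : l 3 = 0 := by linarith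
      have e4 : l 1 = 0 := by linarith
      simp only [dt, e0, e2, e4]
      ring
    · have hc : ¬ (0 < l 2 + l 3 + l 4 + l 5) := hcon
      have e0 : l 2 = 0 := by linarith
      have e1 : l 3 = 0 := by linarith
      have e2 : l 4 = 0 := by linarith
      have e4 : l 5 = 0 := by linarith
      simp only [dt, e0, e1, e2, e4]
      ring
    · have hc : ¬ (0 < l 0 + l 1 + l 4 + l 5) := hcon
      have e0 : l 0 = 0 := by linarith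
      have e1 : l 1 = 0 := by linarith
      have e2 : l 4 = 0 := by linarith
      have e4 : l 5 = 0 := by linarith
      simp only [dt, e0, e1, e2, e4]
      ring
    · have hc : ¬ (0 < l 0 + l 1 + l 2 + l 3) := hcon
      have e0 : l 0 = 0 := by linarith
      have e1 : l 1 = 0 := by linarith
      have e2 : l 2 = 0 := by linarith
      have e4 : l 3 = 0 := by linarith
      simp only [dt, e0, e1, e2, e4]
      ring
  rw [hdz] at hd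
  exact lt_irrefl _ hd

namespace CertSAux

lemma root_exists (A : ℝ) (hA : 0 ≤ A) (n : ℕ) (hn : n ≠ 0) : ∃ r : ℝ, 0 ≤ r ∧ r ^ n = A := by
  refine ⟨A ^ ((1 : ℝ) / n), Real.rpow_nonneg hA _, ?_⟩
  rw [← Real.rpow_natCast, ← Real.rpow_mul hA]
  have h1 : (1 : ℝ) / n * n = 1 := by
    have : (n : ℝ) ≠ 0 := Nat.cast_ne_zero.mpr hn
    field_simp
  rw [h1, Real.rpow_one]

lemma vert1 (v : V) (t : Fin 7 → ℕ) (Kn : ℕ) (r : ℝ) (hr0 : 0 ≤ r) (hKn : 0 < (Kn : ℝ))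
    (hr : (Kn : ℝ) * r ^ 6 = 40000 * (∑ x, (t x : ℝ) ^ 6) ^ 7)
    (h : v.cert Kn (40000 * (t 0 ^ 6 + t 1 ^ 6 + t 2 ^ 6 + t 3 ^ 6 + t 4 ^ 6 + t 5 ^ 6
      + t 6 ^ 6) ^ 7) (t 0 ^ 7) (t 1 ^ 7) (t 2 ^ 7) (t 3 ^ 7) (t 4 ^ 7) (t 5 ^ 7) (t 6 ^ 7)
      = true) :
    ∑ x, (t x : ℝ) ^ 7 * nm v.re x ≤ r * gg v.re := by
  have h1 := cert_vertex v _ _ _ _ _ _ _ _ _ h
  push_cast at h1
  rw [Fin.sum_univ_seven] at hr ⊢
  have hg := gg_cube (re_nonneg v)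
  refine le_of_pow_le_pow_left₀ (n := 6) (by norm_num)
    (mul_nonneg hr0 (gg_nonneg (re_nonneg v))) ?_
  rw [mul_pow]
  have h2 : gg v.re ^ 6 = dt v.re ^ 2 := by rw [← hg]; ring
  rw [h2]
  refine le_of_mul_le_mul_left ?_ hKn
  rw [← mul_assoc, hr]
  exact h1

lemma vert2 (v : V) (tn b4 b5 b6 : ℕ) (b : Fin 7 → ℝ) (r : ℝ) (hr0 : 0 ≤ r)
    (hb0 : b 0 = 1) (hb1 : b 1 = 1) (hb2 : b 2 = 1) (hb3 : b 3 = 1) (hb4 : b 4 = b4)
    (hb5 : b 5 = b5) (hb6 : b 6 = b6)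
    (hr : 1000000000 * r ^ 3 = 432 * (1000 + (tn : ℝ)) ^ 3)
    (h : v.lev tn b4 b5 b6 = true) :
    ∑ x, b x * nm v.re x ≤ r * gg v.re := by
  have h1 := lev_vertex v _ _ _ _ h
  rw [Fin.sum_univ_seven, hb0, hb1, hb2, hb3, hb4, hb5, hb6]
  have hg := gg_cube (re_nonneg v)
  refine le_of_pow_le_pow_left₀ (n := 3) (by norm_num)
    (mul_nonneg hr0 (gg_nonneg (re_nonneg v))) ?_
  rw [mul_pow, hg]
  refine le_of_mul_le_mul_left ?_ (show (0 : ℝ) < 1000000000 by norm_num)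
  rw [← mul_assoc, hr]
  simpa only [one_mul] using h1

lemma levK_pos (lv : ℕ) : 0 < (levK lv : ℝ) := by
  have h : 0 < levK lv := by
    unfold levK
    split <;> norm_num
  exact_mod_cast h

/-- the first half: the lower bound for `64 * S6` -/
lemma bound6 (C : Cone) (J : Fin 7) (lv : ℕ) (t : Fin 7 → ℕ) (hJ : t J = 0)
    (hS : 0 < t 0 ^ 6 + t 1 ^ 6 + t 2 ^ 6 + t 3 ^ 6 + t 4 ^ 6 + t 5 ^ 6 + t 6 ^ 6)
    (hC : C.all (fun v => v.cert (levK lv) (40000 * (t 0 ^ 6 + t 1 ^ 6 + t 2 ^ 6 + t 3 ^ 6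
      + t 4 ^ 6 + t 5 ^ 6 + t 6 ^ 6) ^ 7) (t 0 ^ 7) (t 1 ^ 7) (t 2 ^ 7) (t 3 ^ 7) (t 4 ^ 7)
      (t 5 ^ 7) (t 6 ^ 7)) = true)
    {l : Fin 6 → ℝ} (hl : C.mem l) (hd : dt l = 4) :
    (levK lv : ℝ) / 10000 ≤ 64 * S6 J l := by
  have hl0 : ∀ i, 0 ≤ l i := mem_nonneg hl
  have hK := levK_pos lv
  have hSr : 0 < ∑ x, (t x : ℝ) ^ 6 := by
    rw [Fin.sum_univ_seven]
    exact_mod_cast hS
  obtain ⟨r, hr0, hr⟩ := root_exists (40000 * (∑ x, (t x : ℝ) ^ 6) ^ 7 / (levK lv : ℝ))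
    (by positivity) 6 (by norm_num)
  have hr2 : (levK lv : ℝ) * r ^ 6 = 40000 * (∑ x, (t x : ℝ) ^ 6) ^ 7 := by
    rw [hr]
    field_simp
  rw [all_iff] at hC
  obtain ⟨c0, c1, c2, c3, c4, c5⟩ := hC
  have hT : ∑ x, (t x : ℝ) ^ 7 * nm l x ≤ r * gg l :=
    cone_gg C (fun x => (t x : ℝ) ^ 7) hr0
      (vert1 C.v0 t (levK lv) r hr0 hK hr2 c0) (vert1 C.v1 t (levK lv) r hr0 hK hr2 c1)
      (vert1 C.v2 t (levK lv) r hr0 hK hr2 c2) (vert1 C.v3 t (levK lv) r hr0 hK hr2 c3)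
      (vert1 C.v4 t (levK lv) r hr0 hK hr2 c4) (vert1 C.v5 t (levK lv) r hr0 hK hr2 c5) hl
  have hdp : 0 < dt l := by rw [hd]; norm_num
  obtain ⟨hTp, hjen⟩ := jensen (fun x => (t x : ℝ)) (nm l) (fun x => Nat.cast_nonneg _)
    (fun x _ => nm_pos hl0 hdp x) hSr
  set T : ℝ := ∑ x, (t x : ℝ) ^ 7 * nm l x with hTdef
  set S : ℝ := ∑ x, (t x : ℝ) ^ 6 with hSdef
  have hsum : (∑ x, if (t x : ℝ) = 0 then 0 else (nm l x ^ 6)⁻¹) ≤ S6 J l := by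
    unfold S6
    refine Finset.sum_le_sum ?_
    intro x _
    have hnn : 0 ≤ (nm l x ^ 6)⁻¹ := inv_nonneg.mpr (pow_nonneg (nm_pos hl0 hdp x).le _)
    by_cases hx : x = J
    · rw [hx, hJ]
      simp
    · rw [if_neg hx]
      split
      · exact hnn
      · exact le_refl _
  have hT6 : 0 < T ^ 6 := pow_pos hTp 6
  have h1 : S ^ 7 ≤ T ^ 6 * S6 J l := le_trans hjen (mul_le_mul_of_nonneg_left hsum hT6.le)
  have h2 : T ^ 6 ≤ r ^ 6 * 16 := by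
    have h3 : T ^ 6 ≤ (r * gg l) ^ 6 := pow_le_pow_left₀ hTp.le hT 6
    have h4 : (r * gg l) ^ 6 = r ^ 6 * (gg l ^ 3) ^ 2 := by ring
    rw [h4, gg_cube hl0, hd] at h3
    linarith
  have h5 : (levK lv : ℝ) * T ^ 6 ≤ 640000 * S ^ 7 := by
    have h6 : (levK lv : ℝ) * T ^ 6 ≤ (levK lv : ℝ) * (r ^ 6 * 16) :=
      mul_le_mul_of_nonneg_left h2 hK.le
    have h7 : (levK lv : ℝ) * (r ^ 6 * 16) = 16 * ((levK lv : ℝ) * r ^ 6) := by ring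
    rw [h7, hr2] at h6
    linarith
  have h8 : (levK lv : ℝ) * T ^ 6 ≤ (640000 * S6 J l) * T ^ 6 := by
    have : 640000 * S ^ 7 ≤ 640000 * (T ^ 6 * S6 J l) := by linarith
    calc (levK lv : ℝ) * T ^ 6 ≤ 640000 * S ^ 7 := h5
      _ ≤ 640000 * (T ^ 6 * S6 J l) := this
      _ = (640000 * S6 J l) * T ^ 6 := by ring
  have h9 : (levK lv : ℝ) ≤ 640000 * S6 J l := le_of_mul_le_mul_right h8 hT6
  linarith

/-- the second half: the upper bound for the sum of the norms -/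
lemma bound1 (C : Cone) (J : Fin 7) (tn b4 b5 b6 : ℕ) (b : Fin 7 → ℝ)
    (hb0 : b 0 = 1) (hb1 : b 1 = 1) (hb2 : b 2 = 1) (hb3 : b 3 = 1) (hb4 : b 4 = b4)
    (hb5 : b 5 = b5) (hb6 : b 6 = b6) (hb : ∀ x, b x = if x = J then 0 else 1)
    (hC : C.all (fun v => v.lev tn b4 b5 b6) = true)
    {l : Fin 6 → ℝ} (hl : C.mem l) (hd : dt l = 4) :
    S1 J l / 12 - 1 ≤ (tn : ℝ) / 1000 := by
  have hl0 : ∀ i, 0 ≤ l i := mem_nonneg hl
  have htn : (0 : ℝ) ≤ tn := Nat.cast_nonneg _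
  obtain ⟨r, hr0, hr⟩ := root_exists (432 * (1000 + (tn : ℝ)) ^ 3 / 1000000000)
    (by positivity) 3 (by norm_num)
  have hr2 : 1000000000 * r ^ 3 = 432 * (1000 + (tn : ℝ)) ^ 3 := by
    rw [hr]
    ring
  rw [all_iff] at hC
  obtain ⟨c0, c1, c2, c3, c4, c5⟩ := hC
  have hT : ∑ x, b x * nm l x ≤ r * gg l :=
    cone_gg C b hr0
      (vert2 C.v0 tn b4 b5 b6 b r hr0 hb0 hb1 hb2 hb3 hb4 hb5 hb6 hr2 c0)
      (vert2 C.v1 tn b4 b5 b6 b r hr0 hb0 hb1 hb2 hb3 hb4 hb5 hb6 hr2 c1)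
      (vert2 C.v2 tn b4 b5 b6 b r hr0 hb0 hb1 hb2 hb3 hb4 hb5 hb6 hr2 c2)
      (vert2 C.v3 tn b4 b5 b6 b r hr0 hb0 hb1 hb2 hb3 hb4 hb5 hb6 hr2 c3)
      (vert2 C.v4 tn b4 b5 b6 b r hr0 hb0 hb1 hb2 hb3 hb4 hb5 hb6 hr2 c4)
      (vert2 C.v5 tn b4 b5 b6 b r hr0 hb0 hb1 hb2 hb3 hb4 hb5 hb6 hr2 c5) hl
  have hdp : 0 < dt l := by rw [hd]; norm_num
  have hS1 : ∑ x, b x * nm l x = S1 J l := by
    unfold S1
    refine Finset.sum_congr rfl ?_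
    intro x _
    rw [hb x]
    split <;> simp
  rw [hS1] at hT
  have hS0 : 0 ≤ S1 J l := by
    unfold S1
    refine Finset.sum_nonneg ?_
    intro x _
    split
    · exact le_refl _
    · exact (nm_pos hl0 hdp x).le
  have h1 : S1 J l ^ 3 ≤ (12 * (1000 + (tn : ℝ)) / 1000) ^ 3 := by
    have h2 : S1 J l ^ 3 ≤ (r * gg l) ^ 3 := pow_le_pow_left₀ hS0 hT 3
    rw [mul_pow, gg_cube hl0, hd] at h2
    have h3 : (12 * (1000 + (tn : ℝ)) / 1000) ^ 3 = r ^ 3 * 4 := by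
      rw [hr]
      ring
    rw [h3]
    exact h2
  have h4 : S1 J l ≤ 12 * (1000 + (tn : ℝ)) / 1000 :=
    le_of_pow_le_pow_left₀ (n := 3) (by norm_num) (by positivity) h1
  linarith

lemma levK_levT (lv : ℕ) (h : ¬ 7 ≤ lv) :
    6 + 7 / 100 * (6 * ((levT lv : ℝ) / 1000)) ≤ (levK lv : ℝ) / 10000 := by
  have hlt : lv < 7 := not_le.mp h
  interval_cases lv <;> norm_num [levT, levK]

lemma levK_ge (lv : ℕ) (h : 7 ≤ lv) : levK lv = 60700 := by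
  obtain ⟨k, rfl⟩ := Nat.exists_eq_add_of_le h
  rw [Nat.add_comm]
  rfl

/-- the common part of the three cases -/
lemma core (C : Cone) (J : Fin 7) (lv : ℕ) (t : Fin 7 → ℕ) (hJ : t J = 0)
    (hS : 0 < t 0 ^ 6 + t 1 ^ 6 + t 2 ^ 6 + t 3 ^ 6 + t 4 ^ 6 + t 5 ^ 6 + t 6 ^ 6)
    (hC : C.all (fun v => v.cert (levK lv) (40000 * (t 0 ^ 6 + t 1 ^ 6 + t 2 ^ 6 + t 3 ^ 6
      + t 4 ^ 6 + t 5 ^ 6 + t 6 ^ 6) ^ 7) (t 0 ^ 7) (t 1 ^ 7) (t 2 ^ 7) (t 3 ^ 7) (t 4 ^ 7)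
      (t 5 ^ 7) (t 6 ^ 7)) = true)
    (b4 b5 b6 : ℕ) (b : Fin 7 → ℝ)
    (hb0 : b 0 = 1) (hb1 : b 1 = 1) (hb2 : b 2 = 1) (hb3 : b 3 = 1) (hb4 : b 4 = b4)
    (hb5 : b 5 = b5) (hb6 : b 6 = b6) (hb : ∀ x, b x = if x = J then 0 else 1)
    (hlev : 7 ≤ lv ∨ C.all (fun v => v.lev (levT lv) b4 b5 b6) = true)
    {l : Fin 6 → ℝ} (hl : C.mem l) (hd : dt l = 4) : GoodAt J l := by
  have h6 := bound6 C J lv t hJ hS hC hl hd
  unfold GoodAt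
  refine le_trans ?_ h6
  by_cases h7 : 7 ≤ lv
  · rw [levK_ge lv h7]
    have := min_le_left (1 : ℝ) (6 * (S1 J l / 12 - 1))
    push_cast
    linarith
  · have hl1 := bound1 C J (levT lv) b4 b5 b6 b hb0 hb1 hb2 hb3 hb4 hb5 hb6 hb
      (hlev.resolve_left h7) hl hd
    have h8 := levK_levT lv h7
    have h9 := min_le_right (1 : ℝ) (6 * (S1 J l / 12 - 1))
    linarith

end CertSAux

open CertSAux in
theorem cert_sound (C : Cone) (j lv t0 t1 t2 t3 t4 t5 t6 : ℕ)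
    (h : C.cert j lv t0 t1 t2 t3 t4 t5 t6 = true) : C.ok := by
  intro l hl hd
  unfold Cone.cert at h
  simp only [Bool.and_eq_true] at h
  obtain ⟨⟨hS, hC⟩, hj⟩ := h
  have hS' : 0 < t0 ^ 6 + t1 ^ 6 + t2 ^ 6 + t3 ^ 6 + t4 ^ 6 + t5 ^ 6 + t6 ^ 6 := by
    exact Nat.le_of_ble_eq_true hS
  have key : ∀ (J : Fin 7) (b4 b5 b6 : ℕ) (b : Fin 7 → ℝ) (_ : ![t0, t1, t2, t3, t4, t5, t6] J = 0)
      (_ : b 0 = 1) (_ : b 1 = 1) (_ : b 2 = 1) (_ : b 3 = 1) (_ : b 4 = b4)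
      (_ : b 5 = b5) (_ : b 6 = b6) (_ : ∀ x, b x = if x = J then 0 else 1)
      (_ : 7 ≤ lv ∨ C.all (fun v => v.lev (levT lv) b4 b5 b6) = true), GoodAt J l := by
    intro J b4 b5 b6 b hJ hb0 hb1 hb2 hb3 hb4 hb5 hb6 hb hlev
    exact core C J lv ![t0, t1, t2, t3, t4, t5, t6] hJ hS' hC b4 b5 b6 b hb0 hb1 hb2 hb3 hb4 hb5
      hb6 hb hlev hl hd
  split at hj
  · simp only [Bool.and_eq_true, Bool.or_eq_true, Nat.ble_eq] at hj
    exact Or.inl (key 4 0 1 1 (fun x => if x = 4 then 0 else 1) (Nat.eq_of_beq_eq_true hj.1) (by norm_num [Fin.ext_iff])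
      (by norm_num [Fin.ext_iff]) (by norm_num [Fin.ext_iff]) (by norm_num [Fin.ext_iff])
      (by norm_num [Fin.ext_iff]) (by norm_num [Fin.ext_iff]) (by norm_num [Fin.ext_iff])
      (fun x => rfl) hj.2)
  · simp only [Bool.and_eq_true, Bool.or_eq_true, Nat.ble_eq] at hj
    exact Or.inr (Or.inl (key 5 1 0 1 (fun x => if x = 5 then 0 else 1) (Nat.eq_of_beq_eq_true hj.1)
      (by norm_num [Fin.ext_iff])
      (by norm_num [Fin.ext_iff]) (by norm_num [Fin.ext_iff]) (by norm_num [Fin.ext_iff])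
      (by norm_num [Fin.ext_iff]) (by norm_num [Fin.ext_iff]) (by norm_num [Fin.ext_iff])
      (fun x => rfl) hj.2))
  · simp only [Bool.and_eq_true, Bool.or_eq_true, Nat.ble_eq] at hj
    exact Or.inr (Or.inr (key 6 1 1 0 (fun x => if x = 6 then 0 else 1) (Nat.eq_of_beq_eq_true hj.1)
      (by norm_num [Fin.ext_iff])
      (by norm_num [Fin.ext_iff]) (by norm_num [Fin.ext_iff]) (by norm_num [Fin.ext_iff])
      (by norm_num [Fin.ext_iff]) (by norm_num [Fin.ext_iff]) (by norm_num [Fin.ext_iff])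
      (fun x => rfl) hj.2))
  · exact absurd hj (by simp)

end Pool.Agent.Lib.FCC
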