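import Mathlib

/-!
# Global minimality of the face-centred cubic lattice: basic definitions

Selling parameters of an obtuse superbase `v₁, v₂, v₃, v₄` of a ternary form are
`l 0 = λ₁₂`, `l 1 = λ₃₄`, `l 2 = λ₁₃`, `l 3 = λ₂₄`, `l 4 = λ₁₄`, `l 5 = λ₂₃`.
-/

namespace Pool.Agent.Lib.FCC

/-- the norms of `v₁, v₂, v₃, v₄, v₁+v₂, v₁+v₃, v₁+v₄` in terms of the Selling parameters -/
def nm (l : Fin 6 → ℝ) : Fin 7 → ℝ
  | 0 => l 0 + l 2 + l 4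
  | 1 => l 0 + l 5 + l 3
  | 2 => l 2 + l 5 + l 1
  | 3 => l 4 + l 3 + l 1
  | 4 => l 2 + l 3 + l 4 + l 5
  | 5 => l 0 + l 1 + l 4 + l 5
  | 6 => l 0 + l 1 + l 2 + l 3

/-- the determinant of the form in terms of the Selling parameters -/
def dt (l : Fin 6 → ℝ) : ℝ :=
  l 0 * l 1 * (l 2 + l 3 + l 4 + l 5) + l 2 * l 3 * (l 0 + l 1 + l 4 + l 5)
    + l 4 * l 5 * (l 0 + l 1 + l 2 + l 3)
    + l 0 * l 2 * l 4 + l 0 * l 5 * l 3 + l 2 * l 5 * l 1 + l 4 * l 3 * l 1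

/-- the sum of the six norms different from the one with index `j` -/
noncomputable def S1 (j : Fin 7) (l : Fin 6 → ℝ) : ℝ := ∑ x : Fin 7, if x = j then 0 else nm l x

/-- the sum of the inverse sixth powers of the six norms different from the one with index `j` -/
noncomputable def S6 (j : Fin 7) (l : Fin 6 → ℝ) : ℝ :=
  ∑ x : Fin 7, if x = j then 0 else ((nm l x) ^ 6)⁻¹

/-- the key inequality with excluded index `j`, for forms of determinant `4` -/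
def GoodAt (j : Fin 7) (l : Fin 6 → ℝ) : Prop :=
  6 + 7 / 100 * min 1 (6 * (S1 j l / 12 - 1)) ≤ 64 * S6 j l

/-- one of the three key inequalities holds -/
def Good (l : Fin 6 → ℝ) : Prop := GoodAt 4 l ∨ GoodAt 5 l ∨ GoodAt 6 l

/-! ### computable part -/

/-- six natural numbers -/
structure V where
  a : Nat
  b : Nat
  c : Nat
  d : Nat
  e : Nat
  f : Nat

/-- the vector of the Selling parameters as a real vector -/
def V.re (v : V) : Fin 6 → ℝ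
  | 0 => v.a
  | 1 => v.b
  | 2 => v.c
  | 3 => v.d
  | 4 => v.e
  | 5 => v.f

/-- a simplicial cone, given by six vectors -/
structure Cone where
  v0 : V
  v1 : V
  v2 : V
  v3 : V
  v4 : V
  v5 : V

/-- the points of the cone -/
def Cone.mem (C : Cone) (l : Fin 6 → ℝ) : Prop :=
  ∃ c : Fin 6 → ℝ, (∀ k, 0 ≤ c k) ∧ ∀ i, l i = c 0 * C.v0.re i + c 1 * C.v1.re i
    + c 2 * C.v2.re i + c 3 * C.v3.re i + c 4 * C.v4.re i + c 5 * C.v5.re i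

/-- all points of determinant `4` in the cone are good -/
def Cone.ok (C : Cone) : Prop := ∀ l, C.mem l → dt l = 4 → Good l

/-- the determinant -/
def V.dt : V → Nat
  | ⟨p, p', q, q', r, r'⟩ =>
    p * p' * (q + q' + r + r') + q * q' * (p + p' + r + r') + r * r' * (p + p' + q + q')
    + p * q * r + p * r' * q' + q * r' * p' + r * q' * p'

/-- the combination of two vectors -/
def V.comb (al be : Nat) : V → V → V
  | ⟨a, b, c, d, e, f⟩, ⟨a', b', c', d', e', f'⟩ =>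
    ⟨al * a + be * a', al * b + be * b', al * c + be * c', al * d + be * d',
      al * e + be * e', al * f + be * f'⟩

/-- weighted sum of the seven norms -/
def V.lin (v : V) (t0 t1 t2 t3 t4 t5 t6 : Nat) : Nat :=
  match v with
  | ⟨p, p', q, q', r, r'⟩ =>
    t0 * (p + q + r) + t1 * (p + r' + q') + t2 * (q + r' + p') + t3 * (r + q' + p')
    + t4 * (q + q' + r + r') + t5 * (p + p' + r + r') + t6 * (p + p' + q + q')

/-- the vertex inequality of a certificate: `Kn / 10000 * T ^ 6 ≤ 4 S ^ 7 dt ^ 2` -/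
def V.cert (v : V) (Kn S4 c0 c1 c2 c3 c4 c5 c6 : Nat) : Bool :=
  Nat.ble (Kn * V.lin v c0 c1 c2 c3 c4 c5 c6 ^ 6) (S4 * V.dt v ^ 2)

/-- the vertex inequality `(∑ n) ^ 3 ≤ 432 (1 + τ) ^ 3 dt` with `τ = tn / 1000` -/
def V.lev (v : V) (tn : Nat) (b4 b5 b6 : Nat) : Bool :=
  Nat.ble (1000000000 * V.lin v 1 1 1 1 b4 b5 b6 ^ 3) (432 * (1000 + tn) ^ 3 * V.dt v)

/-- one of the linear inequalities of a local leaf -/
def V.two (n s : Nat) : Bool := Nat.ble (60 * n) (11 * s) && Nat.ble (9 * s) (60 * n)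

/-- the conditions of a local leaf -/
def V.loc (v : V) : Bool :=
  match v with
  | ⟨p, p', q, q', r, r'⟩ =>
    let s := (p + q + r) + (p + r' + q') + (q + r' + p') + (r + q' + p')
      + (p + p' + r + r') + (p + p' + q + q')
    V.two (p + q + r) s && V.two (p + r' + q') s && V.two (q + r' + p') s
      && V.two (r + q' + p') s && V.two (p + p' + r + r') s && V.two (p + p' + q + q') s

/-- a property of all six vectors -/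
def Cone.all (C : Cone) (f : V → Bool) : Bool :=
  match C with
  | ⟨v0, v1, v2, v3, v4, v5⟩ => f v0 && f v1 && f v2 && f v3 && f v4 && f v5

/-- the vector number `i` -/
def Cone.get (C : Cone) (i : Nat) : V :=
  match C with
  | ⟨v0, v1, v2, v3, v4, v5⟩ =>
    match i with
    | 0 => v0
    | 1 => v1
    | 2 => v2
    | 3 => v3
    | 4 => v4
    | _ => v5

/-- replace the vector number `i` -/
def Cone.set (C : Cone) (i : Nat) (w : V) : Cone :=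
  match C with
  | ⟨v0, v1, v2, v3, v4, v5⟩ =>
    match i with
    | 0 => ⟨w, v1, v2, v3, v4, v5⟩
    | 1 => ⟨v0, w, v2, v3, v4, v5⟩
    | 2 => ⟨v0, v1, w, v3, v4, v5⟩
    | 3 => ⟨v0, v1, v2, w, v4, v5⟩
    | 4 => ⟨v0, v1, v2, v3, w, v5⟩
    | _ => ⟨v0, v1, v2, v3, v4, w⟩

/-- numerators of the constants `K` of the levels (denominator `10000`) -/
def levK : Nat → Nat
  | 0 => 60021
  | 1 => 60042
  | 2 => 60084
  | 3 => 60126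
  | 4 => 60210
  | 5 => 60336
  | 6 => 60504
  | _ => 60700

/-- numerators of the bounds `τ` of the levels (denominator `1000`) -/
def levT : Nat → Nat
  | 0 => 5
  | 1 => 10
  | 2 => 20
  | 3 => 30
  | 4 => 50
  | 5 => 80
  | _ => 120

/-- the check of a certificate leaf -/
def Cone.cert (C : Cone) (j lv t0 t1 t2 t3 t4 t5 t6 : Nat) : Bool :=
  let S := t0 ^ 6 + t1 ^ 6 + t2 ^ 6 + t3 ^ 6 + t4 ^ 6 + t5 ^ 6 + t6 ^ 6
  Nat.blt 0 S &&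
  C.all (fun v => v.cert (levK lv) (40000 * S ^ 7) (t0 ^ 7) (t1 ^ 7) (t2 ^ 7) (t3 ^ 7) (t4 ^ 7)
    (t5 ^ 7) (t6 ^ 7)) &&
  (match j with
    | 4 => Nat.beq t4 0 && (Nat.ble 7 lv || C.all fun v => v.lev (levT lv) 0 1 1)
    | 5 => Nat.beq t5 0 && (Nat.ble 7 lv || C.all fun v => v.lev (levT lv) 1 0 1)
    | 6 => Nat.beq t6 0 && (Nat.ble 7 lv || C.all fun v => v.lev (levT lv) 1 1 0)
    | _ => false)

/-- certificate trees -/
inductive Tr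
  | nd (i j a b : Nat) (l r : Tr)
  | lo
  | ce (j lv t0 t1 t2 t3 t4 t5 t6 : Nat)

/-- the check of a certificate tree -/
def Tr.chk : Tr → Cone → Bool
  | .nd i j a b l r, C =>
    let m := V.comb a b (C.get i) (C.get j)
    Nat.blt 0 a && Nat.blt 0 b && Nat.blt i 6 && Nat.blt j 6 && !Nat.beq i j
      && l.chk (C.set i m) && r.chk (C.set j m)
  | .lo, C => C.all V.loc
  | .ce j lv t0 t1 t2 t3 t4 t5 t6, C => C.cert j lv t0 t1 t2 t3 t4 t5 t6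

/-- the six root cones -/
def root : Nat → Cone
  | 0 => ⟨⟨2, 2, 2, 2, 2, 2⟩, ⟨0, 12, 0, 0, 0, 0⟩, ⟨0, 0, 12, 0, 0, 0⟩, ⟨0, 0, 6, 6, 0, 0⟩,
      ⟨0, 0, 4, 4, 4, 0⟩, ⟨0, 0, 3, 3, 3, 3⟩⟩
  | 1 => ⟨⟨2, 2, 2, 2, 2, 2⟩, ⟨0, 12, 0, 0, 0, 0⟩, ⟨0, 0, 12, 0, 0, 0⟩, ⟨0, 0, 6, 6, 0, 0⟩,
      ⟨0, 0, 4, 4, 0, 4⟩, ⟨0, 0, 3, 3, 3, 3⟩⟩
  | 2 => ⟨⟨2, 2, 2, 2, 2, 2⟩, ⟨0, 12, 0, 0, 0, 0⟩, ⟨0, 0, 12, 0, 0, 0⟩, ⟨0, 0, 6, 0, 6, 0⟩,
      ⟨0, 0, 4, 4, 4, 0⟩, ⟨0, 0, 3, 3, 3, 3⟩⟩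
  | 3 => ⟨⟨2, 2, 2, 2, 2, 2⟩, ⟨0, 12, 0, 0, 0, 0⟩, ⟨0, 0, 12, 0, 0, 0⟩, ⟨0, 0, 6, 0, 6, 0⟩,
      ⟨0, 0, 4, 0, 4, 4⟩, ⟨0, 0, 3, 3, 3, 3⟩⟩
  | 4 => ⟨⟨2, 2, 2, 2, 2, 2⟩, ⟨0, 12, 0, 0, 0, 0⟩, ⟨0, 0, 12, 0, 0, 0⟩, ⟨0, 0, 6, 0, 0, 6⟩,
      ⟨0, 0, 4, 4, 0, 4⟩, ⟨0, 0, 3, 3, 3, 3⟩⟩
  | _ => ⟨⟨2, 2, 2, 2, 2, 2⟩, ⟨0, 12, 0, 0, 0, 0⟩, ⟨0, 0, 12, 0, 0, 0⟩, ⟨0, 0, 6, 0, 0, 6⟩,
      ⟨0, 0, 4, 0, 4, 4⟩, ⟨0, 0, 3, 3, 3, 3⟩⟩

end Pool.Agent.Lib.FCC
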