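import Pool.Agent.Lib.FCC.ConeL
import Pool.Agent.Lib.FCC.VertS
import Pool.Agent.Lib.FCC.LocI

/-!
# Module FCC.LocS: soundness of the local leaves

Let `C.all V.loc = true`, `l` in the cone `C`, `dt l = 4`. By `loc_vertex` and `cone_lin` (the
conditions are linear in the norms; use `∑_x c_x nm v x` with suitable `c : Fin 7 → ℝ`, `S1 4 v` being
the sum of the six norms `≠ 4`), `60 nm l x ≤ 11 s` and `9 s ≤ 60 nm l x` for `x ≠ 4`, `s = S1 4 l`.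
`s > 0` (`s ≥ 0` as all `l i ≥ 0` by `mem_nonneg`; `s = 0` gives all `nm l x = 0`, `l = 0`, `dt l = 0`).
Put `m = s/12`, `x2 = 2 - (n0+n1)/(2m)`, `f2 = (n0-n1)/(4m)`, `x1 = 2 - (n2+n3)/(2m)`,
`f1 = (n3-n2)/(4m)`, `x0 = 2 - (n5+n6)/(2m)`, `f0 = (n5-n6)/(4m)` with `n_x = nm l x`. Then
`x0+x1+x2 = 6 - s/(2m) = 0`; `n0 = 2m(1 - x2/2 + f2)`, `n1 = 2m(1 - x2/2 - f2)`,
`n2 = 2m(1 - x1/2 - f1)`, `n3 = 2m(1 - x1/2 + f1)`, `n5 = 2m(1 - x0/2 + f0)`,
`n6 = 2m(1 - x0/2 - f0)`; the conditions say `|−x_k/2 ± f_k| ≤ 1/10`, i.e. `|x_k|/2+|f_k| ≤ 1/10`.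
Identity (`ring` after clearing denominators): `dt l = 4 m³ D` with `D` as in `local_ineq` (in terms of
`d0 = m(1+x0)`, ... : the form in D3-coordinates has diagonal `d`, off-diagonal `m f`; `dt l` is `4`
times its determinant; check: `d0+d1 = (n0+n1)/2`, `4 m f2 = n0 - n1`, ...). So `m³ D = 1`; take
`q = m` in `local_ineq`. Finally `64 S6 4 l = 64 (2m)^(-6) ∑ (..)^(-6) = m^(-6) ∑ = D² ∑`, and
`(7/100) min 1 (6 (m - 1)) ≤ (42/100)(m-1)`. So `GoodAt 4 l`.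
-/

namespace Pool.Agent.Lib.FCC

namespace LocSAux

lemma S1_eq (m : Fin 6 → ℝ) : S1 4 m = nm m 0 + nm m 1 + nm m 2 + nm m 3 + nm m 5 + nm m 6 := by
  simp [S1, Fin.sum_univ_seven]
  try ring

lemma comb_hi (x : Fin 7) (hx : x ≠ 4) (m : Fin 6 → ℝ) :
    ∑ y : Fin 7, ((if y = 4 then (0 : ℝ) else 11) - (if y = x then 60 else 0)) * nm m y
      = 11 * S1 4 m - 60 * nm m x := by
  rw [S1_eq]
  fin_cases x <;> simp [Fin.sum_univ_seven] at hx ⊢ <;> ring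

lemma comb_lo (x : Fin 7) (hx : x ≠ 4) (m : Fin 6 → ℝ) :
    ∑ y : Fin 7, ((if y = x then (60 : ℝ) else 0) - (if y = 4 then 0 else 9)) * nm m y
      = 60 * nm m x - 9 * S1 4 m := by
  rw [S1_eq]
  fin_cases x <;> simp [Fin.sum_univ_seven] at hx ⊢ <;> ring

lemma dt_poly (l : Fin 6 → ℝ) :
    dt l = 4 * ((S1 4 l / 4 - (nm l 5 + nm l 6) / 2) * (S1 4 l / 4 - (nm l 2 + nm l 3) / 2)
      * (S1 4 l / 4 - (nm l 0 + nm l 1) / 2)
      + 2 * ((nm l 5 - nm l 6) / 4) * ((nm l 3 - nm l 2) / 4) * ((nm l 0 - nm l 1) / 4)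
      - (S1 4 l / 4 - (nm l 5 + nm l 6) / 2) * ((nm l 5 - nm l 6) / 4) ^ 2
      - (S1 4 l / 4 - (nm l 2 + nm l 3) / 2) * ((nm l 3 - nm l 2) / 4) ^ 2
      - (S1 4 l / 4 - (nm l 0 + nm l 1) / 2) * ((nm l 0 - nm l 1) / 4) ^ 2) := by
  rw [S1_eq]
  simp only [nm, dt]
  ring

lemma abs_two {x f : ℝ} (h1 : -(1 / 10) ≤ -x / 2 + f) (h2 : -x / 2 + f ≤ 1 / 10)
    (h3 : -(1 / 10) ≤ -x / 2 - f) (h4 : -x / 2 - f ≤ 1 / 10) : |x| / 2 + |f| ≤ 1 / 10 := by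
  rcases abs_cases x with hx | hx <;> rcases abs_cases f with hf | hf <;> rw [hx.1, hf.1] <;>
    linarith

end LocSAux

open LocSAux in
theorem loc_sound (C : Cone) (h : C.all V.loc = true) : C.ok := by
  intro l hl hdt
  left
  obtain ⟨v0, v1, v2, v3, v4, v5⟩ := (all_iff C V.loc).1 h
  have hi : ∀ x : Fin 7, x ≠ 4 → 60 * nm l x ≤ 11 * S1 4 l := by
    intro x hx
    have := cone_lin C (fun y => (if y = 4 then (0 : ℝ) else 11) - (if y = x then 60 else 0))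
      (by rw [comb_hi x hx]; linarith [(loc_vertex _ v0 x hx).1])
      (by rw [comb_hi x hx]; linarith [(loc_vertex _ v1 x hx).1])
      (by rw [comb_hi x hx]; linarith [(loc_vertex _ v2 x hx).1])
      (by rw [comb_hi x hx]; linarith [(loc_vertex _ v3 x hx).1])
      (by rw [comb_hi x hx]; linarith [(loc_vertex _ v4 x hx).1])
      (by rw [comb_hi x hx]; linarith [(loc_vertex _ v5 x hx).1]) hl
    rw [comb_hi x hx] at this
    linarith
  have lo : ∀ x : Fin 7, x ≠ 4 → 9 * S1 4 l ≤ 60 * nm l x := by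
    intro x hx
    have := cone_lin C (fun y => (if y = x then (60 : ℝ) else 0) - (if y = 4 then 0 else 9))
      (by rw [comb_lo x hx]; linarith [(loc_vertex _ v0 x hx).2])
      (by rw [comb_lo x hx]; linarith [(loc_vertex _ v1 x hx).2])
      (by rw [comb_lo x hx]; linarith [(loc_vertex _ v2 x hx).2])
      (by rw [comb_lo x hx]; linarith [(loc_vertex _ v3 x hx).2])
      (by rw [comb_lo x hx]; linarith [(loc_vertex _ v4 x hx).2])
      (by rw [comb_lo x hx]; linarith [(loc_vertex _ v5 x hx).2]) hl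
    rw [comb_lo x hx] at this
    linarith
  have hn := mem_nonneg hl
  have hs0 : 0 ≤ S1 4 l := by
    rw [S1_eq]
    simp only [nm]
    have h0 := hn 0; have h1 := hn 1; have h2 := hn 2; have h3 := hn 3; have h4 := hn 4
    have h5 := hn 5
    linarith
  have hs : 0 < S1 4 l := by
    rcases hs0.lt_or_eq with h1 | h1
    · exact h1
    · exfalso
      rw [S1_eq] at h1
      simp only [nm] at h1
      have h0 := hn 0; have h1' := hn 1; have h2 := hn 2; have h3 := hn 3; have h4 := hn 4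
      have h5 := hn 5
      have e0 : l 0 = 0 := by linarith
      have e1 : l 1 = 0 := by linarith
      have e2 : l 2 = 0 := by linarith
      have e3 : l 3 = 0 := by linarith
      have e4 : l 4 = 0 := by linarith
      have e5 : l 5 = 0 := by linarith
      rw [dt, e0, e1, e2, e3, e4, e5] at hdt
      norm_num at hdt
  have hP := dt_poly l
  rw [hdt] at hP
  have a0 := hi 0 (by decide); have a1 := hi 1 (by decide); have a2 := hi 2 (by decide)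
  have a3 := hi 3 (by decide); have a5 := hi 5 (by decide); have a6 := hi 6 (by decide)
  have b0 := lo 0 (by decide); have b1 := lo 1 (by decide); have b2 := lo 2 (by decide)
  have b3 := lo 3 (by decide); have b5 := lo 5 (by decide); have b6 := lo 6 (by decide)
  have hS := S1_eq l
  have hG : S6 4 l = ((nm l 0) ^ 6)⁻¹ + ((nm l 1) ^ 6)⁻¹ + ((nm l 2) ^ 6)⁻¹ + ((nm l 3) ^ 6)⁻¹
      + ((nm l 5) ^ 6)⁻¹ + ((nm l 6) ^ 6)⁻¹ := by
    simp [S6, Fin.sum_univ_seven]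
  unfold GoodAt
  rw [hG]
  generalize nm l 0 = n0 at *
  generalize nm l 1 = n1 at *
  generalize nm l 2 = n2 at *
  generalize nm l 3 = n3 at *
  generalize nm l 5 = n5 at *
  generalize nm l 6 = n6 at *
  generalize S1 4 l = s at *
  obtain ⟨m, rfl⟩ : ∃ m : ℝ, s = 12 * m := ⟨s / 12, by ring⟩
  have hm : 0 < m := by linarith
  have hm0 : m ≠ 0 := hm.ne'
  have p0 : 0 < n0 := by linarith
  have p1 : 0 < n1 := by linarith
  have p2 : 0 < n2 := by linarith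
  have p3 : 0 < n3 := by linarith
  have p5 : 0 < n5 := by linarith
  have p6 : 0 < n6 := by linarith
  set x0 : ℝ := (3 * m - (n5 + n6) / 2) / m - 1 with hx0
  set x1 : ℝ := (3 * m - (n2 + n3) / 2) / m - 1 with hx1
  set x2 : ℝ := (3 * m - (n0 + n1) / 2) / m - 1 with hx2
  set f0 : ℝ := (n5 - n6) / 4 / m with hf0
  set f1 : ℝ := (n3 - n2) / 4 / m with hf1
  set f2 : ℝ := (n0 - n1) / 4 / m with hf2
  have q0 : 1 - x2 / 2 + f2 = n0 / (2 * m) := by rw [hx2, hf2]; field_simp; ring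
  have q1 : 1 - x2 / 2 - f2 = n1 / (2 * m) := by rw [hx2, hf2]; field_simp; ring
  have q2 : 1 - x1 / 2 - f1 = n2 / (2 * m) := by rw [hx1, hf1]; field_simp; ring
  have q3 : 1 - x1 / 2 + f1 = n3 / (2 * m) := by rw [hx1, hf1]; field_simp; ring
  have q5 : 1 - x0 / 2 + f0 = n5 / (2 * m) := by rw [hx0, hf0]; field_simp; ring
  have q6 : 1 - x0 / 2 - f0 = n6 / (2 * m) := by rw [hx0, hf0]; field_simp; ring
  have up : ∀ n : ℝ, 60 * n ≤ 11 * (12 * m) → n / (2 * m) ≤ 11 / 10 := fun n hn' => by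
    rw [div_le_iff₀ (by positivity)]; linarith
  have dn : ∀ n : ℝ, 9 * (12 * m) ≤ 60 * n → 9 / 10 ≤ n / (2 * m) := fun n hn' => by
    rw [le_div_iff₀ (by positivity)]; linarith
  have key := local_ineq (x0 := x0) (x1 := x1) (x2 := x2) (f0 := f0) (f1 := f1) (f2 := f2)
    (q := m) (D := (1 + x0) * (1 + x1) * (1 + x2) + 2 * f0 * f1 * f2 - (1 + x0) * f0 ^ 2
      - (1 + x1) * f1 ^ 2 - (1 + x2) * f2 ^ 2)
    (by rw [hx0, hx1, hx2]; field_simp; linarith)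
    (abs_two (by linarith [dn _ b5]) (by linarith [up _ a5]) (by linarith [dn _ b6])
      (by linarith [up _ a6]))
    (abs_two (by linarith [dn _ b3]) (by linarith [up _ a3]) (by linarith [dn _ b2])
      (by linarith [up _ a2]))
    (abs_two (by linarith [dn _ b0]) (by linarith [up _ a0]) (by linarith [dn _ b1])
      (by linarith [up _ a1])) rfl hm ?_
  · rw [q0, q1, q2, q3, q5, q6] at key
    have hD : m ^ 3 * ((1 + x0) * (1 + x1) * (1 + x2) + 2 * f0 * f1 * f2 - (1 + x0) * f0 ^ 2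
      - (1 + x1) * f1 ^ 2 - (1 + x2) * f2 ^ 2) = 1 := by
      have e : m ^ 3 * ((1 + x0) * (1 + x1) * (1 + x2) + 2 * f0 * f1 * f2 - (1 + x0) * f0 ^ 2
        - (1 + x1) * f1 ^ 2 - (1 + x2) * f2 ^ 2) =
        ((3 * m - (n5 + n6) / 2) * (3 * m - (n2 + n3) / 2) * (3 * m - (n0 + n1) / 2)
      + 2 * ((n5 - n6) / 4) * ((n3 - n2) / 4) * ((n0 - n1) / 4)
      - (3 * m - (n5 + n6) / 2) * ((n5 - n6) / 4) ^ 2
      - (3 * m - (n2 + n3) / 2) * ((n3 - n2) / 4) ^ 2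
      - (3 * m - (n0 + n1) / 2) * ((n0 - n1) / 4) ^ 2) := by
        rw [hx0, hx1, hx2, hf0, hf1, hf2]; field_simp; ring
      rw [e]; linarith
    set D : ℝ := (1 + x0) * (1 + x1) * (1 + x2) + 2 * f0 * f1 * f2 - (1 + x0) * f0 ^ 2
      - (1 + x1) * f1 ^ 2 - (1 + x2) * f2 ^ 2 with hDdef
    have hinv : ∀ n : ℝ, ((n / (2 * m)) ^ 6)⁻¹ = 64 * m ^ 6 * (n ^ 6)⁻¹ := fun n => by
      rw [div_pow, inv_div, div_eq_mul_inv]; ring
    rw [hinv, hinv, hinv, hinv, hinv, hinv] at key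
    have hD2 : D ^ 2 * m ^ 6 = 1 := by
      have : D ^ 2 * m ^ 6 = (m ^ 3 * D) ^ 2 := by ring
      rw [this, hD, one_pow]
    have e2 : D ^ 2 * (64 * m ^ 6 * (n0 ^ 6)⁻¹ + 64 * m ^ 6 * (n1 ^ 6)⁻¹ + 64 * m ^ 6 * (n2 ^ 6)⁻¹
      + 64 * m ^ 6 * (n3 ^ 6)⁻¹ + 64 * m ^ 6 * (n5 ^ 6)⁻¹ + 64 * m ^ 6 * (n6 ^ 6)⁻¹)
      = 64 * ((n0 ^ 6)⁻¹ + (n1 ^ 6)⁻¹ + (n2 ^ 6)⁻¹ + (n3 ^ 6)⁻¹ + (n5 ^ 6)⁻¹ + (n6 ^ 6)⁻¹) := by
      calc _ = 64 * ((n0 ^ 6)⁻¹ + (n1 ^ 6)⁻¹ + (n2 ^ 6)⁻¹ + (n3 ^ 6)⁻¹ + (n5 ^ 6)⁻¹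
        + (n6 ^ 6)⁻¹) * (D ^ 2 * m ^ 6) := by ring
        _ = _ := by rw [hD2, mul_one]
    rw [e2] at key
    have hmin : min 1 (6 * (12 * m / 12 - 1)) ≤ 6 * (m - 1) :=
      (min_le_right _ _).trans (by linarith)
    linarith
  · have e : m ^ 3 * ((1 + x0) * (1 + x1) * (1 + x2) + 2 * f0 * f1 * f2 - (1 + x0) * f0 ^ 2
        - (1 + x1) * f1 ^ 2 - (1 + x2) * f2 ^ 2) =
        ((3 * m - (n5 + n6) / 2) * (3 * m - (n2 + n3) / 2) * (3 * m - (n0 + n1) / 2)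
      + 2 * ((n5 - n6) / 4) * ((n3 - n2) / 4) * ((n0 - n1) / 4)
      - (3 * m - (n5 + n6) / 2) * ((n5 - n6) / 4) ^ 2
      - (3 * m - (n2 + n3) / 2) * ((n3 - n2) / 4) ^ 2
      - (3 * m - (n0 + n1) / 2) * ((n0 - n1) / 4) ^ 2) := by
        rw [hx0, hx1, hx2, hf0, hf1, hf2]; field_simp; ring
    rw [e]; linarith

end Pool.Agent.Lib.FCC
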