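import Pool.Agent.Lib.FCC.TreeS
import Pool.Agent.Lib.FCC.Cover
import Pool.Agent.Lib.FCC.Perm
import Pool.Agent.Lib.FCC.Sell
import Pool.Agent.Lib.FCC.Tot
import Pool.Agent.Lib.FCC.Data0
import Pool.Agent.Lib.FCC.Data1
import Pool.Agent.Lib.FCC.Data2
import Pool.Agent.Lib.FCC.Data3
import Pool.Agent.Lib.FCC.Data4
import Pool.Agent.Lib.FCC.Data5

/-!
# The minimum among ternary forms of determinant `4`
-/

open Matrix
open scoped Matrix.Norms.Elementwise

namespace Pool.Agent.Lib.FCC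

open Pool.Agent.Lib.EpZ

theorem root_ok (k : ℕ) (hk : k < 6) : (root k).ok := by
  interval_cases k
  · exact chk_sound _ _ Data0.chk
  · exact chk_sound _ _ Data1.chk
  · exact chk_sound _ _ Data2.chk
  · exact chk_sound _ _ Data3.chk
  · exact chk_sound _ _ Data4.chk
  · exact chk_sound _ _ Data5.chk

theorem main_form {Q : Mx 3} (hQ : PD Q) (hd : Q.det = 4) {s : ℝ} (hs : 6 ≤ s) :
    F s G0 ≤ F s Q ∧ (F s Q = F s G0 → Eqv Q G0) := by
  obtain ⟨l, hl, hQl⟩ := exists_superbase Q hQ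
  have hdl : dt l = 4 := by rw [← formOf_det, hQl.det, hd]
  obtain ⟨l', hl', hd', hg, hE⟩ := exists_goodAt (fun l h0 h1 h3 h4 h5 hd => by
    obtain ⟨k, hk, hm⟩ := root_cover l h0 h1 h3 h4 h5
    exact root_ok k hk l hm hd) l hl hdl
  have hE' : Eqv Q (formOf l') := hQl.trans hE
  have hF : F s (formOf l') = F s Q := hE'.F s
  obtain ⟨h1, h2⟩ := total hl' hd' hg hs
  rw [hF] at h1 h2
  refine ⟨h1, fun h => ?_⟩
  rw [← h2 h]
  exact hE'

end Pool.Agent.Lib.FCC
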