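import Pool.Agent.Lib.FCC.CertS
import Pool.Agent.Lib.FCC.LocS

/-!
# Module FCC.TreeS: soundness of the certificate trees

Induction on the tree. Leaves: `cert_sound`, `loc_sound`. Node `nd i j a b l r`, `i ≠ j`, `i, j < 6`,
`a, b > 0`, `m = a v_i + b v_j`. Let `y = ∑ c_k v_k` with `c ≥ 0`. If `c_i / a ≥ c_j / b` put
`e = c_j / b ≥ 0`: `c_i v_i + c_j v_j = (c_i - a e) v_i + e m`, `c_i - a e ≥ 0`, so `y` is in the cone
`C.set j m` (the coefficient of `m` at place `j`); otherwise with `e = c_i / a`: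
`c_i v_i + c_j v_j = e m + (c_j - b e) v_j`, so `y` is in `C.set i m`. (In the check the left tree gets
`C.set i m` and the right one `C.set j m`.) To handle the 30 pairs `(i, j)` it may help to prove a lemma
`C.mem l ↔ ∃ c : Fin 6 → ℝ, (∀ k, 0 ≤ c k) ∧ ∀ i, l i = ∑ k : Fin 6, c k * (C.get k).re i`
(`Fin.sum_univ_six`), and `(C.set i w).get k = if k = i then w else C.get k` for `i, k < 6` (`decide`
-like case analysis, `interval_cases`).
-/

namespace Pool.Agent.Lib.FCC

namespace TreeSAux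

theorem mem_iff (C : Cone) (l : Fin 6 → ℝ) : C.mem l ↔
    ∃ c : Fin 6 → ℝ, (∀ k, 0 ≤ c k) ∧ ∀ i, l i = ∑ k : Fin 6, c k * (C.get k.1).re i := by
  obtain ⟨v0, v1, v2, v3, v4, v5⟩ := C
  unfold Cone.mem
  simp only [Fin.sum_univ_six]
  rfl

theorem get_set (C : Cone) (w : V) (i k : Fin 6) :
    (C.set i.1 w).get k.1 = if k = i then w else C.get k.1 := by
  obtain ⟨v0, v1, v2, v3, v4, v5⟩ := C
  fin_cases i <;> fin_cases k <;> rfl

theorem comb_re (a b : ℕ) (v w : V) (x : Fin 6) :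
    (V.comb a b v w).re x = a * v.re x + b * w.re x := by
  obtain ⟨p0, p1, p2, p3, p4, p5⟩ := v
  obtain ⟨q0, q1, q2, q3, q4, q5⟩ := w
  fin_cases x <;> simp [V.comb, V.re]

theorem half (C : Cone) (w : V) (i j : Fin 6) (hij : i ≠ j) (a b : ℝ) (ha : 0 < a) (hb : 0 < b)
    (hw : ∀ x, w.re x = a * (C.get i.1).re x + b * (C.get j.1).re x) (l c : Fin 6 → ℝ)
    (hc : ∀ k, 0 ≤ c k) (hl : ∀ x, l x = ∑ k : Fin 6, c k * (C.get k.1).re x)
    (h : c j / b ≤ c i / a) : (C.set j.1 w).mem l := by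
  rw [mem_iff]
  have he : 0 ≤ c j / b := div_nonneg (hc j) hb.le
  have h2 : a * (c j / b) ≤ c i := by
    rw [le_div_iff₀ ha] at h
    linarith
  refine ⟨fun k => if k = j then c j / b else if k = i then c i - a * (c j / b) else c k, ?_, ?_⟩
  · intro k
    dsimp only
    split_ifs
    · exact he
    · linarith
    · exact hc k
  · intro x
    rw [hl x, ← sub_eq_zero, ← Finset.sum_sub_distrib]
    rw [Finset.sum_eq_add_of_mem i j (Finset.mem_univ _) (Finset.mem_univ _) hij]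
    · rw [get_set, get_set]
      simp only [hij, if_true, if_false, hw x]
      field_simp
      ring
    · intro k _ hk
      rw [get_set]
      simp only [hk.1, hk.2, if_false, sub_self]

end TreeSAux

open TreeSAux

theorem chk_sound (t : Tr) (C : Cone) (h : t.chk C = true) : C.ok := by
  induction t generalizing C with
  | lo => exact loc_sound C h
  | ce j lv t0 t1 t2 t3 t4 t5 t6 => exact cert_sound C j lv t0 t1 t2 t3 t4 t5 t6 h
  | nd i j a b L R ihL ihR =>
    rw [Tr.chk] at h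
    simp only [Bool.and_eq_true, Bool.not_eq_true'] at h
    obtain ⟨⟨⟨⟨⟨⟨ha, hb⟩, hi⟩, hj⟩, hij⟩, hL⟩, hR⟩ := h
    have ha' : 0 < a := by simpa [Nat.blt_eq] using ha
    have hb' : 0 < b := by simpa [Nat.blt_eq] using hb
    have hi' : i < 6 := by simpa [Nat.blt_eq] using hi
    have hj' : j < 6 := by simpa [Nat.blt_eq] using hj
    have hij' : i ≠ j := by
      intro h0
      rw [h0] at hij
      simp at hij
    have haR : (0 : ℝ) < a := by exact_mod_cast ha'
    have hbR : (0 : ℝ) < b := by exact_mod_cast hb'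
    intro l hl hd
    obtain ⟨c, hc, hc2⟩ := (mem_iff C l).1 hl
    have hne : (⟨i, hi'⟩ : Fin 6) ≠ ⟨j, hj'⟩ := by
      intro h0
      exact hij' (congrArg Fin.val h0)
    rcases le_total (c ⟨j, hj'⟩ / b) (c ⟨i, hi'⟩ / a) with h1 | h1
    · refine ihR _ hR l ?_ hd
      exact half C _ ⟨i, hi'⟩ ⟨j, hj'⟩ hne a b haR hbR (fun x => comb_re _ _ _ _ _) l c hc hc2 h1
    · refine ihL _ hL l ?_ hd
      refine half C _ ⟨j, hj'⟩ ⟨i, hi'⟩ hne.symm b a hbR haR (fun x => ?_) l c hc hc2 h1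
      rw [comb_re]
      ring

end Pool.Agent.Lib.FCC
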